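import Mathlib
import Pool.Agent.MP_a0341c_al.Std

-- part MP_a0341c_al.Inv
section

/-! Invariant polynomials on a Lie algebra and their restriction to a slice. -/

namespace Pool.Agent.MP_a0341c_al

open MvPolynomial Finset Module

set_option linter.unusedSectionVars false

section Gen
variable {I : Type*}

lemma rel_der {B : Type*} [CommRing B] [Algebra ℂ B] (φ : MvPolynomial I ℂ →ₐ[ℂ] B)
    (δ : Derivation ℂ (MvPolynomial I ℂ) (MvPolynomial I ℂ)) (δ' : Derivation ℂ B B)
    (h : ∀ i, φ (δ (X i)) = δ' (φ (X i))) (Q : MvPolynomial I ℂ) : φ (δ Q) = δ' (φ Q) := by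
  induction Q using MvPolynomial.induction_on with
  | C a => rw [derivation_C, map_zero, algHom_C, Derivation.map_algebraMap]
  | add p q hp hq => simp only [map_add, hp, hq]
  | mul_X p i hp => simp only [Derivation.leibniz, smul_eq_mul, map_add, map_mul, hp, h]

lemma der_eq_sum [Fintype I] (δ : Derivation ℂ (MvPolynomial I ℂ) (MvPolynomial I ℂ))
    (Q : MvPolynomial I ℂ) : δ Q = ∑ i, δ (X i) * pderiv i Q := by
  classical
  induction Q using MvPolynomial.induction_on with
  | C a => simp
  | add p q hp hq => simp only [map_add, hp, hq, mul_add, Finset.sum_add_distrib]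
  | mul_X p i hp =>
    simp only [Derivation.leibniz, smul_eq_mul, mul_add, Finset.sum_add_distrib]
    congr 1
    · rw [Finset.sum_eq_single i]
      · simp [mul_comm]
      · intro j _ hj
        rw [pderiv_X_of_ne hj.symm]
        simp
      · simp
    · rw [hp, Finset.mul_sum]
      refine Finset.sum_congr rfl fun j _ => ?_
      ring

lemma whom_of_euler [Fintype I] (w : I → ℕ) (d : ℕ) (Q : MvPolynomial I ℂ)
    (h : ∑ i, w i • (X i * pderiv i Q) = d • Q) : IsWeightedHomogeneous w Q d := by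
  classical
  intro s hs
  have h1 : ∑ i, w i • (X i * pderiv i Q) =
      ∑ t ∈ Q.support, Finsupp.weight w t • monomial t (coeff t Q) := by
    conv_lhs => rw [Q.as_sum]
    simp only [map_sum, Finset.mul_sum, Finset.smul_sum]
    rw [Finset.sum_comm]
    refine Finset.sum_congr rfl fun t _ => ?_
    exact (isWeightedHomogeneous_monomial w t _ rfl).sum_weight_X_mul_pderiv
  rw [h1] at h
  have h2 := congrArg (coeff s) h
  rw [coeff_sum, Finset.sum_eq_single s] at h2
  · rw [coeff_smul, coeff_smul, coeff_monomial, if_pos rfl, nsmul_eq_mul, nsmul_eq_mul] at h2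
    exact_mod_cast mul_right_cancel₀ hs h2
  · intro t _ ht
    rw [coeff_smul, coeff_monomial, if_neg ht, smul_zero]
  · intro h3
    exact absurd (mem_support_iff.2 hs) h3

end Gen

variable {L : Type*} [LieRing L] [LieAlgebra ℂ L] {I : Type*} [Fintype I] [DecidableEq I]
  (b : Basis I ℂ L)

/-- linear vector field -/
noncomputable def lin (T : L →ₗ[ℂ] L) : Derivation ℂ (MvPolynomial I ℂ) (MvPolynomial I ℂ) :=
  mkDerivation ℂ fun i => ∑ j, b.repr (T (b j)) i • X j

/-- constant vector field -/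
noncomputable def dd (y : L) : Derivation ℂ (MvPolynomial I ℂ) (MvPolynomial I ℂ) :=
  mkDerivation ℂ fun i => C (b.repr y i)

omit [DecidableEq I] in
lemma lin_X (T : L →ₗ[ℂ] L) (i : I) : lin b T (X i) = ∑ j, b.repr (T (b j)) i • X j :=
  mkDerivation_X _ _ _

omit [Fintype I] [DecidableEq I] in
lemma dd_X (y : L) (i : I) : dd b y (X i) = C (b.repr y i) := mkDerivation_X _ _ _

omit [DecidableEq I] in
lemma repr_map (T : L →ₗ[ℂ] L) (y : L) (i : I) :
    ∑ j, b.repr (T (b j)) i * b.repr y j = b.repr (T y) i := by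
  conv_rhs => rw [← b.sum_repr y]
  simp only [map_sum, map_smul, Finsupp.finsetSum_apply, Finsupp.smul_apply, smul_eq_mul, mul_comm]

omit [Fintype I] [DecidableEq I] in
lemma dd_add (y w : L) : dd b (y + w) = dd b y + dd b w :=
  derivation_ext fun i => by simp [dd_X]

omit [Fintype I] [DecidableEq I] in
lemma dd_smul (c : ℂ) (y : L) : dd b (c • y) = c • dd b y :=
  derivation_ext fun i => by simp [dd_X, smul_eq_C_mul]

omit [Fintype I] [DecidableEq I] in
lemma dd_zero : dd b 0 = 0 := derivation_ext fun i => by simp [dd_X]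

omit [Fintype I] [DecidableEq I] in
lemma dd_sum {M : Type*} (s : Finset M) (y : M → L) (Q : MvPolynomial I ℂ) :
    dd b (∑ m ∈ s, y m) Q = ∑ m ∈ s, dd b (y m) Q := by
  classical
  induction s using Finset.induction_on with
  | empty => simp [dd_zero]
  | insert a s ha ih => rw [Finset.sum_insert ha, Finset.sum_insert ha, dd_add, ← ih]; rfl

omit [Fintype I] in
lemma dd_basis (i : I) : dd b (b i) = pderiv i :=
  derivation_ext fun j => by
    rw [dd_X, pderiv_X]
    by_cases h : j = i
    · subst h; simp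
    · simp [Finsupp.single_apply, h, Ne.symm h]

omit [Fintype I] [DecidableEq I] in
lemma dd_comm (y w : L) (Q : MvPolynomial I ℂ) : dd b y (dd b w Q) = dd b w (dd b y Q) := by
  have : ⁅dd b y, dd b w⁆ = 0 := derivation_ext fun i => by
    simp [Derivation.commutator_apply, dd_X]
  have h := congrArg (fun D => D Q) this
  simp only [Derivation.commutator_apply, Derivation.zero_apply] at h
  exact sub_eq_zero.1 h

omit [DecidableEq I] in
lemma dd_lin (y : L) (T : L →ₗ[ℂ] L) (Q : MvPolynomial I ℂ) :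
    dd b y (lin b T Q) = lin b T (dd b y Q) + dd b (T y) Q := by
  have : ⁅dd b y, lin b T⁆ = dd b (T y) := derivation_ext fun i => by
    simp only [Derivation.commutator_apply, dd_X, lin_X, map_sum, Derivation.map_smul,
      derivation_C, sub_zero, ← repr_map b T y i, map_mul]
    simp only [smul_eq_C_mul]
  have h := congrArg (fun D => D Q) this
  simp only [Derivation.commutator_apply] at h
  rw [← h]
  ring

lemma lin_id_X (i : I) : lin b LinearMap.id (X i) = X i := by
  rw [lin_X, Finset.sum_eq_single i]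
  · simp
  · intro j _ hj
    simp [Finsupp.single_apply, hj]
  · simp

/-- a point with coordinates in an algebra -/
noncomputable def vec {B : Type*} [CommRing B] [Algebra ℂ B] {A : Type*} [Fintype A] (z : A → B)
    (y : A → L) : I → B := fun i => ∑ c, b.repr (y c) i • z c

omit [DecidableEq I] in
lemma aeval_lin_X {B : Type*} [CommRing B] [Algebra ℂ B] {A : Type*} [Fintype A] (z : A → B)
    (y : A → L) (T : L →ₗ[ℂ] L) (i : I) :
    aeval (vec b z y) (lin b T (X i)) = vec b z (fun c => T (y c)) i := by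
  simp only [lin_X, map_sum, map_smul, aeval_X, vec, Finset.smul_sum, smul_smul]
  rw [Finset.sum_comm]
  refine Finset.sum_congr rfl fun c _ => ?_
  rw [← Finset.sum_smul, repr_map]

/-- evaluation at a point -/
noncomputable def ev (f : L) : MvPolynomial I ℂ →ₐ[ℂ] ℂ := aeval fun i => b.repr f i

/-- polynomials vanishing to order `r` at `f` -/
noncomputable def van (f : L) : ℕ → Submodule ℂ (MvPolynomial I ℂ)
  | 0 => ⊤
  | r + 1 => LinearMap.ker (ev b f).toLinearMap ⊓
      ⨅ y : L, (van f r).comap (dd b y : MvPolynomial I ℂ →ₗ[ℂ] MvPolynomial I ℂ)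

omit [Fintype I] [DecidableEq I] in
lemma mem_van_succ {f : L} {r : ℕ} {Q : MvPolynomial I ℂ} :
    Q ∈ van b f (r + 1) ↔ ev b f Q = 0 ∧ ∀ y, dd b y Q ∈ van b f r := by
  simp [van, Submodule.mem_iInf]

omit [DecidableEq I] in
lemma van_lin (f : L) (T : L →ₗ[ℂ] L) : ∀ (r : ℕ) (Q : MvPolynomial I ℂ), Q ∈ van b f r →
    lin b T Q - dd b (T f) Q ∈ van b f r
  | 0, _, _ => trivial
  | r + 1, Q, hQ => by
    rw [mem_van_succ] at hQ ⊢
    refine ⟨?_, fun y => ?_⟩
    · have := rel_der (ev b f) (lin b T - dd b (T f)) 0 (fun i => by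
        simp only [Derivation.sub_apply, lin_X, dd_X, map_sub, map_sum, map_smul, ev, aeval_X,
          smul_eq_mul, repr_map, aeval_C]
        simp) Q
      simpa using this
    · rw [map_sub, dd_lin, dd_comm b y, add_sub_right_comm]
      exact Submodule.add_mem _ (van_lin f T r _ (hQ.2 y)) (hQ.2 _)

lemma eq_zero_of_van (f : L) : ∀ (d : ℕ) (P : MvPolynomial I ℂ),
    lin b LinearMap.id P = d • P → (∀ r, P ∈ van b f r) → P = 0
  | 0, P, hP, hv => by
    have h1 : IsWeightedHomogeneous (1 : I → ℕ) P 0 := whom_of_euler _ _ _ (by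
      rw [← hP, der_eq_sum]
      simp [lin_id_X])
    have h2 : P.IsHomogeneous 0 := h1
    rw [← totalDegree_zero_iff_isHomogeneous, totalDegree_eq_zero_iff_eq_C] at h2
    have h3 := ((mem_van_succ b).1 (hv 1)).1
    rw [h2, algHom_C] at h3
    rw [h2, show coeff 0 P = 0 from h3, C_0]
  | d + 1, P, hP, hv => by
    have h1 : ∀ y, dd b y P = 0 := fun y => eq_zero_of_van f d _ (by
      have := dd_lin b y LinearMap.id P
      rw [hP, map_nsmul, add_smul, one_smul] at this
      exact (add_right_cancel this).symm) fun r => ((mem_van_succ b).1 (hv (r + 1))).2 y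
    rw [der_eq_sum] at hP
    simp only [← dd_basis b, h1, mul_zero, Finset.sum_const_zero] at hP
    exact (smul_eq_zero.1 hP.symm).resolve_left (by omega)

/-- invariant and homogeneous of degree `d` -/
def IsInv (d : ℕ) (P : MvPolynomial I ℂ) : Prop :=
  lin b LinearMap.id P = d • P ∧ ∀ z, lin b (LieAlgebra.ad ℂ L z) P = 0

omit [DecidableEq I] in
lemma IsInv.mul {b : Basis I ℂ L} {d d' : ℕ} {P Q : MvPolynomial I ℂ} (hP : IsInv b d P)
    (hQ : IsInv b d' Q) : IsInv b (d + d') (P * Q) := by
  refine ⟨?_, fun z => ?_⟩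
  · rw [Derivation.leibniz, hP.1, hQ.1]
    simp only [smul_eq_mul, nsmul_eq_mul]
    push_cast
    ring
  · rw [Derivation.leibniz, hP.2, hQ.2]
    simp

/-- the invariants of degree `d` -/
noncomputable def invs (d : ℕ) : Submodule ℂ (MvPolynomial I ℂ) where
  carrier := {P | IsInv b d P}
  add_mem' := fun {P Q} hP hQ => ⟨by rw [map_add, hP.1, hQ.1, smul_add],
    fun z => by rw [map_add, hP.2, hQ.2, add_zero]⟩
  zero_mem' := ⟨by simp, fun z => by simp⟩
  smul_mem' := fun c P hP => ⟨by rw [Derivation.map_smul, hP.1, smul_comm],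
    fun z => by rw [Derivation.map_smul, hP.2, smul_zero]⟩

variable {M : Type*} [Fintype M] [DecidableEq M]

/-- data of a Kostant slice -/
structure Slice (h f : L) (u : M → L) (wt : M → ℕ) : Prop where
  hf : ⁅h, f⁆ = -((2 : ℂ) • f)
  hu : ∀ m, ⁅h, u m⁆ = (2 * wt m : ℂ) • u m
  span : ∀ y : L, ∃ (z : L) (c : M → ℂ), y = ⁅z, f⁆ + ∑ m, c m • u m

/-- restriction to the slice -/
noncomputable def res (f : L) (u : M → L) : MvPolynomial I ℂ →ₐ[ℂ] MvPolynomial M ℂ :=
  aeval (vec b (fun o : Option M => o.elim 1 X) (fun o => o.elim f u))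

omit [Fintype I] [DecidableEq I] [DecidableEq M] in
lemma res_X (f : L) (u : M → L) (i : I) :
    res b f u (X i) = C (b.repr f i) + ∑ m, b.repr (u m) i • X m := by
  simp [res, vec, smul_eq_C_mul]

omit [Fintype I] [DecidableEq I] in
lemma res_dd (f : L) (u : M → L) (m : M) (Q : MvPolynomial I ℂ) :
    res b f u (dd b (u m) Q) = pderiv m (res b f u Q) := by
  refine rel_der _ _ _ (fun i => ?_) Q
  rw [res_X, dd_X, algHom_C, map_add, pderiv_C, zero_add, map_sum, Finset.sum_eq_single m]
  · simp [smul_eq_C_mul]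
  · intro j _ hj
    simp [pderiv_X_of_ne hj]
  · simp

omit [Fintype I] [DecidableEq I] [DecidableEq M] in
lemma ev_eq_res (f : L) (u : M → L) (Q : MvPolynomial I ℂ) :
    ev b f Q = coeff 0 (res b f u Q) := by
  have : ev b f = (aeval (0 : M → ℂ)).comp (res b f u) := by
    refine algHom_ext fun i => ?_
    simp [ev, res_X]
  rw [this, AlgHom.comp_apply, aeval_zero]
  rfl

variable {h f : L} {u : M → L} {wt : M → ℕ}

omit [Fintype I] [DecidableEq I] in
lemma van_succ_of (S : Slice h f u wt) : ∀ (r : ℕ) (Q : MvPolynomial I ℂ),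
    (∀ z : L, dd b ⁅z, f⁆ Q ∈ van b f r) → res b f u Q = 0 → Q ∈ van b f (r + 1)
  | 0, Q, _, h2 => by
    rw [mem_van_succ, ev_eq_res b f u, h2]
    exact ⟨rfl, fun _ => trivial⟩
  | r + 1, Q, h1, h2 => by
    rw [mem_van_succ, ev_eq_res b f u, h2]
    refine ⟨rfl, fun y => ?_⟩
    obtain ⟨z, c, rfl⟩ := S.span y
    rw [dd_add, Derivation.add_apply, dd_sum]
    refine Submodule.add_mem _ (h1 z) (Submodule.sum_mem _ fun m _ => ?_)
    rw [dd_smul, Derivation.smul_apply]
    refine Submodule.smul_mem _ _ (van_succ_of S r _ (fun z => ?_) ?_)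
    · rw [dd_comm]
      exact ((mem_van_succ b).1 (h1 z)).2 _
    · rw [res_dd, h2, map_zero]

theorem res_inj (S : Slice h f u wt) {d : ℕ} {P : MvPolynomial I ℂ} (hP : IsInv b d P)
    (h0 : res b f u P = 0) : P = 0 := by
  refine eq_zero_of_van b f d P hP.1 fun r => ?_
  induction r with
  | zero => trivial
  | succ r ih =>
    refine van_succ_of b S r P (fun z => ?_) h0
    have := van_lin b f (LieAlgebra.ad ℂ L z) r P ih
    rw [hP.2, zero_sub] at this
    exact (Submodule.neg_mem_iff _).1 this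

theorem res_whom (S : Slice h f u wt) {d : ℕ} {P : MvPolynomial I ℂ} (hP : IsInv b d P) :
    IsWeightedHomogeneous (fun m => wt m + 1) (res b f u P) d := by
  apply whom_of_euler
  have := rel_der (res b f u) (lin b LinearMap.id + (1 / 2 : ℂ) • lin b (LieAlgebra.ad ℂ L h))
    (mkDerivation ℂ fun m : M => (wt m + 1) • (X m : MvPolynomial M ℂ)) (fun i => by
      rw [Derivation.add_apply, Derivation.smul_apply, lin_id_X, map_add, map_smul]
      have h1 : res b f u (lin b (LieAlgebra.ad ℂ L h) (X i)) = _ := aeval_lin_X b _ _ _ i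
      rw [h1, res_X]
      simp only [vec, Fintype.sum_option, Option.elim, LieAlgebra.ad_apply, S.hf, S.hu, map_neg,
        map_smul, map_add, map_sum, derivation_C, Derivation.map_smul, mkDerivation_X,
        Finsupp.neg_apply, Finsupp.smul_apply, smul_eq_mul, smul_add, Finset.smul_sum, smul_smul,
        zero_add]
      rw [add_add_add_comm, ← Finset.sum_add_distrib]
      have h2 : (C (b.repr f i) : MvPolynomial M ℂ) + (1 / 2 * -(2 * b.repr f i)) • 1 = 0 := by
        rw [C_eq_smul_one, ← add_smul]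
        have : b.repr f i + 1 / 2 * -(2 * b.repr f i) = 0 := by ring
        rw [this, zero_smul]
      rw [h2, zero_add]
      refine Finset.sum_congr rfl fun m _ => ?_
      rw [← add_smul, ← Nat.cast_smul_eq_nsmul ℂ, smul_smul]
      congr 1
      push_cast
      ring) P
  rw [Derivation.add_apply, Derivation.smul_apply, hP.1, hP.2, smul_zero, add_zero, map_nsmul,
    der_eq_sum] at this
  rw [this]
  simp only [mkDerivation_X, smul_mul_assoc]

theorem structure_inv (S : Slice h f u wt) (T : M → MvPolynomial I ℂ)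
    (hT : ∀ m, IsInv b (wt m + 1) (T m)) (K : Submodule ℂ (MvPolynomial I ℂ))
    (hK : ∀ d d' P Q, IsInv b (d + 1) P → IsInv b (d' + 1) Q → P * Q ∈ K)
    (H : ∀ (d : ℕ) (c : M → ℂ), (∀ m, wt m ≠ d → c m = 0) →
      (∀ m', wt m' = d → ev b f (dd b (u m') (∑ m, c m • T m)) = 0) → ∑ m, c m • T m ∈ K → c = 0)
    {k : ℕ} {P : MvPolynomial I ℂ} (hP : IsInv b (k + 1) P) :
    ∃ c : M → ℂ, (∀ m, wt m ≠ k → c m = 0) ∧ P - ∑ m, c m • T m ∈ K := by
  have hc : ∀ m Q, ev b f (dd b (u m) Q) = coeff (Finsupp.single m 1) (res b f u Q) := fun m Q => by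
    rw [ev_eq_res b f u, res_dd, coeff_pderiv]
    simp
  have hs : ∀ (d : ℕ) (c : M → ℂ), (∀ m, wt m ≠ d → c m = 0) →
      ∑ m, c m • T m ∈ invs b (d + 1) := fun d c hc => Submodule.sum_mem _ fun m _ => by
    by_cases hm : wt m = d
    · exact Submodule.smul_mem _ _ (hm ▸ hT m)
    · rw [hc m hm, zero_smul]; exact Submodule.zero_mem _
  have A : ∀ d : ℕ, (∀ d' < d, ∀ Q, IsWeightedHomogeneous (fun m => wt m + 1) Q (d' + 1) →
        Q ∈ (invs b (d' + 1)).map (res b f u).toLinearMap) →
      ∀ Q, IsWeightedHomogeneous (fun m => wt m + 1) Q (d + 1) →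
      (∀ m, wt m = d → coeff (Finsupp.single m 1) Q = 0) →
      Q ∈ (invs b (d + 1) ⊓ K).map (res b f u).toLinearMap := by
    intro d ih Q hQ h0
    rw [Q.as_sum]
    refine Submodule.sum_mem _ fun s hs => ?_
    have hs1 := mem_support_iff.1 hs
    have hw := hQ hs1
    have hs0 : s ≠ 0 := by
      rintro rfl
      simp at hw
    obtain ⟨m, hm⟩ := Finsupp.support_nonempty_iff.2 hs0
    have hm' := Finsupp.mem_support_iff.1 hm
    obtain ⟨s', hs'⟩ : ∃ s', s = Finsupp.single m 1 + s' :=
      ⟨s - Finsupp.single m 1, by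
        rw [add_tsub_cancel_of_le]
        rw [Finsupp.single_le_iff]
        omega⟩
    have hw2 : wt m + 1 + Finsupp.weight (fun m => wt m + 1) s' = d + 1 := by
      rw [← hw, hs', map_add, Finsupp.weight_single]
      simp
    have hw3 : Finsupp.weight (fun m => wt m + 1) s' ≠ 0 := by
      intro h3
      have h4 : s' = 0 := by
        by_contra h5
        obtain ⟨m', hm2⟩ := Finsupp.support_nonempty_iff.2 h5
        have := Finsupp.le_weight_of_ne_zero' (fun m => wt m + 1) (Finsupp.mem_support_iff.1 hm2)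
        omega
      apply hs1
      rw [hs', h4, add_zero]
      exact h0 m (by omega)
    obtain ⟨d', hd'⟩ := Nat.exists_eq_succ_of_ne_zero hw3
    obtain ⟨P1, hP1, e1⟩ := ih (wt m) (by omega) (X m) (isWeightedHomogeneous_X ℂ _ m)
    obtain ⟨P2, hP2, e2⟩ := ih d' (by omega) (monomial s' (coeff s Q))
      (isWeightedHomogeneous_monomial _ _ _ hd')
    refine ⟨P1 * P2, ⟨?_, hK _ _ _ _ hP1 hP2⟩, ?_⟩
    · have := IsInv.mul hP1 hP2
      have e : wt m + 1 + (d' + 1) = d + 1 := by omega
      rw [e] at this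
      exact this
    · simp only [AlgHom.toLinearMap_apply] at e1 e2 ⊢
      rw [map_mul, e1, e2, X, monomial_mul, one_mul, ← hs']
  have B : ∀ d : ℕ, (∀ d' < d, ∀ Q, IsWeightedHomogeneous (fun m => wt m + 1) Q (d' + 1) →
        Q ∈ (invs b (d' + 1)).map (res b f u).toLinearMap) →
      ∀ Q, IsWeightedHomogeneous (fun m => wt m + 1) Q (d + 1) →
      ∃ c : M → ℂ, (∀ m, wt m ≠ d → c m = 0) ∧
        Q - res b f u (∑ m, c m • T m) ∈ (invs b (d + 1) ⊓ K).map (res b f u).toLinearMap := by
    intro d ih Q hQ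
    let Λ : (M → ℂ) →ₗ[ℂ] (M → ℂ) := LinearMap.pi fun m' => if wt m' = d then
      lcoeff ℂ (Finsupp.single m' 1) ∘ₗ (res b f u).toLinearMap ∘ₗ Fintype.linearCombination ℂ T
      else LinearMap.proj m'
    have hΛ : ∀ c m', Λ c m' = if wt m' = d then
        coeff (Finsupp.single m' 1) (res b f u (∑ m, c m • T m)) else c m' := by
      intro c m'
      simp only [Λ, LinearMap.pi_apply]
      split_ifs
      · rw [← Fintype.linearCombination_apply ℂ T c]
        rfl
      · rfl
    have hinj : Function.Injective Λ := by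
      rw [injective_iff_map_eq_zero]
      intro c hc0
      have h1 : ∀ m, wt m ≠ d → c m = 0 := fun m hm => by
        have := congrFun hc0 m
        rwa [hΛ, if_neg hm] at this
      have h2 : ∀ m, wt m = d → coeff (Finsupp.single m 1) (res b f u (∑ m, c m • T m)) = 0 :=
        fun m hm => by
          have := congrFun hc0 m
          rwa [hΛ, if_pos hm] at this
      refine H d c h1 (fun m hm => by rw [hc, h2 m hm]) ?_
      obtain ⟨P', ⟨h3, h4⟩, h5⟩ := A d ih _ (res_whom b S (hs d c h1)) h2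
      have : ∑ m, c m • T m - P' = 0 := res_inj b S ((invs b (d + 1)).sub_mem (hs d c h1) h3) (by
        rw [map_sub, ← h5]; simp)
      rw [sub_eq_zero.1 this]
      exact h4
    obtain ⟨c, hc1⟩ := LinearMap.surjective_of_injective hinj
      fun m => if wt m = d then coeff (Finsupp.single m 1) Q else 0
    have h1 : ∀ m, wt m ≠ d → c m = 0 := fun m hm => by
      have := congrFun hc1 m
      rwa [hΛ, if_neg hm, if_neg hm] at this
    refine ⟨c, h1, A d ih _ (hQ.sub (res_whom b S (hs d c h1))) fun m hm => ?_⟩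
    have := congrFun hc1 m
    rw [hΛ, if_pos hm, if_pos hm] at this
    rw [coeff_sub, this, sub_self]
  have Cc : ∀ d : ℕ, ∀ Q, IsWeightedHomogeneous (fun m => wt m + 1) Q (d + 1) →
      Q ∈ (invs b (d + 1)).map (res b f u).toLinearMap := by
    intro d
    induction d using Nat.strong_induction_on with
    | _ d ih =>
      intro Q hQ
      obtain ⟨c, h0, h1⟩ := B d ih Q hQ
      have h2 := Submodule.map_mono inf_le_left h1
      have h3 : res b f u (∑ m, c m • T m) ∈ (invs b (d + 1)).map (res b f u).toLinearMap :=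
        ⟨_, hs d c h0, rfl⟩
      simpa using Submodule.add_mem _ h2 h3
  obtain ⟨c, h0, P', ⟨h1, h2⟩, h3⟩ := B k (fun d' _ => Cc d') _ (res_whom b S hP)
  refine ⟨c, h0, ?_⟩
  have : P - ∑ m, c m • T m - P' = 0 := res_inj b S ((invs b (k + 1)).sub_mem
    ((invs b (k + 1)).sub_mem hP (hs k c h0)) h1) (by
    rw [map_sub, map_sub, ← h3]; simp)
  rw [sub_eq_zero.1 this]
  exact h2

end Pool.Agent.MP_a0341c_al

end

-- part MP_a0341c_al.Grass
section

/-! Grassmann variables. -/

namespace Pool.Agent.MP_a0341c_al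

open Finset Equiv

/-- the Grassmann algebra on `d` generators -/
abbrev Lam (d : ℕ) := ExteriorAlgebra ℂ (Fin d → ℂ)

/-- its centre -/
abbrev Zen (d : ℕ) := Subalgebra.center ℂ (Lam d)

variable {d : ℕ}

/-- the generators -/
noncomputable def eps (a : Fin d) : Lam d := ExteriorAlgebra.ι ℂ (Pi.single a 1)

lemma iota_swap (x y : Fin d → ℂ) : ExteriorAlgebra.ι ℂ x * ExteriorAlgebra.ι ℂ y =
    -(ExteriorAlgebra.ι ℂ y * ExteriorAlgebra.ι ℂ x) :=
  eq_neg_of_add_eq_zero_left (ExteriorAlgebra.ι_add_mul_swap x y)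

lemma eps_swap (a c : Fin d) : eps a * eps c = -(eps c * eps a) := iota_swap _ _

lemma eps_mul_mem (a c : Fin d) : eps a * eps c ∈ Zen d := by
  rw [Subalgebra.mem_center_iff]
  intro x
  induction x using ExteriorAlgebra.induction with
  | algebraMap r => exact Algebra.commutes _ _
  | ι m =>
    unfold eps
    rw [← mul_assoc, iota_swap m, neg_mul, mul_assoc, iota_swap m, mul_neg, neg_neg, mul_assoc]
  | mul x y hx hy => rw [mul_assoc, hy, ← mul_assoc, hx, mul_assoc]
  | add x y hx hy => rw [add_mul, mul_add, hx, hy]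

/-- products of two generators -/
noncomputable def ee (p : Fin d × Fin d) : Zen d := ⟨eps p.1 * eps p.2, eps_mul_mem _ _⟩

lemma ee_cyc (a c p q : Fin d) : ee (a, c) * ee (p, q) = ee (p, c) * ee (q, a) := by
  apply Subtype.ext
  show eps a * eps c * (eps p * eps q) = eps p * eps c * (eps q * eps a)
  have h1 : ∀ x : Lam d, x * (eps q * eps a) = eps q * eps a * x :=
    Subalgebra.mem_center_iff.1 (eps_mul_mem q a)
  have h2 : ∀ x : Lam d, x * (eps a * eps c) = eps a * eps c * x :=
    Subalgebra.mem_center_iff.1 (eps_mul_mem a c)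
  calc eps a * eps c * (eps p * eps q) = eps p * (eps a * eps c) * eps q := by
        rw [h2, mul_assoc, mul_assoc, mul_assoc]
    _ = -(eps p * eps c * (eps a * eps q)) := by
        rw [eps_swap a c, mul_neg, neg_mul]
        simp only [mul_assoc]
    _ = _ := by rw [eps_swap a q, mul_neg, neg_neg]

/-- the coefficient of the product of all generators -/
noncomputable def top (d : ℕ) : Lam d →ₗ[ℂ] ℂ :=
  ExteriorAlgebra.liftAlternating
    (Function.update (0 : ∀ i, (Fin d → ℂ) [⋀^Fin i]→ₗ[ℂ] ℂ) d Matrix.detRowAlternating)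

lemma sum_top (G : (Fin d → Fin d) → ℂ) :
    ∑ v : Fin d → Fin d, top d (List.ofFn fun i => eps (v i)).prod * G v =
      ∑ σ : Perm (Fin d), ((Perm.sign σ : ℤ) : ℂ) * G σ := by
  have h1 : ∀ v : Fin d → Fin d, top d (List.ofFn fun i => eps (v i)).prod =
      Matrix.detRowAlternating ((1 : Matrix (Fin d) (Fin d) ℂ) ∘ v) := by
    intro v
    have := ExteriorAlgebra.liftAlternating_apply_ιMulti
      (Function.update (0 : ∀ i, (Fin d → ℂ) [⋀^Fin i]→ₗ[ℂ] ℂ) d Matrix.detRowAlternating)
      (fun i => Pi.single (v i) (1 : ℂ))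
    rw [Function.update_self] at this
    refine Eq.trans this ?_
    congr 1
    funext i j
    simp [Matrix.one_apply, Pi.single_apply, eq_comm]
  symm
  refine Fintype.sum_of_injective (fun σ : Perm (Fin d) => (σ : Fin d → Fin d))
    DFunLike.coe_injective _ _ (fun v hv => ?_) (fun σ => ?_)
  · rw [h1, AlternatingMap.map_eq_zero_of_not_injective, zero_mul]
    intro h
    exact hv ⟨Equiv.ofBijective v (Finite.injective_iff_bijective.1 (Function.Injective.of_comp h)),
      rfl⟩
  · rw [h1, AlternatingMap.map_perm]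
    have : Matrix.detRowAlternating (1 : Matrix (Fin d) (Fin d) ℂ) = 1 := Matrix.det_one
    rw [this, Units.smul_def, zsmul_eq_mul, mul_one]

lemma sum_mul_pow {R A : Type*} [Ring R] [Fintype A] (p q : A → R)
    (h : ∀ a c, Commute (q a) (p c)) : ∀ m : ℕ, (∑ a, p a * q a) ^ m =
      ∑ v : Fin m → A, (List.ofFn fun i => p (v i)).prod * (List.ofFn fun i => q (v i)).prod
  | 0 => by simp
  | m + 1 => by
    rw [pow_succ', sum_mul_pow p q h m, ← (Fin.consEquiv fun _ => A).sum_comp,
      Fintype.sum_prod_type, Finset.sum_mul]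
    refine Finset.sum_congr rfl fun a _ => ?_
    rw [Finset.mul_sum]
    refine Finset.sum_congr rfl fun v _ => ?_
    have : Commute (q a) (List.ofFn fun i => p (v i)).prod :=
      Commute.list_prod_right _ _ fun x hx => by
        obtain ⟨i, rfl⟩ := List.mem_ofFn.1 hx
        exact h _ _
    simp only [List.ofFn_succ, List.prod_cons, Fin.consEquiv_apply, Fin.cons_zero, Fin.cons_succ]
    rw [mul_assoc, mul_assoc, ← mul_assoc (q a), this.eq, mul_assoc]

/-- enumeration of the index set of the Cartan form -/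
def en0 {k : ℕ} : Option (Fin k × Bool) → Fin (2 * k + 1)
  | none => ⟨0, by omega⟩
  | some (j, false) => ⟨2 * j + 1, by omega⟩
  | some (j, true) => ⟨2 * j + 2, by omega⟩

lemma en0_bij (k : ℕ) : Function.Bijective (en0 (k := k)) := by
  rw [Fintype.bijective_iff_injective_and_card]
  refine ⟨?_, by simp [mul_comm]⟩
  rintro (_ | ⟨i, _ | _⟩) (_ | ⟨j, _ | _⟩) h <;> simp only [en0, Fin.mk.injEq] at h <;>
    first | rfl | omega | (congr; omega)

/-- enumeration of the index set of the Cartan form -/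
noncomputable def en (k : ℕ) : Option (Fin k × Bool) ≃ Fin (2 * k + 1) :=
  Equiv.ofBijective _ (en0_bij k)

lemma prod_en {R : Type*} [Monoid R] (k : ℕ) (w : Fin (2 * k + 1) → R) :
    (List.ofFn w).prod = w (en k none) *
      (List.ofFn fun j : Fin k => w (en k (some (j, false))) * w (en k (some (j, true)))).prod := by
  induction k with
  | zero => simp [en, en0]
  | succ k ih =>
    have h1 := List.ofFn_succ' (n := 2 * k + 2) w
    have h2 := List.ofFn_succ' (n := 2 * k + 1) fun i => w (Fin.castSucc i)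
    rw [h1, h2, List.ofFn_succ' (n := k), List.concat_eq_append, List.concat_eq_append,
      List.concat_eq_append, List.prod_append, List.prod_append, List.prod_append, ih]
    simp only [List.prod_cons, List.prod_nil, mul_one, mul_assoc]
    rfl

end Pool.Agent.MP_a0341c_al

end

-- part MP_a0341c_al.Phi
section

/-! The Cartan map, computed with Grassmann variables. -/

namespace Pool.Agent.MP_a0341c_al

open MvPolynomial Finset Module Equiv

set_option linter.unusedSectionVars false

variable {L : Type*} [LieRing L] [LieAlgebra ℂ L] {I : Type*} [Fintype I] [DecidableEq I]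
  (b : Basis I ℂ L)

lemma aeval_lin {B : Type*} [CommRing B] [Algebra ℂ B] {A : Type*} [Fintype A] (z : A → B)
    (y : A → L) (T : L →ₗ[ℂ] L) (Q : MvPolynomial I ℂ) :
    aeval (vec b z y) (lin b T Q) = ∑ c, z c * aeval (vec b z y) (dd b (T (y c)) Q) := by
  rw [der_eq_sum, map_sum]
  simp only [map_mul, aeval_lin_X]
  have : ∀ c, aeval (vec b z y) (dd b (T (y c)) Q) =
      ∑ i, b.repr (T (y c)) i • aeval (vec b z y) (pderiv i Q) := by
    intro c
    rw [der_eq_sum, map_sum]
    simp only [map_mul, dd_X, algHom_C, Algebra.smul_def]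
  simp only [this, Finset.mul_sum]
  rw [Finset.sum_comm]
  refine Finset.sum_congr rfl fun i _ => ?_
  rw [vec, Finset.sum_mul]
  refine Finset.sum_congr rfl fun c _ => ?_
  rw [smul_mul_assoc, mul_smul_comm]

variable {d : ℕ}

/-- the curvature, a point with coordinates in the centre of the Grassmann algebra -/
noncomputable def Om (x : Fin d → L) : I → Zen d := vec b ee fun p => ⁅x p.1, x p.2⁆

lemma aeval_Om (x : Fin d → L) {r : ℕ} {P : MvPolynomial I ℂ} (hP : IsInv b (r + 1) P) :
    aeval (Om b x) P = 0 := by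
  have h1 := aeval_lin b ee (fun p => ⁅x p.1, x p.2⁆) LinearMap.id P
  rw [hP.1, map_nsmul] at h1
  have h2 : ∀ a c, dd b ⁅x a, x c⁆ P = -lin b (LieAlgebra.ad ℂ L (x a)) (dd b (x c) P) := by
    intro a c
    have := dd_lin b (x c) (LieAlgebra.ad ℂ L (x a)) P
    rw [hP.2, map_zero] at this
    exact eq_neg_of_add_eq_zero_right this.symm
  simp only [LinearMap.id_apply, h2, map_neg, aeval_lin, LieAlgebra.ad_apply] at h1
  have h3 : ∀ c : Fin d, ∑ a, ∑ p, ∑ q, ee (a, c) * ee (p, q) *
      aeval (Om b x) (dd b ⁅x a, ⁅x p, x q⁆⁆ (dd b (x c) P)) = 0 := by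
    intro c
    set G : Fin d → Fin d → Fin d → Zen d := fun a p q =>
      aeval (Om b x) (dd b ⁅x a, ⁅x p, x q⁆⁆ (dd b (x c) P)) with hG
    have hJ : ∀ a p q, G a p q + G p q a + G q a p = 0 := by
      intro a p q
      simp only [hG]
      rw [← map_add, ← map_add, ← Derivation.add_apply, ← Derivation.add_apply, ← dd_add, ← dd_add,
        lie_jacobi, dd_zero]
      simp
    have e1 : ∑ a, ∑ p, ∑ q, ee (a, c) * ee (p, q) * G p q a =
        ∑ a, ∑ p, ∑ q, ee (a, c) * ee (p, q) * G a p q := by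
      rw [Finset.sum_comm]
      refine Finset.sum_congr rfl fun p _ => ?_
      rw [Finset.sum_comm]
      refine Finset.sum_congr rfl fun q _ => Finset.sum_congr rfl fun a _ => ?_
      rw [ee_cyc]
    have e2 : ∑ a, ∑ p, ∑ q, ee (a, c) * ee (p, q) * G q a p =
        ∑ a, ∑ p, ∑ q, ee (a, c) * ee (p, q) * G a p q := by
      symm
      rw [Finset.sum_comm]
      refine Finset.sum_congr rfl fun p _ => ?_
      rw [Finset.sum_comm]
      refine Finset.sum_congr rfl fun q _ => Finset.sum_congr rfl fun a _ => ?_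
      rw [ee_cyc]
    have e3 : (3 : ℂ) • ∑ a, ∑ p, ∑ q, ee (a, c) * ee (p, q) * G a p q = 0 := by
      have : (3 : ℂ) = 1 + 1 + 1 := by norm_num
      rw [this, add_smul, add_smul, one_smul]
      nth_rewrite 2 [← e1]
      nth_rewrite 2 [← e2]
      simp only [← Finset.sum_add_distrib, ← mul_add, hJ, mul_zero, Finset.sum_const_zero]
    exact (smul_eq_zero.1 e3).resolve_left (by norm_num)
  have h4 : ((r + 1 : ℕ) : ℂ) • aeval (Om b x) P = 0 := by
    rw [Nat.cast_smul_eq_nsmul]
    refine h1.trans ?_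
    rw [Fintype.sum_prod_type, Finset.sum_comm]
    refine Finset.sum_eq_zero fun c _ => ?_
    have h5 : ∀ s t : Zen d, s * -t = -(s * t) := fun s t => by ring
    simp only [h5, Finset.sum_neg_distrib, neg_eq_zero, Fintype.sum_prod_type, Finset.mul_sum,
      ← mul_assoc]
    exact h3 c
  exact (smul_eq_zero.1 h4).resolve_left (by exact_mod_cast Nat.succ_ne_zero r)

/-- the Cartan map -/
noncomputable def Phi (x : Fin d → L) : MvPolynomial I ℂ →ₗ[ℂ] ℂ :=
  ∑ a, top d ∘ₗ LinearMap.mulLeft ℂ (eps a) ∘ₗ (Zen d).val.toLinearMap ∘ₗ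
    (aeval (Om b x)).toLinearMap ∘ₗ (dd b (x a) : MvPolynomial I ℂ →ₗ[ℂ] MvPolynomial I ℂ)

lemma Phi_apply (x : Fin d → L) (Q : MvPolynomial I ℂ) :
    Phi b x Q = ∑ a, top d (eps a * (aeval (Om b x) (dd b (x a) Q) : Zen d)) := by
  simp [Phi]

lemma Phi_mul (x : Fin d → L) {r r' : ℕ} {P Q : MvPolynomial I ℂ} (hP : IsInv b (r + 1) P)
    (hQ : IsInv b (r' + 1) Q) : Phi b x (P * Q) = 0 := by
  rw [Phi_apply]
  refine Finset.sum_eq_zero fun a _ => ?_
  have : aeval (Om b x) (dd b (x a) (P * Q)) = 0 := by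
    rw [Derivation.leibniz, smul_eq_mul, smul_eq_mul, map_add, map_mul, map_mul, aeval_Om b x hP,
      aeval_Om b x hQ]
    ring
  rw [this]
  simp

/-! ### The polynomial of a multilinear form -/

section Ext
variable {J : Type*} [Fintype J] [DecidableEq J] (F : MultilinearMap ℂ (fun _ : J => L) ℂ)
  {B : Type*} [CommRing B] [Algebra ℂ B]

/-- extension of scalars of a multilinear form -/
noncomputable def ext (ξ : J → I → B) : B := ∑ v : J → I, F (fun j => b (v j)) • ∏ j, ξ j (v j)

lemma map_ext {B' : Type*} [CommRing B'] [Algebra ℂ B'] (φ : B →ₐ[ℂ] B') (ξ : J → I → B) :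
    φ (ext b F ξ) = ext b F fun j i => φ (ξ j i) := by
  simp only [ext, map_sum, map_smul, map_prod]

lemma der_prod (δ : Derivation ℂ B B) (s : Finset J) (g : J → B) :
    δ (∏ j ∈ s, g j) = ∑ j ∈ s, ∏ j' ∈ s, Function.update g j (δ (g j)) j' := by
  induction s using Finset.induction_on with
  | empty => simp
  | insert a s ha ih =>
    rw [Finset.prod_insert ha, Finset.sum_insert ha, Derivation.leibniz, ih, smul_eq_mul,
      smul_eq_mul, add_comm, Finset.prod_insert ha, Function.update_self, Finset.mul_sum, mul_comm]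
    congr 1
    · congr 1
      refine Finset.prod_congr rfl fun j hj => ?_
      rw [Function.update_of_ne (fun h : j = a => ha (h ▸ hj))]
    · refine Finset.sum_congr rfl fun j hj => ?_
      rw [Finset.prod_insert ha, Function.update_of_ne (fun h : a = j => ha (h ▸ hj))]

lemma der_ext (δ : Derivation ℂ B B) (ξ : J → I → B) :
    δ (ext b F ξ) = ∑ j, ext b F (Function.update ξ j fun i => δ (ξ j i)) := by
  simp only [ext, map_sum, Derivation.map_smul, der_prod, Finset.smul_sum]
  rw [Finset.sum_comm]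
  refine Finset.sum_congr rfl fun j _ => Finset.sum_congr rfl fun v _ => ?_
  congr 1
  refine Finset.prod_congr rfl fun j' _ => ?_
  by_cases h : j' = j
  · subst h; simp
  · simp [Function.update_of_ne h]

lemma ext_perm (hF : ∀ (σ : Perm J) (x : J → L), F (x ∘ σ) = F x) (σ : Perm J) (ξ : J → I → B) :
    ext b F (ξ ∘ σ) = ext b F ξ := by
  unfold ext
  symm
  refine Fintype.sum_equiv (Equiv.arrowCongr σ.symm (Equiv.refl I)) _ _ fun v => ?_
  congr 1
  · exact (hF σ _).symm
  · exact (Equiv.prod_comp σ fun j => ξ j (v j)).symm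

lemma ext_vec {A : Type*} [Fintype A] (z : J → A → B) (y : J → A → L) :
    ext b F (fun j => vec b (z j) (y j)) =
      ∑ c : J → A, F (fun j => y j (c j)) • ∏ j, z j (c j) := by
  unfold ext vec
  simp only [Finset.prod_univ_sum, Fintype.piFinset_univ, Finset.smul_sum]
  rw [Finset.sum_comm]
  refine Finset.sum_congr rfl fun c _ => ?_
  have h1 : F (fun j => y j (c j)) =
      ∑ v : J → I, (∏ j, b.repr (y j (c j)) (v j)) • F fun j => b (v j) := by
    conv_lhs => rw [show (fun j => y j (c j)) = fun j => ∑ i, b.repr (y j (c j)) i • b i from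
      funext fun j => (b.sum_repr _).symm]
    rw [F.map_sum]
    simp only [F.map_smul_univ]
  rw [h1, Finset.sum_smul]
  refine Finset.sum_congr rfl fun v _ => ?_
  rw [Finset.prod_smul, smul_smul, smul_eq_mul, mul_comm]

lemma vec_X : vec b (X : I → MvPolynomial I ℂ) b = X := by
  funext i
  rw [← lin_id_X b i, lin_X]
  rfl

/-- the polynomial attached to a multilinear form -/
noncomputable def PF : MvPolynomial I ℂ := ext b F fun _ => X

lemma PF_inv (hF : ∀ (y : L) (x : J → L), ∑ i, F (Function.update x i ⁅y, x i⁆) = 0) :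
    IsInv b (Fintype.card J) (PF b F) := by
  refine ⟨?_, fun z => ?_⟩
  · unfold PF
    rw [der_ext]
    simp only [lin_id_X]
    have : ∀ j : J, Function.update (fun _ : J => (X : I → MvPolynomial I ℂ)) j (fun i => X i) =
        fun _ => X := fun j => Function.update_eq_self _ _
    simp only [this, Finset.sum_const, Finset.card_univ]
  · unfold PF
    rw [der_ext]
    have : ∀ j : J, Function.update (fun _ : J => (X : I → MvPolynomial I ℂ)) j
        (fun i => lin b (LieAlgebra.ad ℂ L z) (X i)) = fun j' => vec b X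
          (Function.update (fun _ : J => (b : I → L)) j (fun i => ⁅z, b i⁆) j') := by
      intro j
      funext j'
      by_cases h : j' = j
      · subst h
        simp only [Function.update_self, lin_X]
        rfl
      · simp only [Function.update_of_ne h, vec_X]
    simp only [this, ext_vec]
    rw [Finset.sum_comm]
    refine Finset.sum_eq_zero fun c _ => ?_
    rw [← Finset.sum_smul]
    have h2 := hF z fun j => b (c j)
    have h3 : ∀ j : J, (fun j' => Function.update (fun _ : J => (b : I → L)) j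
        (fun i => ⁅z, b i⁆) j' (c j')) = Function.update (fun j => b (c j)) j ⁅z, b (c j)⁆ := by
      intro j
      funext j'
      by_cases h : j' = j
      · subst h; simp
      · simp [Function.update_of_ne h]
    simp only [h3, h2, zero_smul]

end Ext

/-- the Cartan form, with arguments indexed by `Fin (2 * k + 1)` -/
noncomputable def cartan {k : ℕ} (F : MultilinearMap ℂ (fun _ : Option (Fin k) => L) ℂ)
    (x : Fin (2 * k + 1) → L) : ℂ :=
  ∑ σ : Perm (Fin (2 * k + 1)), ((Perm.sign σ : ℤ) : ℂ) *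
    F (fun j => Option.elim j (x (σ (en k none)))
      (fun i => ⁅x (σ (en k (some (i, false)))), x (σ (en k (some (i, true))))⁆))

lemma Phi_PF {k : ℕ} (F : MultilinearMap ℂ (fun _ : Option (Fin k) => L) ℂ)
    (hF : ∀ (σ : Perm (Option (Fin k))) (x : Option (Fin k) → L), F (x ∘ σ) = F x)
    (x : Fin (2 * k + 1) → L) : Phi b x (PF b F) = (k + 1 : ℂ) * cartan F x := by
  have h1 : ∀ a, aeval (Om b x) (dd b (x a) (PF b F)) = (k + 1) •
      ∑ c : Fin k → Fin (2 * k + 1) × Fin (2 * k + 1),
        F (fun j => Option.elim j (x a) fun i => ⁅x (c i).1, x (c i).2⁆) • ∏ j, ee (c j) := by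
    intro a
    unfold PF
    rw [der_ext, map_sum]
    let z : Option (Fin k) → Fin (2 * k + 1) × Fin (2 * k + 1) → Zen (2 * k + 1) :=
      fun j => Option.elim j (fun c => if c = (a, a) then 1 else 0) fun _ => ee
    let y : Option (Fin k) → Fin (2 * k + 1) × Fin (2 * k + 1) → L :=
      fun j => Option.elim j (fun _ => x a) fun _ c => ⁅x c.1, x c.2⁆
    have h2 : ∀ j : Option (Fin k), aeval (Om b x) (ext b F (Function.update
        (fun _ : Option (Fin k) => (X : I → MvPolynomial I ℂ)) j fun i => dd b (x a) (X i))) =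
        ext b F fun j => vec b (z j) (y j) := by
      intro j
      rw [map_ext, ← ext_perm b F hF (Equiv.swap none j)]
      congr 1
      funext j' i
      rcases j' with _ | j'
      · simp [z, y, vec, dd_X, Algebra.algebraMap_eq_smul_one]
      · have : Equiv.swap none j (some j') ≠ j := by
          intro h
          have := (Equiv.swap none j).injective (h.trans (Equiv.swap_apply_left none j).symm)
          simp at this
        simp only [Function.comp_apply, Function.update_of_ne this, aeval_X]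
        rfl
    simp only [h2]
    rw [Finset.sum_const, Finset.card_univ, Fintype.card_option, Fintype.card_fin, ext_vec]
    congr 1
    rw [← (Equiv.piOptionEquivProd (β := fun _ : Option (Fin k) =>
      Fin (2 * k + 1) × Fin (2 * k + 1))).symm.sum_comp, Fintype.sum_prod_type, Finset.sum_comm]
    refine Finset.sum_congr rfl fun c _ => ?_
    rw [Finset.sum_eq_single (a, a)]
    · congr 1
      · congr 1
        funext j
        cases j <;> rfl
      · rw [Fintype.prod_option]
        simp [z, Equiv.piOptionEquivProd]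
    · intro p _ hp
      rw [Fintype.prod_option]
      simp [z, Equiv.piOptionEquivProd, hp]
    · simp
  rw [Phi_apply]
  simp only [h1]
  unfold cartan
  rw [← sum_top fun v => F (fun j => Option.elim j (x (v (en k none)))
      (fun i => ⁅x (v (en k (some (i, false)))), x (v (en k (some (i, true))))⁆))]
  simp only [← Nat.cast_smul_eq_nsmul ℂ, Subalgebra.coe_smul, mul_smul_comm, map_smul,
    AddSubmonoidClass.coe_finsetSum, Finset.mul_sum, map_sum, smul_eq_mul]
  rw [← Fintype.sum_prod_type']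
  symm
  let g : (Fin (2 * k + 1) → Fin (2 * k + 1)) →
      Fin (2 * k + 1) × (Fin k → Fin (2 * k + 1) × Fin (2 * k + 1)) :=
    fun v => (v (en k none), fun j => (v (en k (some (j, false))), v (en k (some (j, true)))))
  have hg : Function.Bijective g := by
    constructor
    · intro v w h
      funext i
      obtain ⟨o, rfl⟩ := (en k).surjective i
      rcases o with _ | ⟨j, _ | _⟩
      · exact congrArg Prod.fst h
      · exact congrArg (fun p => (p.2 j).1) h
      · exact congrArg (fun p => (p.2 j).2) h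
    · rintro ⟨a, c⟩
      refine ⟨fun i => Option.elim ((en k).symm i) a fun p => if p.2 then (c p.1).2 else (c p.1).1,
        ?_⟩
      simp [g]
  refine Fintype.sum_bijective g hg _ _ fun v => ?_
  rw [prod_en, mul_comm (top _ _)]
  push_cast
  congr 4
  rw [← List.prod_ofFn]
  have := map_list_prod (Zen (2 * k + 1)).val (List.ofFn fun j => ee ((g v).2 j))
  rw [List.map_ofFn] at this
  exact this.symm

end Pool.Agent.MP_a0341c_al

end

-- part MP_a0341c_al.TrPow
section

/-! The invariant polynomials given by traces of powers. -/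

namespace Pool.Agent.MP_a0341c_al

open MvPolynomial Finset Module Equiv

set_option linter.unusedSectionVars false

variable {L : Type*} [LieRing L] [LieAlgebra ℂ L] {I : Type*} [Fintype I] [DecidableEq I]
  (b : Basis I ℂ L) {n : Type*} [Fintype n] [DecidableEq n] (ρ : L →ₗ[ℂ] Matrix n n ℂ)

section
variable {B : Type*} [CommRing B] [Algebra ℂ B]

lemma der_mat_mul (δ : Derivation ℂ B B) (A A' : Matrix n n B) :
    (A * A').map δ = A.map δ * A' + A * A'.map δ := by
  funext r s
  simp only [Matrix.map_apply, Matrix.mul_apply, Matrix.add_apply, map_sum, Derivation.leibniz,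
    smul_eq_mul, ← Finset.sum_add_distrib]
  refine Finset.sum_congr rfl fun t _ => ?_
  ring

lemma der_trace_pow (δ : Derivation ℂ B B) (A : Matrix n n B) (m : ℕ) :
    δ (A ^ (m + 1)).trace = (m + 1) • (A.map δ * A ^ m).trace := by
  have h1 : ∀ m j : ℕ, ((A ^ (m + 1)).map δ * A ^ j).trace =
      (m + 1) • (A.map δ * A ^ (m + j)).trace := by
    intro m
    induction m with
    | zero => intro j; simp
    | succ m ih =>
      intro j
      rw [pow_succ A (m + 1), der_mat_mul, add_mul, Matrix.trace_add, mul_assoc, ← pow_succ', ih,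
        mul_assoc, Matrix.trace_mul_comm (A ^ (m + 1)), mul_assoc, ← pow_add, succ_nsmul _ (m + 1)]
      rw [show m + (j + 1) = m + 1 + j by omega, show j + (m + 1) = m + 1 + j by omega]
  have := h1 m 0
  rw [pow_zero, mul_one, add_zero] at this
  rw [← this]
  simp only [Matrix.trace, Matrix.diag, map_sum, Matrix.map_apply]

/-- the representation applied to a point with coordinates in an algebra -/
noncomputable def rv (ξ : I → B) : Matrix n n B := fun r s => ∑ i, ρ (b i) r s • ξ i

lemma rho_entry (y : L) (r s : n) : ∑ i, ρ (b i) r s * b.repr y i = ρ y r s := by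
  conv_rhs => rw [← b.sum_repr y]
  simp only [map_sum, map_smul, Matrix.sum_apply, Matrix.smul_apply, smul_eq_mul, mul_comm]

lemma rv_vec {A : Type*} [Fintype A] (z : A → B) (y : A → L) :
    rv b ρ (vec b z y) = fun r s => ∑ c, ρ (y c) r s • z c := by
  funext r s
  simp only [rv, vec, Finset.smul_sum, smul_smul]
  rw [Finset.sum_comm]
  simp only [← Finset.sum_smul, rho_entry]

lemma rv_map {B' : Type*} [CommRing B'] [Algebra ℂ B'] (φ : B →ₐ[ℂ] B') (ξ : I → B) :
    φ.mapMatrix (rv b ρ ξ) = rv b ρ fun i => φ (ξ i) := by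
  funext r s
  simp [rv]

lemma rv_der (δ : Derivation ℂ B B) (ξ : I → B) :
    (rv b ρ ξ).map δ = rv b ρ fun i => δ (ξ i) := by
  funext r s
  simp [rv]

end

lemma rv_dd (y : L) : (rv b ρ (X : I → MvPolynomial I ℂ)).map (dd b y) =
    (ρ y).map (algebraMap ℂ (MvPolynomial I ℂ)) := by
  rw [rv_der]
  funext r s
  simp only [rv, dd_X, Matrix.map_apply, ← rho_entry b ρ y, map_sum, map_mul, smul_eq_C_mul,
    algebraMap_eq]

/-- the trace of a power -/
noncomputable def TP (m : ℕ) : MvPolynomial I ℂ := (rv b ρ X ^ (m + 1)).trace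

lemma TP_inv (hρ : ∀ x y : L, ρ ⁅x, y⁆ = ρ x * ρ y - ρ y * ρ x) (m : ℕ) : IsInv b (m + 1) (TP b ρ m) := by
  refine ⟨?_, fun z => ?_⟩
  · unfold TP
    rw [der_trace_pow, rv_der]
    simp only [lin_id_X]
    rw [← pow_succ']
  · unfold TP
    rw [der_trace_pow, rv_der]
    have h1 : (fun i => lin b (LieAlgebra.ad ℂ L z) (X i)) = vec b X fun c => ⁅z, b c⁆ := by
      funext i
      rw [lin_X]
      rfl
    have h2 : rv b ρ (vec b (X : I → MvPolynomial I ℂ) fun c => ⁅z, b c⁆) =
        (ρ z).map C * rv b ρ X - rv b ρ X * (ρ z).map C := by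
      rw [rv_vec]
      funext r s
      simp only [hρ, Matrix.sub_apply, Matrix.mul_apply, rv,
        Matrix.map_apply, sub_smul, Finset.sum_sub_distrib, Finset.sum_smul, Finset.mul_sum,
        Finset.sum_mul, smul_eq_C_mul, map_mul, map_sum, map_sub, sub_mul]
      congr 1
      · rw [Finset.sum_comm]
        refine Finset.sum_congr rfl fun _ _ => Finset.sum_congr rfl fun _ _ => ?_
        ring
      · rw [Finset.sum_comm]
        refine Finset.sum_congr rfl fun _ _ => Finset.sum_congr rfl fun _ _ => ?_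
        ring
    rw [h1, h2, sub_mul, Matrix.trace_sub, mul_assoc, mul_assoc, Matrix.trace_mul_comm (rv b ρ X),
      mul_assoc, ← pow_succ, ← pow_succ', sub_self, smul_zero]

lemma alg_dd_TP {B : Type*} [CommRing B] [Algebra ℂ B] (ξ : I → B) (y : L) (m : ℕ) :
    aeval ξ (dd b y (TP b ρ m)) =
      (m + 1) • ((ρ y).map (algebraMap ℂ B) * rv b ρ ξ ^ m).trace := by
  unfold TP
  rw [der_trace_pow, map_nsmul, rv_dd]
  congr 1
  have h1 := AddMonoidHom.map_trace (aeval ξ : MvPolynomial I ℂ →ₐ[ℂ] B)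
    ((ρ y).map (algebraMap ℂ (MvPolynomial I ℂ)) * rv b ρ X ^ m)
  rw [h1]
  congr 1
  show (aeval ξ : MvPolynomial I ℂ →ₐ[ℂ] B).mapMatrix _ = _
  rw [map_mul, map_pow, rv_map]
  congr 1
  · funext r s
    simp
  · simp only [aeval_X]

lemma ev_dd_TP (f y : L) (m : ℕ) :
    ev b f (dd b y (TP b ρ m)) = (m + 1 : ℂ) * (ρ y * ρ f ^ m).trace := by
  unfold ev
  rw [alg_dd_TP, nsmul_eq_mul]
  have : rv b ρ (fun i => b.repr f i) = ρ f := by
    funext r s
    simp only [rv, smul_eq_mul, rho_entry]
  rw [this]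
  simp

lemma Phi_TP (hρ : ∀ x y : L, ρ ⁅x, y⁆ = ρ x * ρ y - ρ y * ρ x) (k : ℕ)
    (x : Fin (2 * k + 1) → L) :
    Phi b x (TP b ρ k) = (k + 1 : ℂ) * 2 ^ k * (std (2 * k + 1) fun i => ρ (x i)).trace := by
  rw [Phi_apply]
  simp only [alg_dd_TP]
  let j : Matrix n n ℂ →+* Matrix n n (Lam (2 * k + 1)) := (algebraMap ℂ _).mapMatrix
  let s : Lam (2 * k + 1) →+* Matrix n n (Lam (2 * k + 1)) := Matrix.scalar n
  have hc : ∀ A e, Commute (j A) (s e) := fun A e => by
    funext r t
    simp [j, s, Algebra.commutes]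
  have htr : ∀ A e, (s e * j A).trace = A.trace • e := fun A e => by
    simp only [j, s, Matrix.trace, Matrix.diag, Matrix.scalar_apply, Matrix.diagonal_mul,
      RingHom.mapMatrix_apply, Matrix.map_apply, Finset.sum_smul]
    refine Finset.sum_congr rfl fun r _ => ?_
    rw [← Algebra.commutes, Algebra.smul_def]
  set Θ : Matrix n n (Lam (2 * k + 1)) := ∑ a, s (eps a) * j (ρ (x a)) with hΘ
  let val : Matrix n n (Zen (2 * k + 1)) →+* Matrix n n (Lam (2 * k + 1)) :=
    ((Zen (2 * k + 1)).val : Zen (2 * k + 1) →+* Lam (2 * k + 1)).mapMatrix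
  have h0 : Θ * Θ = ∑ a, ∑ c, s (eps a * eps c) * j (ρ (x a) * ρ (x c)) := by
    rw [hΘ, Finset.sum_mul_sum]
    refine Finset.sum_congr rfl fun a _ => Finset.sum_congr rfl fun c _ => ?_
    rw [map_mul, map_mul, mul_assoc, mul_assoc, ← mul_assoc (j _), (hc _ _).eq, mul_assoc]
  have h1 : val (rv b ρ (Om b x)) = 2 * (Θ * Θ) := by
    have h2 : val (rv b ρ (Om b x)) = ∑ a, ∑ c, s (eps a * eps c) * j (ρ ⁅x a, x c⁆) := by
      unfold Om
      rw [rv_vec]
      funext r t
      simp only [val, s, j, RingHom.mapMatrix_apply, Matrix.map_apply, Matrix.sum_apply,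
        Matrix.scalar_apply, Matrix.diagonal_mul, Fintype.sum_prod_type, map_sum]
      refine Finset.sum_congr rfl fun a _ => Finset.sum_congr rfl fun c _ => ?_
      rw [← Algebra.commutes, ← Algebra.smul_def]
      rfl
    rw [h2, two_mul (Θ * Θ), h0]
    simp only [hρ, map_sub, mul_sub, Finset.sum_sub_distrib]
    rw [sub_eq_add_neg]
    congr 1
    rw [Finset.sum_comm, ← Finset.sum_neg_distrib]
    refine Finset.sum_congr rfl fun a _ => ?_
    rw [← Finset.sum_neg_distrib]
    refine Finset.sum_congr rfl fun c _ => ?_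
    rw [eps_swap c a, map_neg, neg_mul, neg_neg]
  have h3 : ∀ a, eps a * (((k + 1) • ((ρ (x a)).map (algebraMap ℂ (Zen (2 * k + 1))) *
      rv b ρ (Om b x) ^ k).trace : Zen (2 * k + 1)) : Lam (2 * k + 1)) =
      (k + 1) • (s (eps a) * j (ρ (x a)) * (2 * (Θ * Θ)) ^ k).trace := by
    intro a
    have h4 := AddMonoidHom.map_trace ((Zen (2 * k + 1)).val : Zen (2 * k + 1) →+* Lam (2 * k + 1))
      ((ρ (x a)).map (algebraMap ℂ (Zen (2 * k + 1))) * rv b ρ (Om b x) ^ k)
    have h5 : val ((ρ (x a)).map (algebraMap ℂ (Zen (2 * k + 1))) * rv b ρ (Om b x) ^ k) =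
        j (ρ (x a)) * (2 * (Θ * Θ)) ^ k := by
      rw [map_mul, map_pow, h1]
      rfl
    have h6 : ∀ (e : Lam (2 * k + 1)) (A : Matrix n n (Lam (2 * k + 1))),
        (s e * A).trace = e * A.trace := fun e A => by
      simp only [s, Matrix.trace, Matrix.diag, Matrix.scalar_apply, Matrix.diagonal_mul,
        Finset.mul_sum]
    rw [mul_assoc, h6, ← h5, ← mul_smul_comm]
    congr 1
    exact (map_nsmul ((Zen (2 * k + 1)).val : Zen (2 * k + 1) →+* Lam (2 * k + 1)) _ _).trans
      (congrArg _ h4)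
  simp only [h3]
  rw [← map_sum, ← Finset.smul_sum, ← Matrix.trace_sum, ← Finset.sum_mul, ← hΘ]
  have h7 : Θ * (2 * (Θ * Θ)) ^ k = (2 ^ k : ℕ) • Θ ^ (2 * k + 1) := by
    have : 2 * (Θ * Θ) = (2 : ℕ) • (Θ * Θ) := by rw [two_mul (Θ * Θ), two_nsmul]
    rw [this, smul_pow, mul_smul_comm, ← pow_two, ← pow_mul, ← pow_succ']
  rw [h7, Matrix.trace_smul, map_nsmul, map_nsmul, nsmul_eq_mul, nsmul_eq_mul, ← mul_assoc]
  push_cast
  congr 1
  rw [hΘ, sum_mul_pow _ _ fun a c => hc _ _, Matrix.trace_sum, map_sum, std_apply, Matrix.trace_sum]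
  have h8 : ∀ v : Fin (2 * k + 1) → Fin (2 * k + 1),
      top (2 * k + 1) ((List.ofFn fun i => s (eps (v i))).prod *
        (List.ofFn fun i => j (ρ (x (v i)))).prod).trace =
      top (2 * k + 1) (List.ofFn fun i => eps (v i)).prod *
        (List.ofFn fun i => ρ (x (v i))).prod.trace := by
    intro v
    have e1 := map_list_prod s (List.ofFn fun i => eps (v i))
    have e2 := map_list_prod j (List.ofFn fun i => ρ (x (v i)))
    rw [List.map_ofFn] at e1 e2
    have e3 := htr (List.ofFn fun i => ρ (x (v i))).prod (List.ofFn fun i => eps (v i)).prod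
    rw [e1, e2] at e3
    refine (congrArg _ e3).trans ?_
    rw [map_smul, smul_eq_mul, mul_comm]
  simp only [h8]
  rw [sum_top fun v => (List.ofFn fun i => ρ (x (v i))).prod.trace]
  refine Finset.sum_congr rfl fun σ _ => ?_
  rw [Matrix.trace_smul, Units.smul_def, zsmul_eq_mul]

end Pool.Agent.MP_a0341c_al

end

-- part MP_a0341c_al.Pf
section

/-! The polarised Pfaffian. -/

namespace Pool.Agent.MP_a0341c_al

open Finset Module Matrix Equiv ExteriorAlgebra

set_option linter.unusedSectionVars false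

variable {d : ℕ}

/-- the two-form of a matrix -/
noncomputable def om (d : ℕ) : Matrix (Fin d) (Fin d) ℂ →ₗ[ℂ] Zen d where
  toFun A := ∑ p : Fin d × Fin d, A p.1 p.2 • ee p
  map_add' A B := by simp [add_smul, Finset.sum_add_distrib]
  map_smul' c A := by simp [Finset.smul_sum, smul_smul]

lemma iota_eq (a : Fin d → ℂ) : ι ℂ a = ∑ p, a p • eps p := by
  conv_lhs => rw [pi_eq_sum_univ' a]
  simp [eps]

lemma om_vec (a c : Fin d → ℂ) : (om d (vecMulVec a c) : Lam d) = ι ℂ a * ι ℂ c := by
  rw [iota_eq, iota_eq, Finset.sum_mul_sum]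
  show ((∑ p : Fin d × Fin d, vecMulVec a c p.1 p.2 • ee p : Zen d) : Lam d) = _
  rw [AddSubmonoidClass.coe_finsetSum, Fintype.sum_prod_type]
  refine Finset.sum_congr rfl fun p _ => Finset.sum_congr rfl fun q _ => ?_
  rw [smul_mul_smul_comm]
  rfl

/-- elementary skew matrices -/
def RR {ν : Type*} (a c : ν → ℂ) : Matrix ν ν ℂ := vecMulVec a c - vecMulVec c a

lemma om_RR (a c : Fin d → ℂ) : (om d (RR a c) : Lam d) = (2 : ℂ) • (ι ℂ a * ι ℂ c) := by
  rw [RR, map_sub, AddSubgroupClass.coe_sub, om_vec, om_vec, iota_swap c a, two_smul, sub_neg_eq_add]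

/-- first order deformation of the identity of the Grassmann algebra -/
noncomputable def defo (Y : Matrix (Fin d) (Fin d) ℂ) : Lam d →ₐ[ℂ] TrivSqZeroExt (Lam d) (Lam d) :=
  ExteriorAlgebra.lift ℂ ⟨
    { toFun := fun v => (ι ℂ v, ι ℂ (Y *ᵥ v))
      map_add' := fun v w => by
        apply TrivSqZeroExt.ext <;> simp [mulVec_add]
      map_smul' := fun c v => by
        apply TrivSqZeroExt.ext <;> simp [mulVec_smul] }, fun v => by
    apply TrivSqZeroExt.ext
    · exact ι_sq_zero v
    · exact ι_add_mul_swap v (Y *ᵥ v)⟩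

lemma defo_iota (Y : Matrix (Fin d) (Fin d) ℂ) (v : Fin d → ℂ) :
    defo Y (ι ℂ v) = (ι ℂ v, ι ℂ (Y *ᵥ v)) := lift_ι_apply _ _ _ _

lemma defo_fst (Y : Matrix (Fin d) (Fin d) ℂ) (z : Lam d) : (defo Y z).fst = z := by
  have : (TrivSqZeroExt.fstHom ℂ (Lam d) (Lam d)).comp (defo Y) = AlgHom.id ℂ _ := by
    apply hom_ext
    refine LinearMap.ext fun v => ?_
    show (defo Y (ι ℂ v)).fst = ι ℂ v
    rw [defo_iota]
    rfl
  exact congrArg (fun φ => φ z) this

/-- the derivation induced by a matrix -/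
noncomputable def DY (Y : Matrix (Fin d) (Fin d) ℂ) : Lam d →ₗ[ℂ] Lam d where
  toFun z := (defo Y z).snd
  map_add' x y := by simp
  map_smul' c x := by simp

lemma DY_mul (Y : Matrix (Fin d) (Fin d) ℂ) (x y : Lam d) :
    DY Y (x * y) = x * DY Y y + DY Y x * y := by
  show (defo Y (x * y)).snd = _
  rw [map_mul, TrivSqZeroExt.snd_mul, defo_fst, defo_fst]
  rfl

lemma DY_iota (Y : Matrix (Fin d) (Fin d) ℂ) (v : Fin d → ℂ) : DY Y (ι ℂ v) = ι ℂ (Y *ᵥ v) := by
  show (defo Y (ι ℂ v)).snd = _
  rw [defo_iota]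
  rfl

lemma DY_one (Y : Matrix (Fin d) (Fin d) ℂ) : DY Y 1 = 0 := by
  show (defo Y 1).snd = _
  rw [map_one, TrivSqZeroExt.snd_one]

lemma DY_multi (Y : Matrix (Fin d) (Fin d) ℂ) : ∀ (n : ℕ) (v : Fin n → Fin d → ℂ),
    DY Y (ιMulti ℂ n v) = ∑ i, ιMulti ℂ n (Function.update v i (Y *ᵥ v i))
  | 0, v => by simp [DY_one]
  | n + 1, v => by
    rw [ιMulti_succ_apply, DY_mul, DY_iota, DY_multi Y n, Fin.sum_univ_succ, add_comm,
      ιMulti_succ_apply, Function.update_self, Finset.mul_sum]
    congr 1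
    refine Finset.sum_congr rfl fun i _ => ?_
    rw [ιMulti_succ_apply, Function.update_of_ne (Fin.succ_ne_zero i).symm]
    congr 2
    funext j
    by_cases h : j = i
    · subst h; simp [vecTail]
    · simp [vecTail, Function.update_of_ne h,
        Function.update_of_ne (fun h' => h (Fin.succ_injective _ h'))]

lemma top_multi (v : Fin d → Fin d → ℂ) : top d (ιMulti ℂ d v) = (Matrix.of v).det := by
  unfold top
  rw [liftAlternating_apply_ιMulti, Function.update_self]
  rfl

lemma top_DY (Y : Matrix (Fin d) (Fin d) ℂ) (hY : Y.trace = 0) (z : Lam d) :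
    top d (DY Y z) = 0 := by
  have : top d ∘ₗ DY Y = 0 := by
    refine lhom_ext fun n => ?_
    ext v
    show top d (DY Y (ιMulti ℂ n v)) = 0
    rw [DY_multi, map_sum]
    by_cases hn : n = d
    · subst hn
      simp only [top_multi]
      have h1 : ∀ i, (Matrix.of (Function.update v i (Y *ᵥ v i))).det =
          ((Matrix.of v * Yᵀ) * (Matrix.of v).adjugate) i i := by
        intro i
        have h2 := cramer_transpose_apply (Matrix.of v) (Y *ᵥ v i) i
        rw [cramer_eq_adjugate_mulVec, ← adjugate_transpose] at h2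
        refine Eq.trans h2.symm ?_
        simp only [mulVec, dotProduct, Matrix.mul_apply, transpose_apply, of_apply, mul_comm]
      simp only [h1]
      show ((Matrix.of v * Yᵀ) * (Matrix.of v).adjugate).trace = 0
      rw [trace_mul_comm, ← mul_assoc, adjugate_mul, smul_mul_assoc, one_mul, trace_smul,
        trace_transpose, hY, smul_zero]
    · refine Finset.sum_eq_zero fun i _ => ?_
      unfold top
      rw [liftAlternating_apply_ιMulti, Function.update_of_ne hn]
      rfl
  exact congrArg (fun φ => φ z) this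

/-- the derivation on the centre -/
noncomputable def DZ (Y : Matrix (Fin d) (Fin d) ℂ) : Derivation ℂ (Zen d) (Zen d) :=
  Derivation.mk' (LinearMap.codRestrict (Zen d).toSubmodule (DY Y ∘ₗ (Zen d).val.toLinearMap)
    fun z => by
      show DY Y z ∈ Zen d
      rw [Subalgebra.mem_center_iff]
      intro x
      have h1 := Subalgebra.mem_center_iff.1 z.2
      have h2 := congrArg (DY Y) (h1 x)
      rw [DY_mul, DY_mul, h1, add_comm] at h2
      exact add_left_cancel h2)
    fun x y => Subtype.ext (by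
      show DY Y (x * y) = x * DY Y y + y * DY Y x
      rw [DY_mul, Subalgebra.mem_center_iff.1 y.2])

lemma DZ_val (Y : Matrix (Fin d) (Fin d) ℂ) (z : Zen d) : (DZ Y z : Lam d) = DY Y z := rfl

lemma DZ_om (Y A : Matrix (Fin d) (Fin d) ℂ) : DZ Y (om d A) = om d (Y * A + A * Yᵀ) := by
  have h1 : ∀ a c : Fin d → ℂ, DZ Y (om d (vecMulVec a c)) =
      om d (Y * vecMulVec a c + vecMulVec a c * Yᵀ) := by
    intro a c
    apply Subtype.ext
    rw [DZ_val, om_vec, DY_mul, DY_iota, DY_iota, mul_vecMulVec, vecMulVec_mul, vecMul_transpose,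
      map_add, AddMemClass.coe_add, om_vec, om_vec, add_comm]
  have h2 : A = ∑ p, ∑ q, A p q • vecMulVec (Pi.single p 1) (Pi.single q 1) := by
    conv_lhs => rw [matrix_eq_sum_single A]
    simp only [← single_eq_single_vecMulVec_single, smul_single, smul_eq_mul, mul_one]
  rw [h2]
  simp only [map_sum, map_smul, Derivation.map_smul, h1, Finset.mul_sum, Finset.sum_mul,
    mul_smul_comm, smul_mul_assoc, map_add, smul_add, Finset.sum_add_distrib]

variable {L : Type*} [LieRing L] [LieAlgebra ℂ L] (ρ : L →ₗ[ℂ] Matrix (Fin d) (Fin d) ℂ)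

/-- the polarised Pfaffian -/
noncomputable def pfF (J : Type*) [Fintype J] [DecidableEq J] :
    MultilinearMap ℂ (fun _ : J => L) ℂ :=
  (top d ∘ₗ (Zen d).val.toLinearMap).compMultilinearMap
    ((MultilinearMap.mkPiAlgebra ℂ J (Zen d)).compLinearMap fun _ => om d ∘ₗ ρ)

lemma pfF_apply {J : Type*} [Fintype J] [DecidableEq J] (x : J → L) :
    pfF ρ J x = top d ((∏ j, om d (ρ (x j)) : Zen d) : Lam d) := rfl

lemma pfF_symm {J : Type*} [Fintype J] [DecidableEq J] (σ : Perm J) (x : J → L) :
    pfF ρ J (x ∘ σ) = pfF ρ J x := by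
  rw [pfF_apply, pfF_apply, ← Equiv.prod_comp σ fun j => om d (ρ (x j))]
  rfl

lemma pfF_inv {J : Type*} [Fintype J] [DecidableEq J]
    (hρ : ∀ x y : L, ρ ⁅x, y⁆ = ρ x * ρ y - ρ y * ρ x) (hs : ∀ x, (ρ x)ᵀ = -ρ x) (y : L)
    (x : J → L) : ∑ i, pfF ρ J (Function.update x i ⁅y, x i⁆) = 0 := by
  have h1 : (ρ y).trace = 0 := by
    have := congrArg trace (hs y)
    rw [trace_transpose, trace_neg] at this
    exact self_eq_neg.1 this
  have h2 := top_DY (ρ y) h1 ((∏ j, om d (ρ (x j)) : Zen d) : Lam d)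
  rw [← DZ_val, der_prod, AddSubmonoidClass.coe_finsetSum, map_sum] at h2
  rw [← h2]
  refine Finset.sum_congr rfl fun i _ => ?_
  rw [pfF_apply]
  congr 2
  refine Finset.prod_congr rfl fun j _ => ?_
  by_cases h : j = i
  · subst h
    rw [Function.update_self, Function.update_self, DZ_om, hs, hρ, mul_neg, sub_eq_add_neg]
  · rw [Function.update_of_ne h, Function.update_of_ne h]

lemma RR_comm {ν : Type*} [Fintype ν] (a c u : ν → ℂ) (ha : a ⬝ᵥ u = 0) (hc : c ⬝ᵥ u = 0) :
    RR a u * RR c u - RR c u * RR a u = (-(u ⬝ᵥ u)) • RR a c := by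
  simp only [RR, sub_mul, mul_sub, vecMulVec_mul_vecMulVec, ha, hc, dotProduct_comm u a,
    dotProduct_comm u c, dotProduct_comm c a, vecMulVec_smul, zero_smul, vecMulVec_zero]
  module

lemma cartan_pf {s : ℕ} (ρ : L →ₗ[ℂ] Matrix (Fin (2 * s + 1 + 1)) (Fin (2 * s + 1 + 1)) ℂ)
    (hρ : ∀ x y : L, ρ ⁅x, y⁆ = ρ x * ρ y - ρ y * ρ x) (x : Fin (2 * s + 1) → L)
    (w : Fin (2 * s + 1) → Fin (2 * s + 1 + 1) → ℂ) (u : Fin (2 * s + 1 + 1) → ℂ)
    (hx : ∀ j, ρ (x j) = RR (w j) u) (hw : ∀ j, w j ⬝ᵥ u = 0) (hu : u ⬝ᵥ u ≠ 0)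
    (hi : LinearIndependent ℂ (Fin.cons u w : Fin (2 * s + 1 + 1) → _)) :
    cartan (pfF ρ (Option (Fin s))) x ≠ 0 := by
  have h1 : ∀ σ : Perm (Fin (2 * s + 1)), ((Perm.sign σ : ℤ) : ℂ) *
      pfF ρ (Option (Fin s)) (fun j => Option.elim j (x (σ (en s none)))
        (fun i => ⁅x (σ (en s (some (i, false)))), x (σ (en s (some (i, true))))⁆)) =
      -2 * (-(u ⬝ᵥ u) * 2) ^ s * (Matrix.of (Fin.cons u w : Fin (2 * s + 1 + 1) → _)).det := by
    intro σ
    rw [pfF_apply, Fintype.prod_option]
    simp only [Option.elim, hρ, hx, RR_comm _ _ _ (hw _) (hw _), map_smul]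
    rw [Finset.prod_smul, Finset.prod_const, Finset.card_univ, Fintype.card_fin, mul_smul_comm,
      Subalgebra.coe_smul, MulMemClass.coe_mul, om_RR, ← List.prod_ofFn]
    have h2 := map_list_prod (Zen (2 * s + 1 + 1)).val (List.ofFn fun j : Fin s =>
      om _ (RR (w (σ (en s (some (j, false))))) (w (σ (en s (some (j, true)))))))
    rw [List.map_ofFn] at h2
    have h3 : (List.ofFn ((Zen (2 * s + 1 + 1)).val ∘ fun j : Fin s =>
        om _ (RR (w (σ (en s (some (j, false))))) (w (σ (en s (some (j, true)))))))).prod =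
        (2 : ℂ) ^ s • (List.ofFn fun j : Fin s =>
          ι ℂ (w (σ (en s (some (j, false))))) * ι ℂ (w (σ (en s (some (j, true)))))).prod := by
      have := (MultilinearMap.mkPiAlgebraFin ℂ s (Lam (2 * s + 1 + 1))).map_smul_univ
        (fun _ => (2 : ℂ)) fun j : Fin s =>
          ι ℂ (w (σ (en s (some (j, false))))) * ι ℂ (w (σ (en s (some (j, true)))))
      simp only [MultilinearMap.mkPiAlgebraFin_apply, Finset.prod_const, Finset.card_univ,
        Fintype.card_fin] at this
      rw [← this]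
      congr 2
      funext j
      exact om_RR _ _
    rw [Subalgebra.coe_val] at h2 h3
    rw [h2, h3, iota_swap _ u, smul_neg, neg_mul, smul_mul_smul_comm, mul_assoc (ι ℂ u),
      ← prod_en s fun i => ι ℂ (w (σ i)), ← ιMulti_apply]
    have h4 : ιMulti ℂ (2 * s + 1) (fun i => w (σ i)) = Perm.sign σ • ιMulti ℂ (2 * s + 1) w :=
      AlternatingMap.map_perm _ w σ
    have h5 : ι ℂ u * ιMulti ℂ (2 * s + 1) w =
        ιMulti ℂ (2 * s + 1 + 1) (Fin.cons u w : Fin (2 * s + 1 + 1) → _) := by
      rw [ιMulti_succ_apply (n := 2 * s + 1)]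
      rfl
    rw [h4, Units.smul_def, mul_smul_comm, h5, map_smul, map_neg, map_smul, map_zsmul, top_multi]
    have h6 : ((Perm.sign σ : ℤ) : ℂ) * ((Perm.sign σ : ℤ) : ℂ) = 1 := by
      rw [← Int.cast_mul, ← Units.val_mul, Int.units_mul_self]
      simp
    simp only [smul_eq_mul, zsmul_eq_mul, mul_pow]
    linear_combination (-2 * (-(u ⬝ᵥ u)) ^ s * 2 ^ s *
      (Matrix.of (Fin.cons u w : Fin (2 * s + 1 + 1) → _)).det) * h6
  unfold cartan
  simp only [h1]
  rw [Finset.sum_const, nsmul_eq_mul]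
  refine mul_ne_zero (Nat.cast_ne_zero.2 Fintype.card_ne_zero) (mul_ne_zero (mul_ne_zero
    (by norm_num) (pow_ne_zero _ (mul_ne_zero (neg_ne_zero.2 hu) two_ne_zero))) ?_)
  exact ((Matrix.isUnit_iff_isUnit_det _).1 (Matrix.linearIndependent_rows_iff_isUnit.1 hi)).ne_zero

end Pool.Agent.MP_a0341c_al

end
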