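import Mathlib
import Pool.Agent.MP_a0341c_al.Mg.Pf

-- part MP_a0341c_al.H44.Wick
section

/-! Complex Gaussian moments as a functional on polynomials, and a Wick type formula. -/

namespace Pool.Agent.MP_a0341c_al.H44

open MvPolynomial Finset MeasureTheory

variable {n : ℕ}

/-- the moments of the standard complex Gaussian -/
def mom (m : Fin n ⊕ Fin n →₀ ℕ) : ℕ :=
  ∏ a : Fin n, if m (Sum.inl a) = m (Sum.inr a) then (m (Sum.inl a)).factorial else 0

section Alg
variable {B : Type*} [CommRing B]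

/-- the expectation -/
noncomputable def EE : MvPolynomial (Fin n ⊕ Fin n) B →ₗ[B] B :=
  (basisMonomials (Fin n ⊕ Fin n) B).constr B fun m => (mom m : B)

lemma EE_monomial (m : Fin n ⊕ Fin n →₀ ℕ) (r : B) : EE (monomial m r) = r * mom m := by
  have h1 : (monomial m r : MvPolynomial _ B) = r • basisMonomials (Fin n ⊕ Fin n) B m := by
    simp [smul_monomial]
  rw [h1, map_smul, EE, Module.Basis.constr_basis, smul_eq_mul]

lemma mom_stein (m : Fin n ⊕ Fin n →₀ ℕ) (a : Fin n) :
    mom (Finsupp.single (Sum.inr a) 1 + m) =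
      m (Sum.inl a) * mom (m - Finsupp.single (Sum.inl a) 1) := by
  unfold mom
  rw [← Finset.mul_prod_erase univ _ (mem_univ a), ← Finset.mul_prod_erase univ _ (mem_univ a),
    ← mul_assoc]
  congr 1
  · simp only [Finsupp.add_apply, Finsupp.tsub_apply, Finsupp.single_apply]
    simp only [reduceCtorEq, if_false, if_true, zero_add, Nat.sub_zero]
    rcases h : m (Sum.inl a) with _ | j
    · rw [if_neg (by omega)]; simp
    · by_cases h2 : j = m (Sum.inr a)
      · rw [if_pos (by omega), if_pos (by omega), Nat.factorial_succ]; simp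
      · rw [if_neg (by omega), if_neg (by omega)]; simp
  · refine Finset.prod_congr rfl fun c hc => ?_
    have : a ≠ c := (Finset.ne_of_mem_erase hc).symm
    simp [this]

lemma EE_stein (a : Fin n) (p : MvPolynomial (Fin n ⊕ Fin n) B) :
    EE (X (Sum.inr a) * p) = EE (pderiv (Sum.inl a) p) := by
  induction p using MvPolynomial.induction_on' with
  | monomial m r =>
    rw [pderiv_monomial, X, monomial_mul, EE_monomial, EE_monomial, mom_stein]
    push_cast
    ring
  | add p q hp hq => simp only [mul_add, map_add, hp, hq]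

lemma EE_one : EE (1 : MvPolynomial (Fin n ⊕ Fin n) B) = 1 := by
  have := EE_monomial (B := B) (0 : Fin n ⊕ Fin n →₀ ℕ) 1
  simpa [mom] using this

/-- the sesquilinear form of a matrix -/
noncomputable def qq (M : Matrix (Fin n) (Fin n) B) : MvPolynomial (Fin n ⊕ Fin n) B :=
  ∑ a, ∑ c, C (M a c) * (X (Sum.inr a) * X (Sum.inl c))

lemma pderiv_qq (M : Matrix (Fin n) (Fin n) B) (a : Fin n) :
    pderiv (Sum.inl a) (qq M) = ∑ c, C (M c a) * X (Sum.inr c) := by
  unfold qq
  simp only [map_sum]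
  refine Finset.sum_congr rfl fun c _ => ?_
  rw [Finset.sum_eq_single a]
  · simp [pderiv_X]
  · intro b _ hb
    simp [pderiv_X, hb]
  · simp

lemma EE_qq_mul (M W : Matrix (Fin n) (Fin n) B) (m : ℕ) :
    EE (qq M * qq W ^ m) = M.trace * EE (qq W ^ m) + m * EE (qq (W * M) * qq W ^ (m - 1)) := by
  have h1 : ∀ a c, EE (C (M a c) * (X (Sum.inr a) * X (Sum.inl c)) * qq W ^ m) =
      (if a = c then M a c * EE (qq W ^ m) else 0) +
        m * EE ((∑ b, C (W b a * M a c) * (X (Sum.inr b) * X (Sum.inl c))) * qq W ^ (m - 1)) := by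
    intro a c
    rw [mul_assoc, mul_assoc, ← smul_eq_C_mul, map_smul, EE_stein, Derivation.leibniz,
      Derivation.leibniz_pow, pderiv_qq, map_add, smul_add, add_comm]
    congr 1
    · by_cases h : a = c
      · subst h; simp [pderiv_X]
      · simp [pderiv_X, h, Ne.symm h]
    · rw [← smul_eq_mul (m : B), ← map_smul, ← map_smul]
      congr 1
      simp only [smul_eq_mul, smul_eq_C_mul, nsmul_eq_mul, Finset.mul_sum, Finset.sum_mul, map_mul,
        map_natCast]
      refine Finset.sum_congr rfl fun b _ => ?_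
      ring
  conv_lhs => rw [qq.eq_1 M]
  simp only [Finset.sum_mul, map_sum, h1, Finset.sum_add_distrib]
  congr 1
  · simp [Matrix.trace, Finset.sum_mul]
  · simp only [← Finset.mul_sum]
    congr 1
    rw [qq.eq_1 (W * M)]
    simp only [Matrix.mul_apply, map_sum, Finset.sum_mul]
    rw [Finset.sum_comm]
    conv_rhs => rw [Finset.sum_comm]
    refine Finset.sum_congr rfl fun c _ => ?_
    rw [Finset.sum_comm]

lemma wick (W : Matrix (Fin n) (Fin n) B) (hW : ∀ j, (W ^ (j + 1)).trace = 0) (m : ℕ) :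
    ∀ M : Matrix (Fin n) (Fin n) B, EE (qq M * qq W ^ m) = m.factorial * (W ^ m * M).trace := by
  induction m using Nat.strong_induction_on with
  | _ m ih =>
    intro M
    rw [EE_qq_mul]
    cases m with
    | zero => simp [EE_one]
    | succ m =>
      have h1 : EE (qq W ^ (m + 1)) = 0 := by
        rw [pow_succ', ih m (by omega), ← pow_succ, hW, mul_zero]
      rw [h1, Nat.add_sub_cancel, ih m (by omega), ← mul_assoc (W ^ m), ← pow_succ,
        Nat.factorial_succ]
      push_cast
      ring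

end Alg

/-! ### The integral -/

lemma integrable_one (j : ℕ) :
    Integrable fun x : ℂ => ‖x‖ ^ j * Real.exp (-‖x‖ ^ 2) := by
  have h := Complex.integral_rpow_mul_exp_neg_rpow (p := 2) (q := j) (by norm_num)
    (by have : (0 : ℝ) ≤ j := Nat.cast_nonneg j; linarith)
  simp only [Real.rpow_natCast, Real.rpow_two] at h
  refine Integrable.of_integral_ne_zero ?_
  rw [h]
  have : 0 < Real.Gamma ((j + 2) / 2) := Real.Gamma_pos_of_pos (by positivity)
  have := Real.pi_pos
  positivity

/-- one dimensional integrand -/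
noncomputable def g1 (i j : ℕ) (x : ℂ) : ℂ :=
  x ^ i * (starRingEnd ℂ x) ^ j * (Real.exp (-‖x‖ ^ 2) : ℂ)

lemma integrable_g1 (i j : ℕ) : Integrable (g1 i j) := by
  refine (integrable_one (i + j)).mono' ?_ (Filter.Eventually.of_forall fun x => ?_)
  · refine Continuous.aestronglyMeasurable ?_
    unfold g1
    fun_prop
  · simp only [g1, norm_mul, norm_pow, RCLike.norm_conj, Complex.norm_real, Real.norm_eq_abs,
      abs_of_pos (Real.exp_pos _), pow_add, le_refl]

lemma integral_g1 (i j : ℕ) :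
    ∫ x, g1 i j x = if i = j then (Real.pi : ℂ) * i.factorial else 0 := by
  split_ifs with h
  · subst h
    have h := Complex.integral_rpow_mul_exp_neg_rpow (p := 2) (q := (2 * i : ℕ)) (by norm_num)
      (by have : (0 : ℝ) ≤ (2 * i : ℕ) := Nat.cast_nonneg _; linarith)
    simp only [Real.rpow_natCast, Real.rpow_two] at h
    have h2 : (((2 * i : ℕ) : ℝ) + 2) / 2 = (i : ℝ) + 1 := by push_cast; ring
    rw [h2, Real.Gamma_nat_eq_factorial] at h
    have h3 : ∀ x : ℂ, g1 i i x = ((‖x‖ ^ (2 * i) * Real.exp (-‖x‖ ^ 2) : ℝ) : ℂ) := by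
      intro x
      rw [g1, ← mul_pow, Complex.mul_conj, Complex.normSq_eq_norm_sq, pow_mul]
      push_cast
      ring
    simp only [h3]
    rw [integral_complex_ofReal, h]
    push_cast
    simp
  · obtain ⟨u, hu⟩ : ∃ u : Circle, (u : ℂ) ^ i * (starRingEnd ℂ (u : ℂ)) ^ j ≠ 1 := by
      have hd : ((i : ℝ) - j) ≠ 0 := sub_ne_zero.2 (by exact_mod_cast h)
      refine ⟨Circle.exp (Real.pi / (i - j)), ?_⟩
      rw [Circle.coe_exp, ← Complex.exp_conj, ← Complex.exp_nat_mul, ← Complex.exp_nat_mul,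
        ← Complex.exp_add]
      have : (i : ℂ) * (((Real.pi / (i - j) : ℝ) : ℂ) * Complex.I) +
          j * starRingEnd ℂ (((Real.pi / (i - j) : ℝ) : ℂ) * Complex.I) = Real.pi * Complex.I := by
        rw [map_mul, Complex.conj_ofReal, Complex.conj_I]
        have hd' : ((i : ℂ) - j) ≠ 0 := by exact_mod_cast hd
        push_cast
        field_simp
        ring
      rw [this, Complex.exp_pi_mul_I]
      norm_num
    have h1 := (rotation u).measurePreserving.integral_comp
      (rotation u).toHomeomorph.measurableEmbedding (g1 i j)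
    have h2 : ∀ x, g1 i j (rotation u x) =
        ((u : ℂ) ^ i * (starRingEnd ℂ (u : ℂ)) ^ j) * g1 i j x := by
      intro x
      simp only [g1, rotation_apply, map_mul, mul_pow, norm_mul, Circle.norm_coe, one_mul]
      ring
    simp only [h2] at h1
    rw [integral_const_mul] at h1
    by_contra h3
    exact hu (mul_right_cancel₀ h3 (h1.trans (one_mul _).symm))

/-- the point at which polynomials are evaluated -/
noncomputable def pt (t : Fin n → ℝ) (y : Fin n → ℂ) : Fin n ⊕ Fin n → ℂ :=
  Sum.elim (fun a => t a * y a) fun a => starRingEnd ℂ (y a) / t a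

/-- the Gaussian weight -/
noncomputable def wt (y : Fin n → ℂ) : ℝ := ∏ a, Real.exp (-‖y a‖ ^ 2)

lemma wt_pos (y : Fin n → ℂ) : 0 < wt y := Finset.prod_pos fun _ _ => Real.exp_pos _

lemma continuous_wt : Continuous (wt (n := n)) := by
  unfold wt
  fun_prop

variable {B : Type*} [CommRing B] [Algebra ℂ B]

lemma integral_EE (t : Fin n → ℝ) (ht : ∀ a, t a ≠ 0) (τ : B →ₗ[ℂ] ℂ)
    (p : MvPolynomial (Fin n ⊕ Fin n) B) :
    Continuous (fun y => τ (eval (fun i => algebraMap ℂ B (pt t y i)) p)) ∧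
    Integrable (fun y => τ (eval (fun i => algebraMap ℂ B (pt t y i)) p) * (wt y : ℂ)) ∧
      ∫ y, τ (eval (fun i => algebraMap ℂ B (pt t y i)) p) * (wt y : ℂ) =
        (Real.pi : ℂ) ^ n * τ (EE p) := by
  induction p using MvPolynomial.induction_on' with
  | monomial m r =>
    have h0 : ∀ y, τ (eval (fun i => algebraMap ℂ B (pt t y i)) (monomial m r)) =
        (∏ i, pt t y i ^ m i) * τ r := by
      intro y
      rw [eval_monomial, Finsupp.prod_fintype _ _ (by simp)]
      simp only [← map_pow, ← map_prod]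
      rw [mul_comm, ← Algebra.smul_def, map_smul, smul_eq_mul]
    have h1 : ∀ y, τ (eval (fun i => algebraMap ℂ B (pt t y i)) (monomial m r)) * (wt y : ℂ) =
        (τ r * ∏ a, ((t a : ℂ) ^ m (Sum.inl a) / (t a : ℂ) ^ m (Sum.inr a))) *
          ∏ a, g1 (m (Sum.inl a)) (m (Sum.inr a)) (y a) := by
      intro y
      rw [h0, Fintype.prod_sum_type, wt, mul_assoc (τ r), ← Finset.prod_mul_distrib,
        ← Finset.prod_mul_distrib, mul_comm _ (τ r), mul_assoc]
      push_cast
      rw [← Finset.prod_mul_distrib]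
      congr 1
      refine Finset.prod_congr rfl fun a _ => ?_
      simp only [pt, Sum.elim_inl, Sum.elim_inr, g1, mul_pow, div_pow]
      push_cast
      ring
    refine ⟨?_, ?_, ?_⟩
    · simp only [h0]
      refine Continuous.mul (continuous_finsetProd _ fun i _ => Continuous.pow ?_ _)
        continuous_const
      rcases i with a | a
      · simp only [pt, Sum.elim_inl]; fun_prop
      · simp only [pt, Sum.elim_inr]; fun_prop
    · simp only [h1]
      exact (Integrable.fintype_prod (f := fun a => g1 (m (Sum.inl a)) (m (Sum.inr a)))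
        fun a => integrable_g1 _ _).const_mul _
    · simp only [h1]
      rw [integral_const_mul, integral_fintype_prod_volume_eq_prod
        (fun a => g1 (m (Sum.inl a)) (m (Sum.inr a))), EE_monomial, mul_comm r, ← nsmul_eq_mul,
        map_nsmul, nsmul_eq_mul, mul_assoc, ← Finset.prod_mul_distrib, mom, mul_comm (τ r),
        ← mul_assoc]
      congr 1
      push_cast
      rw [show (Real.pi : ℂ) ^ n = ∏ _a : Fin n, (Real.pi : ℂ) by simp, ← Finset.prod_mul_distrib]
      refine Finset.prod_congr rfl fun a _ => ?_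
      rw [integral_g1]
      split_ifs with h
      · rw [h, div_self (pow_ne_zero _ (by exact_mod_cast ht a)), one_mul]
      · simp
  | add p q hp hq =>
    simp only [map_add, add_mul]
    refine ⟨hp.1.add hq.1, hp.2.1.add hq.2.1, ?_⟩
    rw [integral_add hp.2.1 hq.2.1, hp.2.2, hq.2.2, mul_add]

end Pool.Agent.MP_a0341c_al.H44

end

-- part MP_a0341c_al.H44.Form
section

/-! The form `α ∧ β ^ k` and its Gaussian average. -/

namespace Pool.Agent.MP_a0341c_al.H44

open Finset Matrix ExteriorAlgebra MeasureTheory Pool.Agent.MP_a0341c_al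

variable {d : ℕ}

/-- the top coefficient of `α ∧ β ^ k` -/
noncomputable def TT (k : ℕ) (v : Fin d → ℂ) (A : Matrix (Fin d) (Fin d) ℂ) : ℂ :=
  top d (ι ℂ v * (om d A : Lam d) ^ k)

lemma top_map (M : Matrix (Fin d) (Fin d) ℂ) (z : Lam d) :
    top d (ExteriorAlgebra.map M.mulVecLin z) = M.det * top d z := by
  have : top d ∘ₗ (ExteriorAlgebra.map M.mulVecLin).toLinearMap = M.det • top d := by
    refine lhom_ext fun n => ?_
    ext v
    show top d (ExteriorAlgebra.map M.mulVecLin (ιMulti ℂ n v)) = M.det • top d (ιMulti ℂ n v)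
    rw [map_apply_ιMulti]
    by_cases hn : n = d
    · subst hn
      rw [top_multi, top_multi, smul_eq_mul, mul_comm, ← det_transpose M, ← det_mul]
      congr 1
      funext i j
      simp [Matrix.mul_apply, mulVec, dotProduct, mul_comm]
    · unfold top
      rw [liftAlternating_apply_ιMulti, liftAlternating_apply_ιMulti, Function.update_of_ne hn]
      simp
  exact congrArg (fun φ => φ z) this

lemma om_coe (A : Matrix (Fin d) (Fin d) ℂ) :
    (om d A : Lam d) = ∑ a, ∑ c, A a c • (eps a * eps c) := by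
  show ((∑ p : Fin d × Fin d, A p.1 p.2 • ee p : Zen d) : Lam d) = _
  rw [AddSubmonoidClass.coe_finsetSum, Fintype.sum_prod_type]
  rfl

lemma map_om (M A : Matrix (Fin d) (Fin d) ℂ) :
    ExteriorAlgebra.map M.mulVecLin (om d A : Lam d) = om d (M * A * Mᵀ) := by
  have h1 : M * A * Mᵀ = ∑ a, ∑ c, A a c • vecMulVec (M *ᵥ Pi.single a 1) (M *ᵥ Pi.single c 1) := by
    funext i j
    simp only [Matrix.mul_apply, Matrix.sum_apply, Matrix.smul_apply, vecMulVec_apply,
      mulVec_single_one, transpose_apply, Finset.sum_mul, smul_eq_mul, col_apply]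
    rw [Finset.sum_comm]
    refine Finset.sum_congr rfl fun a _ => Finset.sum_congr rfl fun c _ => ?_
    ring
  rw [h1, om_coe]
  simp only [map_sum, map_smul, map_mul, eps, map_apply_ι, AddSubmonoidClass.coe_finsetSum,
    Subalgebra.coe_smul, om_vec, mulVecLin_apply]

lemma TT_map (k : ℕ) (M : Matrix (Fin d) (Fin d) ℂ) (v : Fin d → ℂ)
    (A : Matrix (Fin d) (Fin d) ℂ) : TT k (M *ᵥ v) (M * A * Mᵀ) = M.det * TT k v A := by
  unfold TT
  rw [← top_map, map_mul (ExteriorAlgebra.map M.mulVecLin), map_pow, map_om, map_apply_ι,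
    mulVecLin_apply]

lemma sum_pow_sq_zero {R J : Type*} [CommRing R] [DecidableEq J] (t : J → R)
    (ht : ∀ i, t i * t i = 0) (s : Finset J) :
    (∑ i ∈ s, t i) ^ s.card = s.card.factorial * ∏ i ∈ s, t i ∧
      (∑ i ∈ s, t i) ^ (s.card + 1) = 0 := by
  have key : ∀ (a S : R), a * a = 0 → ∀ m : ℕ,
      (a + S) ^ (m + 1) = S ^ (m + 1) + (m + 1) * a * S ^ m := by
    intro a S ha m
    induction m with
    | zero => simp [add_comm]
    | succ m ih =>
      rw [pow_succ, ih]
      push_cast
      linear_combination (m + 1) * S ^ m * ha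
  induction s using Finset.induction_on with
  | empty => simp
  | insert a s ha ih =>
    rw [Finset.sum_insert ha, Finset.prod_insert ha, Finset.card_insert_of_notMem ha,
      key _ _ (ht a), key _ _ (ht a), pow_succ _ (s.card + 1), ih.2, ih.1, Nat.factorial_succ]
    push_cast
    constructor <;> ring

lemma eps_sq (a : Fin d) : eps a * eps a = 0 := ι_sq_zero _

lemma TT_special (k : ℕ) (v : Fin (2 * k + 1) → ℂ)
    (A : Matrix (Fin (2 * k + 1)) (Fin (2 * k + 1)) ℂ)
    (hv : ∀ j, v (en k (some j)) = 0) (h1 : ∀ i c, A (en k (some (i, true))) c = 0)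
    (h2 : ∀ a i, A a (en k (some (i, false))) = 0) :
    TT k v A = v (en k none) * k.factorial *
      (Matrix.of fun i j : Fin k => A (en k (some (i, false))) (en k (some (j, true)))).det := by
  set o := en k none with ho
  let p : Fin k → Fin (2 * k + 1) := fun i => en k (some (i, false))
  let q : Fin k → Fin (2 * k + 1) := fun i => en k (some (i, true))
  let η : Fin k → Fin (2 * k + 1) → ℂ := fun i => ∑ j, A (p i) (q j) • Pi.single (q j) 1
  let t : Fin k → Zen (2 * k + 1) := fun i => om _ (vecMulVec (Pi.single (p i) 1) (η i))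
  have ht : ∀ i, (t i : Lam _) = eps (p i) * ι ℂ (η i) := fun i => om_vec _ _
  have hα : ι ℂ v = v o • eps o := by
    rw [iota_eq, ← (en k).sum_comp, Fintype.sum_option]
    simp [hv, ho]
  have h3 : eps o * (om _ A : Lam _) = eps o * ((∑ i, t i : Zen _) : Lam _) := by
    have e1 : ∀ c, eps o * (eps o * eps c) = 0 := fun c => by rw [← mul_assoc, eps_sq, zero_mul]
    have e2 : ∀ c, eps o * (eps c * eps o) = 0 := fun c => by rw [eps_swap c, mul_neg, e1, neg_zero]
    rw [om_coe, AddSubmonoidClass.coe_finsetSum, ← (en k).sum_comp, Fintype.sum_option,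
      Fintype.sum_prod_type]
    simp only [mul_add, Finset.mul_sum, mul_smul_comm, ← ho, e1, smul_zero, Finset.sum_const_zero,
      zero_add, Fintype.sum_bool, h1, zero_smul]
    refine Finset.sum_congr rfl fun i _ => ?_
    rw [← (en k).sum_comp, Fintype.sum_option, Fintype.sum_prod_type]
    simp only [← ho, e2, smul_zero, zero_add, Fintype.sum_bool, h2, zero_smul, add_zero, ht, η,
      map_sum, map_smul, Finset.mul_sum, mul_smul_comm]
    rfl
  have h4 : ∀ m : ℕ, eps o * (om _ A : Lam _) ^ m = eps o * ((∑ i, t i : Zen _) : Lam _) ^ m := by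
    intro m
    induction m with
    | zero => simp
    | succ m ih =>
      have hc := Subalgebra.mem_center_iff.1 (∑ i, t i : Zen _).2
      rw [pow_succ', ← mul_assoc, h3, hc, mul_assoc, ih, ← mul_assoc, ← hc, mul_assoc, ← pow_succ']
  have h5 := (sum_pow_sq_zero t (fun i => Subtype.ext (by
    show (t i : Lam (2 * k + 1)) * (t i : Lam (2 * k + 1)) = 0
    rw [ht, mul_assoc, ← mul_assoc (ι ℂ (η i)), eps, iota_swap (η i), neg_mul, mul_neg,
      ← mul_assoc, ← mul_assoc, ι_sq_zero, zero_mul, zero_mul, neg_zero])) univ).1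
  rw [Finset.card_univ, Fintype.card_fin] at h5
  let R : Fin (2 * k + 1) → Fin (2 * k + 1) → ℂ := fun a =>
    match (en k).symm a with
    | none => Pi.single o 1
    | some (i, false) => Pi.single (p i) 1
    | some (i, true) => η i
  have h6 : eps o * ((∏ i, t i : Zen _) : Lam _) = ιMulti ℂ _ R := by
    rw [ιMulti_apply, prod_en k fun a => ι ℂ (R a), ← List.prod_ofFn]
    have e := map_list_prod (Zen (2 * k + 1)).val (List.ofFn t)
    rw [List.map_ofFn] at e
    simp only [R, Equiv.symm_apply_apply]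
    congr 1
    refine e.trans ?_
    congr 2
    funext i
    exact ht i
  let e2 : Option (Fin k) ⊕ Fin k ≃ Option (Fin k × Bool) :=
    { toFun := Sum.elim (Option.map fun i => (i, false)) fun i => some (i, true)
      invFun := fun a => match a with
        | none => Sum.inl none
        | some (i, false) => Sum.inl (some i)
        | some (i, true) => Sum.inr i
      left_inv := by rintro ((_ | i) | i) <;> rfl
      right_inv := by rintro (_ | ⟨i, _ | _⟩) <;> rfl }
  have h7 : (Matrix.of R).det = (Matrix.of fun i j : Fin k => A (p i) (q j)).det := by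
    rw [← det_submatrix_equiv_self (e2.trans (en k))]
    have : (Matrix.of R).submatrix (e2.trans (en k)) (e2.trans (en k)) =
        fromBlocks 1 0 0 (Matrix.of fun i j : Fin k => A (p i) (q j)) := by
      ext ((_ | i) | i) ((_ | j) | j) <;>
        simp [R, e2, p, q, η, ho, Pi.single_apply, Matrix.one_apply, eq_comm]
    rw [this, det_fromBlocks_zero₂₁, det_one, one_mul]
  unfold TT
  rw [hα, smul_mul_assoc, h4, ← SubmonoidClass.coe_pow, h5, ← nsmul_eq_mul,
    AddSubmonoidClass.coe_nsmul, mul_smul_comm, h6, map_smul, map_nsmul, top_multi, h7]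
  simp only [smul_eq_mul, nsmul_eq_mul, mul_assoc]
  rfl

/-! ### The average -/

variable {n : ℕ}

/-- the curvature matrix -/
noncomputable def OmM (x : Fin d → Matrix (Fin n) (Fin n) ℂ) : Matrix (Fin n) (Fin n) (Zen d) :=
  fun r s => ∑ c : Fin d × Fin d, (x c.1 * x c.2 - x c.2 * x c.1) r s • ee c

attribute [local instance 100] LieRing.ofAssociativeRing

lemma rv_Om (x : Fin d → Matrix (Fin n) (Fin n) ℂ) :
    rv (Module.finBasis ℂ _) LinearMap.id (Om (Module.finBasis ℂ _) x) = OmM x := by
  unfold Om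
  rw [rv_vec]
  rfl

lemma trace_OmM (x : Fin d → Matrix (Fin n) (Fin n) ℂ) (j : ℕ) : (OmM x ^ (j + 1)).trace = 0 := by
  have h1 := aeval_Om (Module.finBasis ℂ _) x
    (TP_inv (Module.finBasis ℂ _) LinearMap.id (fun _ _ => rfl) j)
  unfold TP at h1
  have h2 := AddMonoidHom.map_trace (MvPolynomial.aeval (Om (Module.finBasis ℂ _) x) :
    MvPolynomial _ ℂ →ₐ[ℂ] Zen d) (rv (Module.finBasis ℂ (Matrix (Fin n) (Fin n) ℂ)) LinearMap.id
      MvPolynomial.X ^ (j + 1))
  rw [h2] at h1
  rw [← h1, ← rv_Om]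
  congr 1
  symm
  show (MvPolynomial.aeval (Om (Module.finBasis ℂ _) x) :
    MvPolynomial _ ℂ →ₐ[ℂ] Zen d).mapMatrix _ = _
  rw [map_pow, rv_map]
  simp only [MvPolynomial.aeval_X]

/-- the coefficient of the top class after multiplication by a generator -/
noncomputable def tau (a : Fin d) : Zen d →ₗ[ℂ] ℂ :=
  top d ∘ₗ LinearMap.mulLeft ℂ (eps a) ∘ₗ (Zen d).val.toLinearMap

lemma sum_tau (k : ℕ) (x : Fin (2 * k + 1) → Matrix (Fin n) (Fin n) ℂ) :
    ∑ a, tau a ((OmM x ^ k * (x a).map (algebraMap ℂ _)).trace) =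
      2 ^ k * (std (2 * k + 1) x).trace := by
  have h1 := Phi_TP (Module.finBasis ℂ _) LinearMap.id (fun _ _ => rfl) k x
  rw [Phi_apply] at h1
  simp only [alg_dd_TP, rv_Om, LinearMap.id_apply] at h1
  apply mul_left_cancel₀ (Nat.cast_add_one_ne_zero (R := ℂ) k)
  rw [← mul_assoc, ← h1, Finset.mul_sum]
  refine Finset.sum_congr rfl fun a _ => ?_
  rw [trace_mul_comm, AddSubmonoidClass.coe_nsmul, mul_smul_comm, map_nsmul, nsmul_eq_mul]
  push_cast
  rfl

/-- the integrand -/
noncomputable def Ps (k : ℕ) (x : Fin d → Matrix (Fin n) (Fin n) ℂ) (z w : Fin n → ℂ) : ℂ :=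
  TT k (fun j => w ⬝ᵥ x j *ᵥ z) (Matrix.of fun a c => w ⬝ᵥ (x a * x c) *ᵥ z)

lemma eval_qq {B : Type*} [CommRing B] (M : Matrix (Fin n) (Fin n) B) (y : Fin n ⊕ Fin n → B) :
    MvPolynomial.eval y (qq M) = ∑ a, ∑ c, M a c * (y (Sum.inr a) * y (Sum.inl c)) := by
  simp [qq]

lemma dot_eq (M : Matrix (Fin n) (Fin n) ℂ) (z w : Fin n → ℂ) :
    w ⬝ᵥ M *ᵥ z = ∑ a, ∑ c, M a c * (w a * z c) := by
  simp only [dotProduct, mulVec, Finset.mul_sum]
  refine Finset.sum_congr rfl fun a _ => Finset.sum_congr rfl fun c _ => ?_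
  ring

lemma om_transpose (A : Matrix (Fin d) (Fin d) ℂ) : om d Aᵀ = -om d A := by
  apply Subtype.ext
  rw [NegMemClass.coe_neg, om_coe, om_coe, Finset.sum_comm, ← Finset.sum_neg_distrib]
  refine Finset.sum_congr rfl fun a _ => ?_
  rw [← Finset.sum_neg_distrib]
  refine Finset.sum_congr rfl fun c _ => ?_
  rw [eps_swap c a, smul_neg, transpose_apply]

lemma sum_tau_eval (k : ℕ) (x : Fin d → Matrix (Fin n) (Fin n) ℂ) (y : Fin n ⊕ Fin n → ℂ) :
    ∑ a, tau a (MvPolynomial.eval (fun i => algebraMap ℂ (Zen d) (y i))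
      (qq ((x a).map (algebraMap ℂ _)) * qq (OmM x) ^ k)) =
      2 ^ k * Ps k x (fun a => y (Sum.inl a)) (fun a => y (Sum.inr a)) := by
  set z := fun a => y (Sum.inl a) with hz
  set w := fun a => y (Sum.inr a) with hw
  set A : Matrix (Fin d) (Fin d) ℂ := Matrix.of fun a c => w ⬝ᵥ (x a * x c) *ᵥ z with hA
  have h1 : MvPolynomial.eval (fun i => algebraMap ℂ (Zen d) (y i)) (qq (OmM x)) =
      (2 : ℂ) • om d A := by
    rw [two_smul, ← sub_neg_eq_add, ← om_transpose, ← map_sub, eval_qq]
    show _ = ∑ p : Fin d × Fin d, (A - Aᵀ) p.1 p.2 • ee p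
    have e : ∀ (u : Zen d) (r s : ℂ), u * (algebraMap ℂ (Zen d) r * algebraMap ℂ (Zen d) s) =
        (r * s) • u := fun u r s => by rw [← map_mul, mul_comm, Algebra.smul_def]
    simp only [e, OmM, Finset.smul_sum, smul_smul]
    rw [Finset.sum_congr rfl fun a _ => Finset.sum_comm, Finset.sum_comm]
    refine Finset.sum_congr rfl fun c _ => ?_
    simp only [← Finset.sum_smul]
    congr 1
    rw [Matrix.sub_apply, transpose_apply, hA, of_apply, of_apply, ← dotProduct_sub, ← sub_mulVec,
      dot_eq]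
    simp only [mul_comm, hz, hw]
  have h2 : ∀ a, MvPolynomial.eval (fun i => algebraMap ℂ (Zen d) (y i))
      (qq ((x a).map (algebraMap ℂ _))) = algebraMap ℂ (Zen d) (w ⬝ᵥ x a *ᵥ z) := by
    intro a
    rw [eval_qq, dot_eq]
    simp [hz, hw]
  simp only [map_mul, map_pow, h1, h2, ← Algebra.smul_def, smul_pow, map_smul]
  rw [Ps, TT, iota_eq, Finset.sum_mul, map_sum, Finset.mul_sum]
  refine Finset.sum_congr rfl fun a _ => ?_
  rw [smul_mul_assoc, map_smul, smul_eq_mul, smul_eq_mul, smul_eq_mul, mul_left_comm]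
  rfl

theorem integral_Ps (k : ℕ) (x : Fin (2 * k + 1) → Matrix (Fin n) (Fin n) ℂ) (t : Fin n → ℝ)
    (ht : ∀ a, t a ≠ 0) :
    Continuous (fun y : Fin n → ℂ =>
      Ps k x (fun a => t a * y a) fun a => starRingEnd ℂ (y a) / t a) ∧
    Integrable (fun y : Fin n → ℂ =>
      Ps k x (fun a => t a * y a) (fun a => starRingEnd ℂ (y a) / t a) * (wt y : ℂ)) ∧
    ∫ y : Fin n → ℂ, Ps k x (fun a => t a * y a) (fun a => starRingEnd ℂ (y a) / t a) * (wt y : ℂ) =
      (Real.pi : ℂ) ^ n * k.factorial * (std (2 * k + 1) x).trace := by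
  have h0 := fun a => integral_EE t ht (tau a)
    (qq ((x a).map (algebraMap ℂ _)) * qq (OmM x) ^ k)
  have h2 : (2 : ℂ) ^ k ≠ 0 := pow_ne_zero _ two_ne_zero
  have h1 : ∀ y : Fin n → ℂ, Ps k x (fun a => t a * y a) (fun a => starRingEnd ℂ (y a) / t a) =
      (2 ^ k)⁻¹ * ∑ a, tau a (MvPolynomial.eval (fun i => algebraMap ℂ (Zen _) (pt t y i))
        (qq ((x a).map (algebraMap ℂ _)) * qq (OmM x) ^ k)) := by
    intro y
    rw [sum_tau_eval, ← mul_assoc, inv_mul_cancel₀ h2, one_mul]
    rfl
  simp only [h1, mul_assoc, Finset.sum_mul]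
  refine ⟨continuous_const.mul (continuous_finsetSum _ fun a _ => (h0 a).1),
    (integrable_finsetSum _ fun a _ => (h0 a).2.1).const_mul _, ?_⟩
  rw [integral_const_mul, integral_finsetSum _ fun a _ => (h0 a).2.1]
  simp only [fun a => (h0 a).2.2, wick _ (trace_OmM x), ← nsmul_eq_mul, map_nsmul]
  simp only [nsmul_eq_mul, ← Finset.mul_sum, sum_tau]
  field_simp

end Pool.Agent.MP_a0341c_al.H44

end
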