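import Pool.Agent.MP_a0341c_al.Mg.Main
import Pool.Agent.MP_a0341c_al.Mg.H44_Form

-- part MP_a0341c_al.H44.Point
section

/-! Evaluation of the integrand in terms of the roots. -/

namespace Pool.Agent.MP_a0341c_al.H44

open Finset Matrix Polynomial Pool.Agent.MP_a0341c_al
open scoped ComplexConjugate

/-- the basis of the top component -/
noncomputable def UU (k : ℕ) (j : Fin (2 * k + 1)) : Matrix (Fin (k + 1)) (Fin (k + 1)) ℂ :=
  uu (eM ℂ (k + 1)) (hM ℂ (k + 1)) (fM ℂ (k + 1)) k j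

lemma uu_entry (k j : ℕ) (r s : Fin (k + 1)) :
    uu (eM ℂ (k + 1)) (hM ℂ (k + 1)) (fM ℂ (k + 1)) k j r s =
      if j + r = k + s then (k.factorial : ℂ) * k.choose r * (-1) ^ (s : ℕ) else 0 := by
  induction j generalizing r s with
  | zero =>
    rw [uu_zero, eM_pow]
    have hr := r.2
    by_cases h : (r : ℕ) = s + k
    · have h1 : (s : ℕ) = 0 := by omega
      have h2 : (r : ℕ) = k := by omega
      simp only [h1, h2, zero_add, add_zero, if_true, Nat.choose_self, Nat.cast_one, mul_one,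
        pow_zero]
      rw [← Finset.prod_range_add_one_eq_factorial, ← Finset.prod_range_reflect]
      push_cast
      refine Finset.prod_congr rfl fun i hi => ?_
      have := Finset.mem_range.1 hi
      rw [Nat.cast_sub (by omega), Nat.cast_sub (by omega)]
      push_cast
      ring
    · simp only [h, if_false]
      rw [if_neg (by omega)]
  | succ j ih =>
    have h1 := congrFun (congrFun (f_uu (relM (k + 1)) k j) r) s
    rw [Matrix.smul_apply, Matrix.sub_apply, Matrix.mul_apply, Matrix.mul_apply, nsmul_eq_mul] at h1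
    have hj : ((j + 1 : ℕ) : ℂ) ≠ 0 := Nat.cast_ne_zero.2 (by omega)
    apply mul_left_cancel₀ hj
    rw [← h1]
    have e1 : ∑ b, fM ℂ (k + 1) r b * uu (eM ℂ (k + 1)) (hM ℂ (k + 1)) (fM ℂ (k + 1)) k j b s =
        if j + 1 + r = k + s then
          ((r : ℕ) + 1 : ℂ) * ((k.factorial : ℂ) * k.choose (r + 1) * (-1) ^ (s : ℕ)) else 0 := by
      by_cases hr : (r : ℕ) + 1 < k + 1
      · rw [Finset.sum_eq_single ⟨r + 1, hr⟩]
        · rw [ih]
          simp only [fM, if_true]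
          by_cases h : j + 1 + r = k + s
          · rw [if_pos h, if_pos (by omega)]; push_cast; rfl
          · rw [if_neg h, if_neg (by omega), mul_zero]
        · intro b _ hb
          have : (r : ℕ) + 1 ≠ b := fun h => hb (Fin.ext h.symm)
          simp [fM, this]
        · simp
      · rw [Nat.choose_eq_zero_of_lt (by omega)]
        simp only [Nat.cast_zero, mul_zero, zero_mul, ite_self]
        refine Finset.sum_eq_zero fun b _ => ?_
        have : (r : ℕ) + 1 ≠ b := by have := b.2; omega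
        simp [fM, this]
    have e2 : ∑ b, uu (eM ℂ (k + 1)) (hM ℂ (k + 1)) (fM ℂ (k + 1)) k j r b * fM ℂ (k + 1) b s =
        if j + 1 + r = k + s then
          -((s : ℕ) : ℂ) * ((k.factorial : ℂ) * k.choose r * (-1) ^ (s : ℕ)) else 0 := by
      obtain ⟨s, hs⟩ := s
      cases s with
      | zero => simp [fM]
      | succ s =>
        rw [Finset.sum_eq_single ⟨s, by omega⟩]
        · rw [ih]
          simp only [fM, if_true]
          by_cases h : j + 1 + r = k + (s + 1)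
          · rw [if_pos h, if_pos (by omega)]; ring
          · rw [if_neg h, if_neg (by omega), zero_mul]
        · intro b _ hb
          have : (b : ℕ) ≠ s := fun h => hb (Fin.ext h)
          simp [fM, this]
        · simp
    rw [e1, e2]
    split_ifs with h
    · have h2 : ((k.choose (r + 1) : ℕ) : ℂ) * ((r : ℕ) + 1) = k.choose r * (k - (r : ℕ)) := by
        have := Nat.choose_succ_right_eq k r
        have h3 := congrArg (Nat.cast : ℕ → ℂ) this
        rw [Nat.cast_mul, Nat.cast_mul, Nat.cast_sub (by have := r.2; omega)] at h3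
        exact_mod_cast h3
      have h3 : ((j + 1 : ℕ) : ℂ) = k + (s : ℕ) - (r : ℕ) := by
        have := congrArg (Nat.cast : ℕ → ℂ) h
        push_cast at this ⊢
        linear_combination this
      rw [h3]
      linear_combination (k.factorial : ℂ) * (-1) ^ (s : ℕ) * h2
    · simp

/-- column vector -/
noncomputable def kap (k : ℕ) (v u : ℂ) : Fin (k + 1) → ℂ :=
  fun r => k.choose r * (v ^ (k - r) * u ^ (r : ℕ))

/-- row vector -/
noncomputable def muu (k : ℕ) (v u : ℂ) : Fin (k + 1) → ℂ :=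
  fun s => (-v) ^ (s : ℕ) * u ^ (k - s)

lemma sum_UU (k : ℕ) (v u : ℂ) :
    ∑ j : Fin (2 * k + 1), (v ^ (j : ℕ) * u ^ (j.rev : ℕ)) • UU k j =
      (k.factorial : ℂ) • vecMulVec (kap k v u) (muu k v u) := by
  funext r s
  have hr := r.2
  have hs := s.2
  rw [Matrix.sum_apply, Finset.sum_eq_single ⟨k + s - r, by omega⟩]
  · simp only [Matrix.smul_apply, UU, uu_entry, vecMulVec_apply, kap, muu, smul_eq_mul, Fin.val_rev]
    rw [if_pos (by omega), show k + s - r = (k - r) + s by omega,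
      show 2 * k + 1 - (k - r + s + 1) = r + (k - s) by omega, pow_add, pow_add, neg_pow v]
    ring
  · intro b _ hb
    have : (b : ℕ) + r ≠ k + s := fun h => hb (Fin.ext (by simp only; omega))
    simp [UU, uu_entry, this]
  · simp

lemma muu_kap (k : ℕ) (v u v' u' : ℂ) : muu k v u ⬝ᵥ kap k v' u' = (u * v' - v * u') ^ k := by
  rw [sub_eq_neg_add, add_pow, dotProduct,
    ← Fin.sum_univ_eq_sum_range (fun m => (-(v * u')) ^ m * (u * v') ^ (k - m) * k.choose m)]
  refine Finset.sum_congr rfl fun s _ => ?_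
  rw [muu, kap, ← neg_mul, mul_pow, mul_pow]
  ring

lemma Ps_map {d n : ℕ} (k : ℕ) (M : Matrix (Fin d) (Fin d) ℂ)
    (x : Fin d → Matrix (Fin n) (Fin n) ℂ) (z w : Fin n → ℂ) :
    Ps k (fun i => ∑ j, M i j • x j) z w = M.det * Ps k x z w := by
  unfold Ps
  rw [← TT_map]
  congr 1
  · funext i
    simp only [sum_mulVec, smul_mulVec, dotProduct_sum, dotProduct_smul, smul_eq_mul]
    rfl
  · funext a c
    simp only [of_apply, Finset.sum_mul, Finset.mul_sum, smul_mul_assoc, mul_smul_comm, sum_mulVec,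
      smul_mulVec, dotProduct_sum, dotProduct_smul, smul_eq_mul, Matrix.mul_apply, transpose_apply]
    refine Finset.sum_congr rfl fun a' _ => Finset.sum_congr rfl fun c' _ => ?_
    ring

/-- coefficients of a polynomial with given roots -/
noncomputable def zc (k : ℕ) (c : ℂ) (r : ℕ → ℂ) : Fin (k + 1) → ℂ :=
  fun s => c * (∏ i ∈ range k, (X + C (r i))).coeff s

lemma coeff_eq (k : ℕ) (r : ℕ → ℂ) (s : Fin (k + 1)) :
    (∏ i ∈ range k, (X + C (r i))).coeff s =
      ∑ t ∈ (range k).powersetCard (k - s), ∏ i ∈ t, r i := by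
  rw [Finset.prod_X_add_C_coeff _ _ (by have := s.2; simp; omega), card_range]

lemma hom_eval (k : ℕ) (r : ℕ → ℂ) (x u : ℂ) :
    ∑ s : Fin (k + 1), (∏ i ∈ range k, (X + C (r i))).coeff s * (x ^ (s : ℕ) * u ^ (k - s)) =
      ∏ i ∈ range k, (x + r i * u) := by
  have h1 : (∏ i ∈ range k, (X + C (r i * u))).natDegree < k + 1 := by
    refine Nat.lt_succ_of_le ((natDegree_prod_le _ _).trans ?_)
    simp [-map_mul]
  have h2 := eval_eq_sum_range' h1 x
  rw [eval_prod, Finset.sum_range] at h2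
  simp only [eval_add, eval_X, eval_C] at h2
  rw [h2]
  refine Finset.sum_congr rfl fun s _ => ?_
  rw [coeff_eq, coeff_eq k fun i => r i * u, Finset.sum_mul, Finset.sum_mul]
  refine Finset.sum_congr rfl fun t ht => ?_
  rw [Finset.prod_mul_distrib, Finset.prod_const, (mem_powersetCard.1 ht).2]
  ring

lemma muu_zc (k : ℕ) (c : ℂ) (r : ℕ → ℂ) (v u : ℂ) :
    muu k v u ⬝ᵥ zc k c r = c * ∏ i ∈ range k, (-v + r i * u) := by
  rw [← hom_eval, Finset.mul_sum]
  refine Finset.sum_congr rfl fun s _ => ?_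
  rw [muu, zc]
  ring

/-- the dual vector -/
noncomputable def wc (k : ℕ) (z : Fin (k + 1) → ℂ) : Fin (k + 1) → ℂ :=
  fun s => conj (z s) / k.choose s

lemma choose_ne (k : ℕ) (s : Fin (k + 1)) : (k.choose s : ℂ) ≠ 0 :=
  Nat.cast_ne_zero.2 (Nat.choose_pos (by have := s.2; omega)).ne'

lemma wc_kap (k : ℕ) (c : ℂ) (r : ℕ → ℂ) (v u : ℂ) :
    wc k (zc k c r) ⬝ᵥ kap k v u = conj c * ∏ i ∈ range k, (u + conj (r i) * v) := by
  have h := congrArg conj (hom_eval k r (conj u) (conj v))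
  simp only [map_sum, map_prod, map_mul, map_add, map_pow, Complex.conj_conj] at h
  rw [← h, Finset.mul_sum]
  refine Finset.sum_congr rfl fun s _ => ?_
  have := choose_ne k s
  rw [wc, kap, zc, map_mul]
  field_simp

/-- the points: infinity, the roots and their antipodes -/
noncomputable def pv (r : ℕ → ℂ) (j : ℕ) : ℂ := if j % 2 = 1 then r (j / 2) else 1

/-- second homogeneous coordinate of the points -/
noncomputable def pu (r : ℕ → ℂ) (j : ℕ) : ℂ :=
  if j = 0 then 0 else if j % 2 = 1 then 1 else -conj (r (j / 2 - 1))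

lemma pv0 (r : ℕ → ℂ) : pv r 0 = 1 := by simp [pv]
lemma pu0 (r : ℕ → ℂ) : pu r 0 = 0 := by simp [pu]
lemma pv1 (r : ℕ → ℂ) (l : ℕ) : pv r (2 * l + 1) = r l := by
  rw [pv, if_pos (by omega), show (2 * l + 1) / 2 = l by omega]
lemma pu1 (r : ℕ → ℂ) (l : ℕ) : pu r (2 * l + 1) = 1 := by
  rw [pu, if_neg (by omega), if_pos (by omega)]
lemma pv2 (r : ℕ → ℂ) (l : ℕ) : pv r (2 * l + 2) = 1 := by
  rw [pv, if_neg (by omega)]
lemma pu2 (r : ℕ → ℂ) (l : ℕ) : pu r (2 * l + 2) = -conj (r l) := by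
  rw [pu, if_neg (by omega), if_neg (by omega), show (2 * l + 2) / 2 - 1 = l by omega]

lemma prod_range_odd (h : ℕ → ℂ) (m : ℕ) : ∏ i ∈ range (2 * m + 1), h i =
    h 0 * ∏ l ∈ range m, (h (2 * l + 1) * h (2 * l + 2)) := by
  induction m with
  | zero => simp
  | succ m ih =>
    rw [show 2 * (m + 1) + 1 = 2 * m + 1 + 1 + 1 by ring, prod_range_succ, prod_range_succ, ih,
      prod_range_succ]
    ring

/-- the positive part of the Vandermonde determinant -/
noncomputable def rho (k : ℕ) (r : ℕ → ℂ) : ℝ :=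
  ∏ m ∈ range k, ((1 + Complex.normSq (r m)) *
    ∏ l ∈ range m, (Complex.normSq (r m - r l) * Complex.normSq (1 + r l * conj (r m))))

lemma det_pts (k : ℕ) (r : ℕ → ℂ) :
    (projVandermonde (fun i : Fin (2 * k + 1) => pv r i) fun i => pu r i).det =
      (∏ m ∈ range k, conj (r m)) * (-1) ^ k * (∏ m ∈ range k, (-1) ^ m) * rho k r := by
  have h1 : (projVandermonde (fun i : Fin (2 * k + 1) => pv r i) fun i => pu r i).det =
      ∏ j ∈ range (2 * k + 1), ∏ i ∈ range j, (pv r j * pu r i - pv r i * pu r j) := by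
    rw [det_projVandermonde, Finset.prod_comm' (t' := univ) (s' := fun j => Iio j) (by simp),
      ← Fin.prod_univ_eq_prod_range
        (fun j => ∏ i ∈ range j, (pv r j * pu r i - pv r i * pu r j))]
    refine Finset.prod_congr rfl fun j _ => ?_
    rw [← Nat.Iio_eq_range, ← Fin.map_valEmbedding_Iio, Finset.prod_map]
    rfl
  rw [h1, prod_range_odd, rho, show ((-1 : ℂ)) ^ k = ∏ _m ∈ range k, (-1 : ℂ) by simp]
  push_cast
  rw [← Finset.prod_mul_distrib, ← Finset.prod_mul_distrib, ← Finset.prod_mul_distrib,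
    Finset.prod_range_zero, one_mul]
  refine Finset.prod_congr rfl fun m _ => ?_
  rw [prod_range_succ _ (2 * m + 1), prod_range_odd, prod_range_odd,
    show ((-1 : ℂ)) ^ m = ∏ _l ∈ range m, (-1 : ℂ) by simp]
  simp only [pv0, pu0, pv1, pu1, pv2, pu2]
  have h2 : (∏ l ∈ range m, ((r m * 1 - r l * 1) * (r m * -conj (r l) - 1 * 1))) *
      ∏ l ∈ range m, ((1 * 1 - r l * -conj (r m)) * (1 * -conj (r l) - 1 * -conj (r m))) =
      (∏ _l ∈ range m, (-1 : ℂ)) * ∏ l ∈ range m, ((Complex.normSq (r m - r l) : ℂ) *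
        (Complex.normSq (1 + r l * conj (r m)) : ℂ)) := by
    rw [← Finset.prod_mul_distrib, ← Finset.prod_mul_distrib]
    refine Finset.prod_congr rfl fun l _ => ?_
    rw [← Complex.mul_conj, ← Complex.mul_conj]
    simp only [map_sub, map_add, map_mul, map_one, Complex.conj_conj]
    ring
  rw [← Complex.mul_conj]
  linear_combination (-(conj (r m)) * (1 + r m * conj (r m))) * h2

/-- the Gram matrix -/
noncomputable def Gm (k : ℕ) (r : ℕ → ℂ) : Matrix (Fin k) (Fin k) ℂ :=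
  Matrix.of fun i j => (1 + r i * conj (r j)) ^ k

/-- the sign -/
noncomputable def sg (k : ℕ) : ℂ := (∏ m ∈ range k, (-1) ^ m) * (-1) ^ (k * k)

lemma sg_ne (k : ℕ) : sg k ≠ 0 :=
  mul_ne_zero (Finset.prod_ne_zero_iff.2 fun _ _ => pow_ne_zero _ (by norm_num))
    (pow_ne_zero _ (by norm_num))

theorem Ps_roots (k : ℕ) (c : ℂ) (r : ℕ → ℂ) (hr : ∀ m < k, r m ≠ 0) :
    (rho k r : ℂ) * (sg k * Ps k (UU k) (zc k c r) (wc k (zc k c r))) =
      ((k.factorial ^ (2 * k + 2) * Complex.normSq c * Complex.normSq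
        (∏ i : Fin k, (conj c * ∏ l ∈ range k, (1 + conj (r l) * r i))) : ℝ) : ℂ) *
        (Gm k r).det := by
  set z := zc k c r with hz
  set w := wc k z with hw
  have h1 := Ps_map k (projVandermonde (fun i : Fin (2 * k + 1) => pv r i) fun i => pu r i)
    (UU k) z w
  simp only [projVandermonde_apply, sum_UU] at h1
  let W : ℕ → ℂ := fun i => conj c * ∏ l ∈ range k, (pu r i + conj (r l) * pv r i)
  let Z : ℕ → ℂ := fun i => c * ∏ l ∈ range k, (-pv r i + r l * pu r i)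
  have e1 : ∀ i : ℕ, w ⬝ᵥ ((k.factorial : ℂ) • vecMulVec (kap k (pv r i) (pu r i))
      (muu k (pv r i) (pu r i))) *ᵥ z = k.factorial * (W i * Z i) := by
    intro i
    rw [smul_mulVec, vecMulVec_mulVec, dotProduct_smul, op_smul_eq_smul, dotProduct_smul, hw, hz,
      muu_zc, wc_kap, smul_eq_mul, smul_eq_mul, mul_comm (W i)]
  have e2 : ∀ i j : ℕ, w ⬝ᵥ (((k.factorial : ℂ) • vecMulVec (kap k (pv r i) (pu r i))
      (muu k (pv r i) (pu r i))) * ((k.factorial : ℂ) • vecMulVec (kap k (pv r j) (pu r j))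
      (muu k (pv r j) (pu r j)))) *ᵥ z = k.factorial ^ 2 * W i * (Z j *
        (pu r i * pv r j - pv r i * pu r j) ^ k) := by
    intro i j
    rw [smul_mul_smul_comm, vecMulVec_mul_vecMulVec, smul_mulVec, vecMulVec_mulVec,
      dotProduct_smul, op_smul_eq_smul, dotProduct_smul, smul_dotProduct, hw, hz,
      muu_zc, wc_kap, muu_kap]
    simp only [smul_eq_mul, W, Z]
    ring
  have hW : ∀ i : Fin k, W (2 * i + 2) = 0 := fun i => by
    simp only [W, pv2, pu2]
    rw [Finset.prod_eq_zero (Finset.mem_range.2 i.2) (by ring), mul_zero]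
  have hZ : ∀ i : Fin k, Z (2 * i + 1) = 0 := fun i => by
    simp only [Z, pv1, pu1]
    rw [Finset.prod_eq_zero (Finset.mem_range.2 i.2) (by ring), mul_zero]
  have v0 : ((en k none : Fin _) : ℕ) = 0 := rfl
  have v1 : ∀ i, ((en k (some (i, false)) : Fin _) : ℕ) = 2 * i + 1 := fun _ => rfl
  have v2 : ∀ i, ((en k (some (i, true)) : Fin _) : ℕ) = 2 * i + 2 := fun _ => rfl
  rw [Ps, TT_special k _ _ (by
      rintro ⟨i, _ | _⟩
      · rw [e1, v1, hZ, mul_zero, mul_zero]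
      · rw [e1, v2, hW, zero_mul, mul_zero])
    (fun i c => by rw [of_apply, e2, v2, hW, mul_zero, zero_mul])
    (fun a i => by rw [of_apply, e2, v1, hZ, zero_mul, mul_zero]), det_pts, e1, v0] at h1
  simp only [of_apply, e2, v1, v2, pv1, pu1, pv2, pu2] at h1
  have h2 : (Matrix.of fun i j : Fin k => (k.factorial : ℂ) ^ 2 * W (2 * i + 1) *
      (Z (2 * j + 2) * (1 * 1 - r i * -conj (r j)) ^ k)).det =
      (∏ i : Fin k, ((k.factorial : ℂ) ^ 2 * W (2 * i + 1))) *
        ((∏ j : Fin k, Z (2 * j + 2)) * (Gm k r).det) := by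
    rw [← det_mul_row, ← det_mul_column]
    congr 1
    funext i j
    simp only [of_apply, Gm]
    ring
  have h3 : ∀ j : Fin k, Z (2 * j + 2) = (-1) ^ k * conj (W (2 * j + 1)) := by
    intro j
    simp only [Z, W, pv1, pu1, pv2, pu2, map_mul, map_prod, map_add, map_one, Complex.conj_conj]
    rw [show ((-1 : ℂ)) ^ k = ∏ _l ∈ range k, (-1 : ℂ) by simp, mul_left_comm,
      ← Finset.prod_mul_distrib]
    congr 1
    refine Finset.prod_congr rfl fun l _ => ?_
    ring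
  have h4 : W 0 * Z 0 = (∏ m ∈ range k, conj (r m)) * (-1) ^ k * (c * conj c) := by
    simp only [W, Z, pv0, pu0, zero_add, mul_one, mul_zero, add_zero, Finset.prod_const,
      card_range]
    ring
  rw [h2, h4] at h1
  simp only [h3, Finset.prod_mul_distrib, Finset.prod_const, Finset.card_univ, Fintype.card_fin,
    ← map_prod, ← pow_mul] at h1
  have h5 : (∏ m ∈ range k, conj (r m)) * (-1) ^ k ≠ 0 :=
    mul_ne_zero (Finset.prod_ne_zero_iff.2 fun m hm =>
      (_root_.map_ne_zero _).2 (hr m (Finset.mem_range.1 hm))) (pow_ne_zero _ (by norm_num))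
  have h6 : ∏ i : Fin k, (conj c * ∏ l ∈ range k, (1 + conj (r l) * r i)) =
      ∏ i : Fin k, W (2 * i + 1) := by
    simp only [W, pv1, pu1]
  have h7 : ((-1 : ℂ) ^ (k * k)) * (-1) ^ (k * k) = 1 := by rw [← mul_pow]; simp
  apply mul_left_cancel₀ h5
  rw [h6, sg]
  push_cast
  rw [← Complex.mul_conj, ← Complex.mul_conj, ← map_prod]
  linear_combination (-(-1 : ℂ) ^ (k * k)) * h1 + (conj (∏ m ∈ range k, r m) * (-1) ^ k *
    ((k.factorial : ℂ) ^ (2 * k + 2) * (c * conj c) * ((∏ i : Fin k, W (2 * i + 1)) *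
      conj (∏ i : Fin k, W (2 * i + 1))) * (Gm k r).det)) * h7

end Pool.Agent.MP_a0341c_al.H44

end

-- part MP_a0341c_al.H44.Key
section

/-! Positivity of the integrand and non-vanishing in top degree. -/

namespace Pool.Agent.MP_a0341c_al.H44

open Finset Matrix Polynomial MeasureTheory Filter Topology Pool.Agent.MP_a0341c_al
open scoped ComplexConjugate ComplexOrder

lemma Gm_eq (k : ℕ) (r : ℕ → ℂ) : Gm k r =
    (Matrix.of fun (i : Fin k) (b : Fin (k + 1)) => r i ^ (b : ℕ)) *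
      diagonal (fun b : Fin (k + 1) => (k.choose b : ℂ)) *
      (Matrix.of fun (i : Fin k) (b : Fin (k + 1)) => r i ^ (b : ℕ))ᴴ := by
  funext i j
  rw [Matrix.mul_apply, Gm, of_apply, add_comm, add_pow, Finset.sum_range]
  refine Finset.sum_congr rfl fun b _ => ?_
  simp only [mul_diagonal, of_apply, conjTranspose_apply, star_pow, RCLike.star_def, mul_pow]
  ring

lemma Gm_nonneg (k : ℕ) (r : ℕ → ℂ) : 0 ≤ (Gm k r).det := by
  rw [Gm_eq]
  exact ((PosSemidef.diagonal fun b => Nat.cast_nonneg _).mul_mul_conjTranspose_same _).det_nonneg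

lemma Gm_pos (k : ℕ) (r : ℕ → ℂ) (hr : Function.Injective r) : (Gm k r).det ≠ 0 := by
  rw [Gm_eq]
  refine ((PosDef.diagonal fun b : Fin (k + 1) => Nat.cast_pos.2
    (Nat.choose_pos (by have := b.2; omega))).mul_mul_conjTranspose_same ?_).det_pos.ne'
  intro v v' h
  rw [← sub_eq_zero]
  refine eq_zero_of_forall_pow_sum_mul_pow_eq_zero (f := fun i : Fin k => r i)
    (hr.comp Fin.val_injective) fun i => ?_
  have := congrFun h i.castSucc
  simp only [vecMul, dotProduct, of_apply, Fin.val_castSucc] at this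
  simp only [Pi.sub_apply, sub_mul, Finset.sum_sub_distrib, this, sub_self]

lemma rho_nonneg (k : ℕ) (r : ℕ → ℂ) : 0 ≤ rho k r :=
  Finset.prod_nonneg fun _ _ => mul_nonneg (add_nonneg zero_le_one (Complex.normSq_nonneg _))
    (Finset.prod_nonneg fun _ _ => mul_nonneg (Complex.normSq_nonneg _) (Complex.normSq_nonneg _))

lemma Ps_nonneg_gen (k : ℕ) (c : ℂ) (r : ℕ → ℂ) (hr : ∀ m < k, r m ≠ 0) (h : rho k r ≠ 0) :
    0 ≤ sg k * Ps k (UU k) (zc k c r) (wc k (zc k c r)) := by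
  have h1 := Ps_roots k c r hr
  have h2 : (0 : ℂ) < rho k r := by
    exact_mod_cast lt_of_le_of_ne (rho_nonneg k r) h.symm
  have h3 : (0 : ℂ) ≤ (((rho k r)⁻¹ : ℝ) : ℂ) := by
    exact_mod_cast inv_nonneg.2 (rho_nonneg k r)
  rw [← inv_mul_cancel_left₀ h2.ne' (sg k * _), h1, ← Complex.ofReal_inv]
  refine mul_nonneg h3 (mul_nonneg ?_ (Gm_nonneg k r))
  rw [Complex.zero_le_real]
  exact mul_nonneg (mul_nonneg (by positivity) (Complex.normSq_nonneg _)) (Complex.normSq_nonneg _)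

lemma ev_quad (a b c : ℂ) (h : a ≠ 0 ∨ b ≠ 0) :
    ∀ᶠ t : ℝ in 𝓝[≠] 0, a * t ^ 2 + b * t + c ≠ 0 := by
  have hP : (C a * X ^ 2 + C b * X + C c : ℂ[X]) ≠ 0 := by
    intro h0
    have h1 := congrArg (fun p : ℂ[X] => p.coeff 2) h0
    have h2 := congrArg (fun p : ℂ[X] => p.coeff 1) h0
    simp [coeff_C] at h1 h2
    tauto
  have h1 := (finite_setOfPred_isRoot hP).preimage Complex.ofReal_injective.injOn
  filter_upwards [nhdsNE_le_cofinite _ h1.compl_mem_cofinite] with t ht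
  simpa using ht

/-- the scaling factors -/
noncomputable def tt (k : ℕ) (a : Fin (k + 1)) : ℝ := Real.sqrt (k.choose a)

lemma tt_sq (k : ℕ) (a : Fin (k + 1)) : (tt k a : ℂ) * tt k a = k.choose a := by
  rw [← Complex.ofReal_mul, tt, Real.mul_self_sqrt (Nat.cast_nonneg _)]
  simp

lemma tt_ne (k : ℕ) (a : Fin (k + 1)) : tt k a ≠ 0 := by
  intro h
  have := tt_sq k a
  rw [h] at this
  exact choose_ne k a (by simpa using this.symm)

/-- the integrand in Gaussian coordinates -/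
noncomputable def FF (k : ℕ) (y : Fin (k + 1) → ℂ) : ℂ :=
  Ps k (UU k) (fun a => tt k a * y a) fun a => conj (y a) / tt k a

lemma FF_eq (k : ℕ) (z : Fin (k + 1) → ℂ) :
    FF k (fun a => z a / tt k a) = Ps k (UU k) z (wc k z) := by
  have h : ∀ a, (tt k a : ℂ) ≠ 0 := fun a => Complex.ofReal_ne_zero.2 (tt_ne k a)
  unfold FF
  congr 1
  · funext a
    rw [mul_div_cancel₀ _ (h a)]
  · funext a
    rw [wc, map_div₀, Complex.conj_ofReal, div_div, tt_sq]

lemma Ps_nonneg (k : ℕ) (c : ℂ) (r : ℕ → ℂ) :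
    0 ≤ sg k * Ps k (UU k) (zc k c r) (wc k (zc k c r)) := by
  let rt : ℝ → ℕ → ℂ := fun t i => r i + t * (i + 1)
  have hc : Continuous fun t : ℝ => sg k * FF k fun a => zc k c (rt t) a / tt k a := by
    refine continuous_const.mul ((integral_Ps k (UU k) (tt k) (tt_ne k)).1.comp
      (continuous_pi fun a => ?_))
    simp only [zc, coeff_eq, rt]
    fun_prop
  have h0 : rt 0 = r := by funext i; simp [rt]
  have h1 := (hc.tendsto 0).mono_left (nhdsWithin_le_nhds (s := {0}ᶜ))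
  simp only [FF_eq, h0] at h1
  refine ge_of_tendsto h1 ?_
  have n1 : ∀ i : ℕ, (i : ℂ) + 1 ≠ 0 := fun i => Nat.cast_add_one_ne_zero i
  have e1 : ∀ᶠ t : ℝ in 𝓝[≠] 0, ∀ m ∈ range k, rt t m ≠ 0 := by
    rw [eventually_all_finset]
    intro m _
    filter_upwards [ev_quad 0 (m + 1) (r m) (Or.inr (n1 m))] with t ht h
    apply ht
    simp only [rt] at h
    linear_combination h
  have e2 : ∀ᶠ t : ℝ in 𝓝[≠] 0, ∀ m ∈ range k, ∀ l ∈ range m,
      rt t m - rt t l ≠ 0 ∧ 1 + rt t l * conj (rt t m) ≠ 0 := by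
    rw [eventually_all_finset]
    intro m _
    rw [eventually_all_finset]
    intro l hl
    have hl' : (m : ℂ) - l ≠ 0 := sub_ne_zero.2 (Nat.cast_injective.ne (mem_range.1 hl).ne')
    filter_upwards [ev_quad 0 (m - l) (r m - r l) (Or.inr hl'),
      ev_quad ((l + 1) * (m + 1)) (r l * (m + 1) + (l + 1) * conj (r m)) (1 + r l * conj (r m))
        (Or.inl (mul_ne_zero (n1 l) (n1 m)))] with t ht ht'
    refine ⟨fun h => ht ?_, fun h => ht' ?_⟩
    · simp only [rt] at h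
      linear_combination h
    · simp only [rt, map_add, map_mul, Complex.conj_ofReal, map_natCast, map_one] at h
      linear_combination h
  filter_upwards [e1, e2] with t h1 h2
  refine Ps_nonneg_gen k c _ (fun m hm => h1 m (mem_range.2 hm)) ?_
  refine Finset.prod_ne_zero_iff.2 fun m hm => mul_ne_zero ?_ (Finset.prod_ne_zero_iff.2
    fun l hl => mul_ne_zero ?_ ?_)
  · exact (add_pos_of_pos_of_nonneg one_pos (Complex.normSq_nonneg _)).ne'
  · exact (_root_.map_ne_zero _).2 (h2 m hm l hl).1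
  · exact (_root_.map_ne_zero _).2 (h2 m hm l hl).2

lemma exists_roots : ∀ (k : ℕ) (P : ℂ[X]), P.Monic → P.natDegree = k →
    ∃ r : ℕ → ℂ, P = ∏ i ∈ range k, (X + C (r i))
  | 0, P, h1, h2 => ⟨0, by simpa using (h1.natDegree_eq_zero).1 h2⟩
  | k + 1, P, h1, h2 => by
    obtain ⟨a, ha⟩ := Complex.exists_root (f := P) (natDegree_pos_iff_degree_pos.1 (by omega))
    obtain ⟨Q, rfl⟩ := dvd_iff_isRoot.2 ha
    have hQ : Q.Monic := (monic_X_sub_C a).of_mul_monic_left h1
    rw [(monic_X_sub_C a).natDegree_mul hQ, natDegree_X_sub_C] at h2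
    obtain ⟨r, rfl⟩ := exists_roots k Q hQ (by omega)
    refine ⟨Function.update r k (-a), ?_⟩
    rw [prod_range_succ, Function.update_self, map_neg, ← sub_eq_add_neg, mul_comm]
    congr 1
    refine Finset.prod_congr rfl fun i hi => ?_
    rw [Function.update_of_ne (mem_range.1 hi).ne]

lemma exists_zc (k : ℕ) (z : Fin (k + 1) → ℂ) (hz : z (Fin.last k) ≠ 0) :
    ∃ r, z = zc k (z (Fin.last k)) r := by
  let P : ℂ[X] := C (z (Fin.last k))⁻¹ * ofFn (k + 1) z
  have h1 : ∀ s : Fin (k + 1), P.coeff s = (z (Fin.last k))⁻¹ * z s := fun s => by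
    rw [coeff_C_mul, ofFn_coeff_eq_val_of_lt _ s.2]
  have h2 : P.natDegree ≤ k :=
    (natDegree_C_mul_le _ _).trans (Nat.lt_succ_iff.1 (ofFn_natDegree_lt (by omega) z))
  have h3 : P.coeff k = 1 := (h1 (Fin.last k)).trans (inv_mul_cancel₀ hz)
  obtain ⟨r, hr⟩ := exists_roots k P (monic_of_natDegree_le_of_coeff_eq_one k h2 h3)
    (natDegree_eq_of_le_of_coeff_ne_zero h2 (h3 ▸ one_ne_zero))
  refine ⟨r, funext fun s => ?_⟩
  rw [zc, ← hr, h1, mul_inv_cancel_left₀ hz]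

lemma FF_nonneg (k : ℕ) (y : Fin (k + 1) → ℂ) (hy : y (Fin.last k) ≠ 0) : 0 ≤ sg k * FF k y := by
  have h : ∀ a, (tt k a : ℂ) ≠ 0 := fun a => Complex.ofReal_ne_zero.2 (tt_ne k a)
  obtain ⟨r, hr⟩ := exists_zc k (fun a => tt k a * y a) (mul_ne_zero (h _) hy)
  have h1 : y = fun a => (fun a => tt k a * y a) a / tt k a := by
    funext a
    simp only
    rw [mul_div_cancel_left₀ _ (h a)]
  rw [h1, FF_eq, hr]
  exact Ps_nonneg k _ r

lemma exists_FF (k : ℕ) : ∃ y, 0 ≤ sg k * FF k y ∧ sg k * FF k y ≠ 0 := by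
  let r : ℕ → ℂ := fun i => i + 1
  refine ⟨fun a => zc k 1 r a / tt k a, ?_, ?_⟩
  · rw [FF_eq]
    exact Ps_nonneg k 1 r
  · rw [FF_eq]
    intro h
    have h1 := Ps_roots k 1 r fun m _ => Nat.cast_add_one_ne_zero m
    rw [h, mul_zero] at h1
    refine mul_ne_zero (Complex.ofReal_ne_zero.2 (mul_ne_zero (mul_ne_zero (by positivity)
      (by simp)) ((_root_.map_ne_zero _).2 (Finset.prod_ne_zero_iff.2 fun i _ =>
        mul_ne_zero (by simp) (Finset.prod_ne_zero_iff.2 fun l _ => ?_)))))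
      (Gm_pos k r fun a b hab => by simpa [r] using hab) h1.symm
    simp only [r, map_add, map_natCast, map_one]
    exact_mod_cast (by positivity : (1 + (l + 1) * ((i : ℕ) + 1) : ℕ) ≠ 0)

theorem trace_top_ne (k : ℕ) : (std (2 * k + 1) (UU k)).trace ≠ 0 := by
  intro h0
  obtain ⟨h1, h2, h3⟩ := integral_Ps k (UU k) (tt k) (tt_ne k)
  rw [h0, mul_zero] at h3
  change Continuous (FF k) at h1
  change Integrable fun y => FF k y * (wt y : ℂ) at h2
  change ∫ y, FF k y * (wt y : ℂ) = 0 at h3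
  let g : (Fin (k + 1) → ℂ) → ℝ := fun y => (sg k * (FF k y * (wt y : ℂ))).re
  have g1 : Continuous g := Complex.continuous_re.comp (continuous_const.mul (h1.mul
    (Complex.continuous_ofReal.comp continuous_wt)))
  have g2 : Integrable g := (h2.const_mul (sg k)).re
  have g3 : ∫ y, g y = 0 := by
    have := integral_re (h2.const_mul (sg k))
    rw [integral_const_mul, h3, mul_zero, map_zero] at this
    exact this
  have g0 : ∀ y, g y = (sg k * FF k y).re * wt y := fun y => by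
    simp only [g]
    rw [← mul_assoc, Complex.re_mul_ofReal]
  have g4 : 0 ≤ᵐ[volume] g := by
    filter_upwards [Measure.ae_eval_ne (fun _ : Fin (k + 1) => (volume : Measure ℂ))
      (Fin.last k) 0] with y hy
    rw [g0]
    exact mul_nonneg (Complex.nonneg_iff.1 (FF_nonneg k y hy)).1 (wt_pos y).le
  have g5 := (g1.ae_eq_iff_eq volume continuous_const).1
    ((integral_eq_zero_iff_of_nonneg_ae g4 g2).1 g3)
  obtain ⟨y, hy, hy'⟩ := exists_FF k
  have g6 := congrFun g5 y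
  rw [g0] at g6
  exact hy' (Complex.ext ((mul_eq_zero.1 g6).resolve_right (wt_pos y).ne')
    (Complex.nonneg_iff.1 hy).2.symm)

theorem PP_top_ne (k : ℕ) : (PP k).eval ((k + 1 : ℕ) : ℤ) ≠ 0 := by
  intro h
  apply trace_top_ne k
  have := SS_mat (R := ℂ) (k + 1) k
  rw [h] at this
  show (SS (eM ℂ (k + 1)) (hM ℂ (k + 1)) (fM ℂ (k + 1)) k).trace = 0
  rw [this]
  simp

theorem PP_large (k : ℕ) : ∃ N : ℕ, ∀ n : ℕ, N ≤ n → (PP k).eval (n : ℤ) ≠ 0 := by
  have h : PP k ≠ 0 := fun h => PP_top_ne k (by rw [h, eval_zero])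
  obtain ⟨N, hN⟩ := ((finite_setOfPred_isRoot h).preimage
    (Nat.cast_injective (R := ℤ)).injOn).bddAbove
  exact ⟨N + 1, fun n hn h0 => by have := hN (a := n) h0; omega⟩

end Pool.Agent.MP_a0341c_al.H44

end

-- part MP_a0341c_al.H44.Gen
section

/-! The reduction of helper83 (files `Core`, `Norm`, `Main`), with the primality hypothesis
replaced by the non-vanishing of the scalar. -/

namespace Pool.Agent.MP_a0341c_al

open Finset Module Matrix

set_option linter.unusedSectionVars false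

section
variable {L : Type*} [LieRing L] [LieAlgebra ℂ L] [FiniteDimensional ℂ L] {I : Type*} [Fintype I]
  [DecidableEq I] (b : Basis I ℂ L) {h e f : L}

theorem core2 (t : IsSl2Triple h e f) {n : ℕ} {κ : Type*} [Fintype κ] [DecidableEq κ]
    (ρ : L →ₗ[ℂ] Matrix (Fin n ⊕ κ) (Fin n ⊕ κ) ℂ)
    (hρ : ∀ x y : L, ρ ⁅x, y⁆ = ρ x * ρ y - ρ y * ρ x) (hinj : Function.Injective ρ)
    (he : ρ e = blk _ _ (eM ℂ n, 0)) (hf : ρ f = blk _ _ (fM ℂ n, 0))
    {κ' : Type} [Fintype κ'] [DecidableEq κ'] [Subsingleton κ'] (us : κ' → L) (s : ℕ)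
    (hus : ∀ i, t.HasPrimitiveVectorWith (us i) ((2 * s : ℕ) : ℂ)) (Ts : κ' → MvPolynomial I ℂ)
    (hTs : ∀ i, IsInv b (s + 1) (Ts i)) (h1 : ∀ i, Phi b (xs f (us i) s) (Ts i) ≠ 0)
    (h2 : ∀ i, (std (2 * s + 1) fun j => ρ (xs f (us i) s j)).trace = 0)
    (hcent : ∀ y, ⁅e, y⁆ = 0 → ∃ (c : Fin n → ℂ) (a : κ' → ℂ),
      ρ (y - ∑ i, a i • us i) = ∑ j, c j • blk _ _ (eM ℂ n ^ (j : ℕ), 0))
    {k : ℕ} (hk0 : k ≠ 0) (hk : k < n → (PP k).eval (n : ℤ) ≠ 0)
    (F : MultilinearMap ℂ (fun _ : Option (Fin k) => L) ℂ)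
    (hF : ∀ (σ : Equiv.Perm (Option (Fin k))) (x : Option (Fin k) → L), F (x ∘ σ) = F x)
    (hF' : ∀ (y : L) (x : Option (Fin k) → L), ∑ i, F (Function.update x i ⁅y, x i⁆) = 0)
    (hx : ∃ x, cartan F x ≠ 0) :
    ∃ u : L, t.HasPrimitiveVectorWith u ((2 * k : ℕ) : ℂ) ∧ cartan F (xs f u k) ≠ 0 := by
  classical
  have hh : ρ h = blk _ _ (hM ℂ n, 0) := by
    rw [← t.lie_e_f, hρ, he, hf, ← map_mul, ← map_mul, ← map_sub]
    simp [hM]
  let E : Fin n → Matrix (Fin n ⊕ κ) (Fin n ⊕ κ) ℂ := fun j => blk _ _ (eM ℂ n ^ (j : ℕ), 0)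
  have hE : ∀ j, ρ h * E j - E j * ρ h = (2 * (j : ℕ) : ℂ) • E j := by
    intro j
    simp only [E]
    rw [hh, ← map_mul, ← map_mul, ← map_sub, ← blk_smul, Prod.mk_mul_mk, Prod.mk_mul_mk,
      Prod.mk_sub_mk, h_eM_pow]
    simp
  let M0 := {j : Fin n // E j ∈ LinearMap.range ρ}
  let u0 : M0 → L := fun j => j.2.choose
  have hu0 : ∀ j, ρ (u0 j) = E j.1 := fun j => j.2.choose_spec
  let u : M0 ⊕ κ' → L := Sum.elim u0 us
  let wt : M0 ⊕ κ' → ℕ := Sum.elim (fun j => j.1) fun _ => s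
  let T : M0 ⊕ κ' → MvPolynomial I ℂ := Sum.elim (fun j => TP b ρ j.1) Ts
  have hhu : ∀ j : M0, ⁅h, u0 j⁆ = (2 * (j.1 : ℕ) : ℂ) • u0 j := fun j => hinj (by
    rw [hρ, map_smul, hu0, hE])
  have S : Slice h f u wt := by
    refine ⟨t.lie_lie_smul_f ℂ, ?_, fun y => ?_⟩
    · rintro (j | i)
      · exact hhu j
      · have := (hus i).lie_h
        push_cast at this
        exact this
    · obtain ⟨z, w, rfl, hw⟩ := exists_decomp t y
      obtain ⟨c, a, hc⟩ := hcent w hw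
      have h3 := mem_of_sum_eigen (LinearMap.mulLeft ℂ (ρ h) - LinearMap.mulRight ℂ (ρ h))
        (LinearMap.range ρ) (by
          rintro _ ⟨x, rfl⟩
          exact ⟨⁅h, x⁆, hρ _ _⟩) (fun j : Fin n => (2 * (j : ℕ) : ℂ))
        (fun a b hab => Fin.ext (by simpa using hab)) univ (fun j => c j • E j) (fun j => by
          rw [map_smul, smul_comm]
          congr 1
          exact hE j) ⟨_, hc⟩
      refine ⟨-z, Sum.elim (fun j => c j.1) a, ?_⟩
      rw [neg_lie, lie_skew, Fintype.sum_sum_type]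
      congr 1
      rw [← sub_eq_iff_eq_add]
      apply hinj
      simp only [Sum.elim_inl, Sum.elim_inr, u]
      rw [hc, map_sum]
      simp only [map_smul, hu0]
      symm
      refine Fintype.sum_of_injective Subtype.val Subtype.val_injective _ _ (fun j hj => ?_)
        fun _ => rfl
      by_contra h4
      have h5 : c j ≠ 0 := fun h5 => h4 (by rw [h5, zero_smul])
      exact hj ⟨⟨j, (Submodule.smul_mem_iff _ h5).1 (h3 j (Finset.mem_univ _))⟩, rfl⟩
  let K : Submodule ℂ (MvPolynomial I ℂ) := ⨅ (d : ℕ) (x : Fin d → L), LinearMap.ker (Phi b x)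
  have hK : ∀ P, P ∈ K ↔ ∀ (d : ℕ) (x : Fin d → L), Phi b x P = 0 := fun P => by
    simp [K, Submodule.mem_iInf]
  have hsum : ∀ (d : ℕ) (c : M0 ⊕ κ' → ℂ), (∀ m, wt m ≠ d → c m = 0) → (∀ i, c (Sum.inr i) = 0) →
      ∑ m, c m • T m = (∑ j, c (Sum.inl j)) • TP b ρ d := by
    intro d c hc hc'
    rw [Fintype.sum_sum_type, Finset.sum_smul]
    simp only [hc', zero_smul, Finset.sum_const_zero, add_zero]
    refine Finset.sum_congr rfl fun j _ => ?_
    by_cases hj : (j.1 : ℕ) = d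
    · rw [← hj]; rfl
    · rw [hc (Sum.inl j) hj, zero_smul, zero_smul]
  have hstar : ∀ (c : M0 ⊕ κ' → ℂ), (∀ m, wt m ≠ s → c m = 0) → ∀ i,
      Phi b (xs f (us i) s) (∑ m, c m • T m) = c (Sum.inr i) * Phi b (xs f (us i) s) (Ts i) := by
    intro c hc i
    rw [map_sum, Finset.sum_eq_single (Sum.inr i)]
    · rw [map_smul]; rfl
    · rintro (j | i') _ hne
      · by_cases hj : (j.1 : ℕ) = s
        · have : T (Sum.inl j) = TP b ρ s := by rw [← hj]; rfl
          rw [this, map_smul, Phi_TP b ρ hρ, h2, mul_zero, smul_zero]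
        · rw [hc (Sum.inl j) hj, zero_smul, map_zero]
      · exact absurd (congrArg _ (Subsingleton.elim _ _)) hne
    · simp
  obtain ⟨c, hc, hcK⟩ := structure_inv b S T (by
      rintro (j | i)
      · exact TP_inv b ρ hρ _
      · exact hTs i) K (fun d d' P Q hP hQ => (hK _).2 fun _ x => Phi_mul b x hP hQ) (by
      intro d c hc h3 h4
      have h5 : ∀ i, c (Sum.inr i) = 0 := by
        intro i
        by_cases hs : s = d
        · subst hs
          have := (hK _).1 h4 _ (xs f (us i) s)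
          rw [hstar c hc] at this
          exact (mul_eq_zero.1 this).resolve_right (h1 i)
        · exact hc _ hs
      funext m
      rcases m with j | i
      · by_cases hj : (j.1 : ℕ) = d
        · have h6 := h3 (Sum.inl j) hj
          rw [hsum d c hc h5, Derivation.map_smul, map_smul, ev_dd_TP, Finset.sum_eq_single j] at h6
          · have h7 : (ρ (u (Sum.inl j)) * ρ f ^ d).trace ≠ 0 := by
              show (ρ (u0 j) * ρ f ^ d).trace ≠ 0
              rw [hu0, hf, ← map_pow, ← map_mul, trace_blk, ← hj]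
              simpa using trace_ef_ne_zero n j.1 j.1.2
            exact (smul_eq_zero.1 h6).resolve_right (mul_ne_zero (Nat.cast_add_one_ne_zero d) h7)
          · intro j' _ hj'
            refine hc _ fun h7 => hj' (Subtype.ext (Fin.ext ?_))
            exact h7.trans hj.symm
          · simp
        · exact hc _ hj
      · exact h5 i) (k := k) (P := PF b F) (by simpa using PF_inv b F hF')
  have hPhi : ∀ x : Fin (2 * k + 1) → L, (k + 1 : ℂ) * cartan F x = Phi b x (∑ m, c m • T m) := by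
    intro x
    have := (hK _).1 hcK _ x
    rw [map_sub, Phi_PF b F hF, sub_eq_zero] at this
    exact this
  by_cases h3 : ∃ i, c (Sum.inr i) ≠ 0
  · obtain ⟨i, hi⟩ := h3
    have hs : s = k := by
      by_contra hs
      exact hi (hc _ hs)
    subst hs
    refine ⟨us i, hus i, fun h4 => ?_⟩
    have := hPhi (xs f (us i) s)
    rw [h4, mul_zero, hstar c hc] at this
    exact mul_ne_zero hi (h1 i) this.symm
  · push Not at h3
    rw [hsum k c hc h3] at hPhi
    have h4 : ∑ j, c (Sum.inl j) ≠ 0 := by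
      intro h4
      obtain ⟨x, hx⟩ := hx
      have := hPhi x
      rw [h4, zero_smul, map_zero] at this
      exact mul_ne_zero (Nat.cast_add_one_ne_zero k) hx this
    obtain ⟨j, -, hj⟩ := Finset.exists_ne_zero_of_sum_ne_zero h4
    have hjk : (j.1 : ℕ) = k := by
      by_contra h5
      exact hj (hc _ h5)
    have h5 : ρ (u0 j) = ρ e ^ k := by
      rw [hu0, he, ← map_pow, Prod.pow_mk, zero_pow hk0, ← hjk]
    have r : Rel (ρ e) (ρ h) (ρ f) := by
      refine ⟨?_, ?_, ?_⟩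
      · rw [← hρ, t.lie_h_e_nsmul, map_nsmul, two_nsmul, two_mul]
      · rw [← hρ, t.lie_h_f_nsmul, map_neg, map_nsmul, two_nsmul, two_mul]
      · rw [← hρ, t.lie_e_f]
    have h6 : ∀ i : ℕ, ρ (dv f (u0 j) i) = uu (ρ e) (ρ h) (ρ f) k i := by
      intro i
      induction i with
      | zero => rw [dv_zero, uu_zero, h5]
      | succ i ih =>
        have h7 := congrArg ρ (f_dv (f := f) (u0 j) i)
        rw [hρ, ih, f_uu r, map_smul, ← Nat.cast_smul_eq_nsmul ℂ] at h7
        push_cast at h7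
        exact (smul_right_injective _ (Nat.cast_add_one_ne_zero i) h7).symm
    have h7 : (std (2 * k + 1) fun i => ρ (xs f (u0 j) k i)).trace ≠ 0 := by
      have h8 : (std (2 * k + 1) fun i => ρ (xs f (u0 j) k i)) = SS (ρ e) (ρ h) (ρ f) k := by
        unfold SS xs
        simp only [h6]
      have h9 : SS (0 : Matrix κ κ ℂ) 0 0 k = 0 := by
        unfold SS
        refine AlternatingMap.map_coord_zero _ 0 ?_
        show uu _ _ _ k 0 = 0
        rw [uu_zero, zero_pow hk0]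
      rw [h8, he, hh, hf, ← map_SS, trace_blk]
      have e1 := map_SS (RingHom.fst (Matrix (Fin n) (Fin n) ℂ) (Matrix κ κ ℂ))
        (eM ℂ n, 0) (hM ℂ n, 0) (fM ℂ n, 0) k
      have e2 := map_SS (RingHom.snd (Matrix (Fin n) (Fin n) ℂ) (Matrix κ κ ℂ))
        (eM ℂ n, 0) (hM ℂ n, 0) (fM ℂ n, 0) k
      simp only [RingHom.coe_fst, RingHom.coe_snd] at e1 e2
      have hn : k < n := hjk ▸ j.1.2
      rw [e1, e2, h9, SS_mat, trace_smul, trace_one, trace_zero, add_zero, Fintype.card_fin,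
        smul_eq_mul]
      refine mul_ne_zero (Int.cast_ne_zero.2 (hk hn)) (Nat.cast_ne_zero.2 (by omega))
    refine ⟨u0 j, ⟨?_, ?_, ?_⟩, fun h8 => ?_⟩
    · intro h8
      apply h7
      rw [AlternatingMap.map_coord_zero _ 0, trace_zero]
      show ρ (dv f (u0 j) 0) = 0
      rw [dv_zero, h8, map_zero]
    · rw [hhu, hjk]
      push_cast
      rfl
    · apply hinj
      rw [hρ, h5, map_zero, sub_eq_zero]
      exact ((Commute.refl _).pow_right k).eq
    · have := hPhi (xs f (u0 j) k)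
      rw [h8, mul_zero, map_smul, Phi_TP b ρ hρ] at this
      exact smul_ne_zero h4 (mul_ne_zero (mul_ne_zero (Nat.cast_add_one_ne_zero k)
        (pow_ne_zero _ two_ne_zero)) h7) this.symm

end

variable {L : Type*} [LieRing L] [LieAlgebra ℂ L] [FiniteDimensional ℂ L] {h e f : L}
  {ν : Type*} [Fintype ν] [DecidableEq ν] {N : ℕ} {w : ℕ → ν → ℂ}

/-- the conclusion of the main argument -/
def Concl2 (t : IsSl2Triple h e f) (k : ℕ) : Prop :=
  ∀ F : MultilinearMap ℂ (fun _ : Option (Fin k) => L) ℂ,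
    (∀ (σ : Equiv.Perm (Option (Fin k))) (x : Option (Fin k) → L), F (x ∘ σ) = F x) →
    (∀ (y : L) (x : Option (Fin k) → L), ∑ i, F (Function.update x i ⁅y, x i⁆) = 0) →
    (∃ x, cartan F x ≠ 0) →
    ∃ u : L, t.HasPrimitiveVectorWith u ((2 * k : ℕ) : ℂ) ∧ cartan F (xs f u k) ≠ 0

theorem single2 (t : IsSl2Triple h e f) (ρ : L →ₗ[ℂ] Matrix ν ν ℂ)
    (hρ : ∀ x y : L, ρ ⁅x, y⁆ = ρ x * ρ y - ρ y * ρ x) (hinj : Function.Injective ρ)
    (C : Chain (ρ e) (ρ f) N w) (hN : Fintype.card ν = N + 1) {k : ℕ} (hk0 : k ≠ 0)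
    (hk : k < N + 1 → (PP k).eval ((N + 1 : ℕ) : ℤ) ≠ 0) : Concl2 t k := by
  intro F hF hF' hx
  let c : Basis (Fin (N + 1) ⊕ Empty) ℂ (ν → ℂ) := basisOfLinearIndependentOfCardEqFinrank'
    (cv N w ∘ Equiv.sumEmpty _ _) (C.cv_indep.comp _ (Equiv.injective _)) (by simp [hN])
  have hc : ∀ j, c (Sum.inl j) = cv N w j := fun j => by simp [c]
  let ρ' : L →ₗ[ℂ] Matrix (Fin (N + 1) ⊕ Empty) (Fin (N + 1) ⊕ Empty) ℂ :=
    (Psi c).toLinearMap ∘ₗ ρ
  have hρ' : ∀ x, ρ' x = Psi c (ρ x) := fun _ => rfl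
  have he : ρ' e = blk _ _ (eM ℂ (N + 1), 0) :=
    Psi_blk c _ _ (fun j => by simp only [hc, C.e_cv]) fun k => k.elim
  have hb : ∀ x y : L, ρ' ⁅x, y⁆ = ρ' x * ρ' y - ρ' y * ρ' x := fun x y => by
    simp only [hρ', hρ, map_sub, map_mul]
  refine core2 (Module.finBasis ℂ L) t ρ' hb ((Psi c).injective.comp hinj) he
    (Psi_blk c _ _ (fun j => by simp only [hc, C.f_cv]) fun k => k.elim) (κ' := Empty)
    Empty.elim 0 (fun i => i.elim) Empty.elim (fun i => i.elim) (fun i => i.elim) (fun i => i.elim)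
    (fun y hy => ?_) hk0 hk F hF hF' hx
  obtain ⟨c, hc⟩ := cent_blk (ρ' y) (fun _ k => k.elim) (fun k => k.elim) (by
    rw [← he, eq_comm, ← sub_eq_zero, ← hb, hy, map_zero])
  exact ⟨c, 0, by simpa using hc⟩

theorem evenOrth2 {s : ℕ} (t : IsSl2Triple h e f)
    (ρ : L →ₗ[ℂ] Matrix (Fin (2 * s + 1 + 1)) (Fin (2 * s + 1 + 1)) ℂ)
    (hρ : ∀ x y : L, ρ ⁅x, y⁆ = ρ x * ρ y - ρ y * ρ x) (hinj : Function.Injective ρ)
    (hs : ∀ x, (ρ x)ᵀ = -ρ x) (hsurj : ∀ A, Aᵀ = -A → ∃ x, ρ x = A)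
    {w : ℕ → Fin (2 * s + 1 + 1) → ℂ} (C : Chain (ρ e) (ρ f) (2 * s) w) {k : ℕ} (hk0 : k ≠ 0)
    (hk : k < 2 * s + 1 → (PP k).eval ((2 * s + 1 : ℕ) : ℤ) ≠ 0) : Concl2 t k := by
  intro F hF hF' hx
  have hs0 : s ≠ 0 := by
    rintro rfl
    have : ρ e ^ 1 = 0 := C.nil
    rw [pow_one, ← map_zero ρ] at this
    exact t.e_ne_zero (hinj this)
  let W : Matrix (Fin (2 * s + 1)) (Fin (2 * s + 1 + 1)) ℂ := Matrix.of fun j => w j
  have h1 : finrank ℂ (LinearMap.ker W.mulVecLin) = 1 := by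
    have h2 : W.rank = Fintype.card (Fin (2 * s + 1)) := LinearIndependent.rank_matrix C.indep
    have h3 := LinearMap.finrank_range_add_finrank_ker W.mulVecLin
    rw [Matrix.rank, Fintype.card_fin] at h2
    rw [h2, finrank_fin_fun] at h3
    omega
  obtain ⟨⟨u, hu⟩, hu0, hu1⟩ := finrank_eq_one_iff'.1 h1
  have hmem : ∀ v, v ∈ LinearMap.ker W.mulVecLin ↔ ∀ j : Fin (2 * s + 1), w j ⬝ᵥ v = 0 :=
    fun v => funext_iff
  have hw : ∀ j : ℕ, w j ⬝ᵥ u = 0 := by
    intro j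
    induction j with
    | zero => exact (hmem u).1 hu 0
    | succ j ih =>
      by_cases hj : j + 1 < 2 * s + 1
      · exact (hmem u).1 hu ⟨j + 1, hj⟩
      · have h2 : ∀ i, w (2 * s + 1 + i) = 0 := by
          intro i
          induction i with
          | zero => exact C.top
          | succ i ih =>
            have := C.hf (2 * s + 1 + i)
            rw [ih, mulVec_zero, eq_comm, smul_eq_zero] at this
            exact this.resolve_left (Nat.cast_add_one_ne_zero _)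
        have := h2 (j - 2 * s)
        rw [show 2 * s + 1 + (j - 2 * s) = j + 1 by omega] at this
        rw [this, zero_dotProduct]
  have hu2 : ∀ v, (∀ j : Fin (2 * s + 1), w j ⬝ᵥ v = 0) → ∃ a : ℂ, a • u = v := fun v hv => by
    obtain ⟨a, ha⟩ := hu1 ⟨v, (hmem v).2 hv⟩
    exact ⟨a, congrArg Subtype.val ha⟩
  have hu3 : u ≠ 0 := fun h => hu0 (Subtype.ext h)
  have heu : ρ e *ᵥ u = 0 := by
    obtain ⟨a, ha⟩ := hu2 (ρ e *ᵥ u) fun j => by
      rw [← neg_eq_zero, ← skew_dot _ (hs e)]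
      obtain ⟨j, hj⟩ := j
      cases j with
      | zero => rw [C.he0, zero_dotProduct]
      | succ j => rw [C.he, smul_dotProduct, hw, smul_zero]
    have h2 : ∀ i : ℕ, ρ e ^ i *ᵥ u = a ^ i • u := by
      intro i
      induction i with
      | zero => simp
      | succ i ih => rw [pow_succ', ← mulVec_mulVec, ih, mulVec_smul, ← ha, smul_smul, pow_succ]
    have h3 := h2 (2 * s + 1)
    rw [C.nil, zero_mulVec, eq_comm, smul_eq_zero] at h3
    rw [← ha, pow_eq_zero_iff (by omega) |>.1 (h3.resolve_right hu3), zero_smul]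
  have hfu : ρ f *ᵥ u = 0 := by
    obtain ⟨a, ha⟩ := hu2 (ρ f *ᵥ u) fun j => by
      rw [← neg_eq_zero, ← skew_dot _ (hs f), C.hf, smul_dotProduct, hw, smul_zero]
    apply C.ker
    rw [← ha, mulVec_smul, heu, smul_zero]
  have hi : LinearIndependent ℂ
      (Fin.cons u (fun j : Fin (2 * s + 1) => w j) : Fin (2 * s + 1 + 1) → _) := by
    refine linearIndependent_finCons.2 ⟨C.indep, fun h2 => ?_⟩
    obtain ⟨a, ha⟩ := C.eq_smul h2 heu
    have h3 := hfu
    rw [ha, mulVec_smul, C.hf, smul_smul, smul_eq_zero] at h3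
    have h4 : w (0 + 1) ≠ 0 := C.indep.ne_zero ⟨1, by omega⟩
    have h5 : a = 0 := by simpa using h3.resolve_right h4
    exact hu3 (by rw [ha, h5, zero_smul])
  have hdec : ∀ v, ∃ a : ℂ,
      v - a • u ∈ Submodule.span ℂ (Set.range fun j : Fin (2 * s + 1) => w j) := by
    intro v
    have h2 := hi.span_eq_top_of_card_eq_finrank' (by simp)
    obtain ⟨c, rfl⟩ := (Submodule.mem_span_range_iff_exists_fun ℂ).1
      (h2 ▸ Submodule.mem_top (x := v))
    refine ⟨c 0, ?_⟩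
    rw [Fin.sum_univ_succ, Fin.cons_zero, add_sub_cancel_left]
    exact Submodule.sum_mem _ fun j _ => Submodule.smul_mem _ _ (Submodule.subset_span ⟨j, rfl⟩)
  have hperp : ∀ v ∈ Submodule.span ℂ (Set.range fun j : Fin (2 * s + 1) => w j), v ⬝ᵥ u = 0 := by
    intro v hv
    obtain ⟨c, rfl⟩ := (Submodule.mem_span_range_iff_exists_fun ℂ).1 hv
    simp [sum_dotProduct, hw]
  have huu : u ⬝ᵥ u ≠ 0 := by
    intro h2
    apply hu3
    funext i
    obtain ⟨a, ha⟩ := hdec (Pi.single i 1)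
    have := hperp _ ha
    rw [sub_dotProduct, smul_dotProduct, h2, smul_zero, sub_zero] at this
    simpa using this
  have hin : ∀ v, v ⬝ᵥ u = 0 →
      v ∈ Submodule.span ℂ (Set.range fun j : Fin (2 * s + 1) => w j) := by
    intro v hv
    obtain ⟨a, ha⟩ := hdec v
    have := hperp _ ha
    rw [sub_dotProduct, smul_dotProduct, hv, zero_sub, neg_eq_zero, smul_eq_zero] at this
    simpa [this.resolve_right huu] using ha
  have hcu : ∀ j, cv (2 * s) w j ⬝ᵥ u = 0 := fun j => by rw [cv, smul_dotProduct, hw, smul_zero]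
  have hi2 : LinearIndependent ℂ (Sum.elim (cv (2 * s) w) fun _ : Unit => u) := by
    rw [Fintype.linearIndependent_iff]
    intro g hg
    rw [Fintype.sum_sum_type] at hg
    simp only [Sum.elim_inl, Sum.elim_inr, Finset.univ_unique, Finset.sum_singleton] at hg
    have h2 := congrArg (· ⬝ᵥ u) hg
    simp only [add_dotProduct, sum_dotProduct, smul_dotProduct, hcu, smul_zero,
      Finset.sum_const_zero, zero_add, zero_dotProduct, smul_eq_zero] at h2
    have h3 := h2.resolve_right huu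
    rw [h3, zero_smul, add_zero] at hg
    rintro (j | j)
    · exact Fintype.linearIndependent_iff.1 C.cv_indep _ hg j
    · exact h3
  let c : Basis (Fin (2 * s + 1) ⊕ Unit) ℂ (Fin (2 * s + 1 + 1) → ℂ) :=
    basisOfLinearIndependentOfCardEqFinrank' _ hi2 (by simp)
  have hc : ∀ j, c (Sum.inl j) = cv (2 * s) w j := fun j => by simp [c]
  have hc' : ∀ j, c (Sum.inr j) = u := fun j => by simp [c]
  have hrepr : ∀ v j, v ⬝ᵥ u = 0 → c.repr v (Sum.inr j) = 0 := by
    intro v j hv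
    rw [← c.sum_repr v, Fintype.sum_sum_type] at hv
    simp only [hc, hc', Finset.univ_unique, Finset.sum_singleton, add_dotProduct, sum_dotProduct,
      smul_dotProduct, hcu, smul_zero, Finset.sum_const_zero, zero_add, smul_eq_zero] at hv
    exact hv.resolve_right huu
  let ρ' : L →ₗ[ℂ] Matrix (Fin (2 * s + 1) ⊕ Unit) (Fin (2 * s + 1) ⊕ Unit) ℂ :=
    (Psi c).toLinearMap ∘ₗ ρ
  have hρ' : ∀ x, ρ' x = Psi c (ρ x) := fun _ => rfl
  have he : ρ' e = blk _ _ (eM ℂ (2 * s + 1), 0) :=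
    Psi_blk c _ _ (fun j => by simp only [hc, C.e_cv]) fun k => by rw [hc', heu]
  have hb : ∀ x y : L, ρ' ⁅x, y⁆ = ρ' x * ρ' y - ρ' y * ρ' x := fun x y => by
    simp only [hρ', hρ, map_sub, map_mul]
  obtain ⟨us, hus⟩ := hsurj (RR (w 0) u) (by simp [RR])
  have hRR0 : ∀ a : Fin (2 * s + 1 + 1) → ℂ, RR a 0 = 0 := fun a => by simp [RR]
  have hRR1 : ∀ (r : ℂ) (a : Fin (2 * s + 1 + 1) → ℂ), RR (r • a) u = r • RR a u := fun r a => by
    simp [RR, smul_sub]
  have hP : t.HasPrimitiveVectorWith us ((2 * s : ℕ) : ℂ) := by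
    refine ⟨?_, hinj ?_, hinj ?_⟩
    · intro h2
      have h3 := congrArg (· *ᵥ u) hus
      simp only [h2, map_zero, zero_mulVec, RR_mulVec, hw, zero_smul, sub_zero] at h3
      exact smul_ne_zero huu (C.indep.ne_zero 0) h3.symm
    · have h2 : ρ h = ρ e * ρ f - ρ f * ρ e := by rw [← hρ, t.lie_e_f]
      rw [hρ, hus, RR_lie _ (hs h), map_smul, hus, h2, C.hh, sub_mulVec, ← mulVec_mulVec,
        ← mulVec_mulVec, heu, hfu, hRR1]
      simp [hRR0]
    · rw [hρ, hus, RR_lie _ (hs e), heu, C.he0, map_zero]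
      simp [RR]
  have hxs : ∀ j : ℕ, ρ (dv f us j) = RR (w j) u := by
    intro j
    induction j with
    | zero => rw [dv_zero, hus]
    | succ j ih =>
      have h7 := congrArg ρ (f_dv (f := f) us j)
      rw [hρ, ih, RR_lie _ (hs f), hfu, hRR0, add_zero, C.hf, hRR1, map_smul] at h7
      exact (smul_right_injective _ (Nat.cast_add_one_ne_zero j) h7).symm
  refine core2 (Module.finBasis ℂ L) t ρ' hb ((Psi c).injective.comp hinj) he
    (Psi_blk c _ _ (fun j => by simp only [hc, C.f_cv]) fun k => by rw [hc', hfu]) (κ' := Unit)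
    (fun _ => us) s (fun _ => hP) (fun _ => PF (Module.finBasis ℂ L) (pfF ρ (Option (Fin s))))
    (fun _ => ?_)
    (fun _ => ?_) (fun _ => ?_) (fun y hy => ?_) hk0 hk F hF hF' hx
  · simpa using PF_inv (Module.finBasis ℂ L) _ (pfF_inv (J := Option (Fin s)) ρ hρ hs)
  · rw [Phi_PF _ _ (pfF_symm ρ)]
    exact mul_ne_zero (Nat.cast_add_one_ne_zero s)
      (cartan_pf ρ hρ _ (fun j => w j) u (fun j => hxs j) (fun j => hw j) huu hi)
  · let S : Matrix (Fin (2 * s + 1 + 1)) (Fin (2 * s + 1 + 1)) ℂ :=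
      1 - (2 / (u ⬝ᵥ u)) • vecMulVec u u
    have hS : S * S = 1 := by
      simp only [S, mul_sub, sub_mul, mul_one, one_mul, smul_mul_assoc, mul_smul_comm,
        vecMulVec_mul_vecMulVec, vecMulVec_smul, smul_sub, smul_smul]
      match_scalars <;> field_simp <;> ring
    refine trace_std_odd (Psi c S) (by rw [← map_mul, hS, map_one]) _ fun j => ?_
    rw [hρ', ← map_mul, ← map_mul, ← map_neg]
    congr 1
    have h2 : ρ (xs f us s j) = RR (w j) u := hxs j
    have h3 := hw j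
    rw [h2]
    simp only [S, RR, mul_sub, sub_mul, mul_one, one_mul, smul_mul_assoc, mul_smul_comm,
      vecMulVec_mul_vecMulVec, vecMulVec_smul, smul_sub, smul_smul, h3, dotProduct_comm u (w j),
      zero_smul, vecMulVec_zero, smul_zero, zero_mul]
    match_scalars <;> field_simp <;> ring
  · have h2 : ρ e * ρ y = ρ y * ρ e := by rw [← sub_eq_zero, ← hρ, hy, map_zero]
    have h3 : (ρ y *ᵥ u) ⬝ᵥ u = 0 := by
      have := skew_dot _ (hs y) u u
      rw [dotProduct_comm u] at this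
      exact self_eq_neg.1 this
    obtain ⟨a, ha⟩ := C.eq_smul (hin _ h3) (by
      rw [mulVec_mulVec, h2, ← mulVec_mulVec, heu, mulVec_zero])
    have h4 : ρ (y - (a / (u ⬝ᵥ u)) • us) *ᵥ u = 0 := by
      rw [map_sub, map_smul, hus, sub_mulVec, smul_mulVec, RR_mulVec, hw, zero_smul, sub_zero,
        smul_smul, div_mul_cancel₀ _ huu, ha, sub_self]
    obtain ⟨c', hc2⟩ := cent_blk (ρ' (y - (a / (u ⬝ᵥ u)) • us)) (fun i k => by
      rw [hρ', Psi_apply, hc', h4]; simp) (fun k j => by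
      rw [hρ', Psi_apply]
      apply hrepr
      rw [skew_dot _ (hs _), h4, dotProduct_zero, neg_zero]) (by
      rw [← he, eq_comm, ← sub_eq_zero, ← hb, lie_sub, lie_smul, hy, hP.lie_e]
      simp)
    exact ⟨c', fun _ => a / (u ⬝ᵥ u), by simpa using hc2⟩

theorem concl_sl2 {n : ℕ} (t : IsSl2Triple h e f) (ρ : L →ₗ[ℂ] Matrix (Fin n) (Fin n) ℂ)
    (hρ : ∀ x y : L, ρ ⁅x, y⁆ = ρ x * ρ y - ρ y * ρ x) (hinj : Function.Injective ρ)
    (hr : LinearMap.range ρ = LinearMap.ker (traceLinearMap (Fin n) ℂ ℂ))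
    (hreg : ∀ y : L, finrank ℂ (LinearMap.ker (LieAlgebra.ad ℂ L e)) ≤
      finrank ℂ (LinearMap.ker (LieAlgebra.ad ℂ L y))) {k : ℕ} (hk0 : k ≠ 0)
    (hk : ∀ a : ℕ, a ≤ n → n ≤ a + 1 → k < a → (PP k).eval (a : ℤ) ≠ 0) : Concl2 t k := by
  have := nonempty_index t ρ hinj
  obtain ⟨N, w, C⟩ := exists_chain t ρ hρ
  suffices hN : Fintype.card (Fin n) = N + 1 by
    refine single2 t ρ hρ hinj C hN hk0 (hk _ ?_ ?_) <;> rw [Fintype.card_fin] at hN <;> omega
  by_contra hne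
  have h1 := cen_lower C.nil C.ne (lt_of_le_of_ne C.le_card (Ne.symm hne))
  obtain ⟨y, hy⟩ : tri n ∈ LinearMap.range ρ := by
    rw [hr, LinearMap.mem_ker, traceLinearMap_apply]
    have h2 := congrArg trace (tri_skew n)
    rw [trace_transpose, trace_neg] at h2
    exact self_eq_neg.1 h2
  have h2 := hreg y
  rw [finrank_ker_ad ρ hρ hinj, finrank_ker_ad ρ hρ hinj, hy] at h2
  have h3 : ∀ A : Matrix (Fin n) (Fin n) ℂ, Cen A ⊔ LinearMap.range ρ = ⊤ := by
    intro A
    rw [eq_top_iff]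
    intro B _
    have hn : (n : ℂ) ≠ 0 := by
      have := Fintype.card_ne_zero (α := Fin n)
      simpa using this
    refine Submodule.mem_sup.2 ⟨(B.trace / n) • 1, Submodule.smul_mem _ _ (mem_Cen.2 (by simp)),
      B - (B.trace / n) • 1, ?_, by simp⟩
    rw [hr, LinearMap.mem_ker, traceLinearMap_apply, trace_sub, trace_smul, trace_one,
      Fintype.card_fin, smul_eq_mul, div_mul_cancel₀ _ hn, sub_self]
  have h4 := Submodule.finrank_sup_add_finrank_inf_eq (Cen (ρ e)) (LinearMap.range ρ)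
  have h5 := Submodule.finrank_sup_add_finrank_inf_eq (Cen (tri n)) (LinearMap.range ρ)
  rw [h3] at h4 h5
  have h6 := tri_upper n
  rw [Fintype.card_fin] at h1
  omega

theorem concl_so2 {n : ℕ} (t : IsSl2Triple h e f) (ρ : L →ₗ[ℂ] Matrix (Fin n) (Fin n) ℂ)
    (hρ : ∀ x y : L, ρ ⁅x, y⁆ = ρ x * ρ y - ρ y * ρ x) (hinj : Function.Injective ρ)
    (hr : LinearMap.range ρ = skew 1)
    (hreg : ∀ y : L, finrank ℂ (LinearMap.ker (LieAlgebra.ad ℂ L e)) ≤
      finrank ℂ (LinearMap.ker (LieAlgebra.ad ℂ L y))) {k : ℕ} (hk0 : k ≠ 0)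
    (hk : ∀ a : ℕ, a ≤ n → n ≤ a + 1 → k < a → (PP k).eval (a : ℤ) ≠ 0) : Concl2 t k := by
  have := nonempty_index t ρ hinj
  obtain ⟨N, w, C⟩ := exists_chain t ρ hρ
  have hs : ∀ A, A ∈ LinearMap.range ρ ↔ Aᵀ = -A := fun A => by simp [hr, mem_skew]
  have h1 := form_lower C.nil C.ne 1 isUnit_one 0 (by norm_num) (by simp) (hr ▸ ⟨e, rfl⟩)
  obtain ⟨y, hy⟩ := (hs _).2 (tri_skew n)
  have h2 := hreg y
  rw [finrank_ker_ad ρ hρ hinj, finrank_ker_ad ρ hρ hinj, hy, hr] at h2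
  have h3 := tri_upper' n
  have h4 := C.le_card
  by_cases hN : Fintype.card (Fin n) = N + 1
  · refine single2 t ρ hρ hinj C hN hk0 (hk _ ?_ ?_) <;> rw [Fintype.card_fin] at hN <;> omega
  · rw [Fintype.card_fin] at h1 h4 hN
    obtain ⟨s, rfl, rfl⟩ : ∃ s, N = 2 * s ∧ n = 2 * s + 1 + 1 := ⟨N / 2, by omega, by omega⟩
    exact evenOrth2 t ρ hρ hinj (fun x => (hs _).1 ⟨x, rfl⟩) (fun A hA => (hs A).2 hA) C hk0
      (hk _ (by omega) (by omega))

theorem concl_sp2 {m : ℕ} (t : IsSl2Triple h e f)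
    (ρ : L →ₗ[ℂ] Matrix (Fin m ⊕ Fin m) (Fin m ⊕ Fin m) ℂ)
    (hρ : ∀ x y : L, ρ ⁅x, y⁆ = ρ x * ρ y - ρ y * ρ x) (hinj : Function.Injective ρ)
    (hr : LinearMap.range ρ = skew (J (Fin m) ℂ))
    (hreg : ∀ y : L, finrank ℂ (LinearMap.ker (LieAlgebra.ad ℂ L e)) ≤
      finrank ℂ (LinearMap.ker (LieAlgebra.ad ℂ L y))) {k : ℕ} (hk0 : k ≠ 0)
    (hk : ∀ a : ℕ, a ≤ m + m → m + m ≤ a + 1 → k < a → (PP k).eval (a : ℤ) ≠ 0) : Concl2 t k := by
  have := nonempty_index t ρ hinj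
  obtain ⟨N, w, C⟩ := exists_chain t ρ hρ
  suffices hN : Fintype.card (Fin m ⊕ Fin m) = N + 1 by
    refine single2 t ρ hρ hinj C hN hk0 (hk _ ?_ ?_) <;>
      simp only [Fintype.card_sum, Fintype.card_fin] at hN <;> omega
  have h1 := form_lower C.nil C.ne (J (Fin m) ℂ) ((isUnit_iff_isUnit_det _).2 (isUnit_det_J _ _)) 1
    le_rfl (by simp) (hr ▸ ⟨e, rfl⟩)
  obtain ⟨y, hy⟩ : dsp m ∈ LinearMap.range ρ := hr ▸ dsp_skew m
  have h2 := hreg y
  rw [finrank_ker_ad ρ hρ hinj, finrank_ker_ad ρ hρ hinj, hy, hr] at h2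
  have h3 := dsp_upper m
  have h4 := C.le_card
  simp only [Fintype.card_sum, Fintype.card_fin] at h1 h4 ⊢
  omega

attribute [local instance 100] LieRing.ofAssociativeRing

theorem concl_sl3 (t : IsSl2Triple h e f) {n : ℕ}
    (φ : L ≃ₗ⁅ℂ⁆ LieAlgebra.SpecialLinear.sl (Fin n) ℂ)
    (hreg : ∀ y : L, finrank ℂ (LinearMap.ker (LieAlgebra.ad ℂ L e)) ≤
      finrank ℂ (LinearMap.ker (LieAlgebra.ad ℂ L y))) {k : ℕ} (hk0 : k ≠ 0)
    (hk : ∀ a : ℕ, a ≤ n → n ≤ a + 1 → k < a → (PP k).eval (a : ℤ) ≠ 0) : Concl2 t k := by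
  obtain ⟨ρ, h1, h2, h3⟩ := exists_rep _ φ
  exact concl_sl2 t ρ h1 h2 (Submodule.ext fun A => h3 A) hreg hk0 hk

theorem concl_so3 (t : IsSl2Triple h e f) {n : ℕ}
    (φ : L ≃ₗ⁅ℂ⁆ LieAlgebra.Orthogonal.so (Fin n) ℂ)
    (hreg : ∀ y : L, finrank ℂ (LinearMap.ker (LieAlgebra.ad ℂ L e)) ≤
      finrank ℂ (LinearMap.ker (LieAlgebra.ad ℂ L y))) {k : ℕ} (hk0 : k ≠ 0)
    (hk : ∀ a : ℕ, a ≤ n → n ≤ a + 1 → k < a → (PP k).eval (a : ℤ) ≠ 0) : Concl2 t k := by
  obtain ⟨ρ, h1, h2, h3⟩ := exists_rep _ φ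
  refine concl_so2 t ρ h1 h2 (Submodule.ext fun A => (h3 A).trans ?_) hreg hk0 hk
  simp [mem_skew]

theorem concl_sp3 (t : IsSl2Triple h e f) {m : ℕ}
    (φ : L ≃ₗ⁅ℂ⁆ LieAlgebra.Symplectic.sp (Fin m) ℂ)
    (hreg : ∀ y : L, finrank ℂ (LinearMap.ker (LieAlgebra.ad ℂ L e)) ≤
      finrank ℂ (LinearMap.ker (LieAlgebra.ad ℂ L y))) {k : ℕ} (hk0 : k ≠ 0)
    (hk : ∀ a : ℕ, a ≤ m + m → m + m ≤ a + 1 → k < a → (PP k).eval (a : ℤ) ≠ 0) :
    Concl2 t k := by
  obtain ⟨ρ, h1, h2, h3⟩ := exists_rep _ φ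
  refine concl_sp2 t ρ h1 h2 (Submodule.ext fun A => (h3 A).trans ?_) hreg hk0 hk
  rw [LieAlgebra.Symplectic.sp, mem_skewAdjointMatricesLieSubalgebra,
    mem_skewAdjointMatricesSubmodule]
  rfl

theorem concl_top (t : IsSl2Triple h e f) {k : ℕ}
    (hL : Nonempty (L ≃ₗ⁅ℂ⁆ LieAlgebra.SpecialLinear.sl (Fin (k + 1)) ℂ) ∨
      ∃ m : ℕ, 2 * m = k + 1 ∧ Nonempty (L ≃ₗ⁅ℂ⁆ LieAlgebra.Symplectic.sp (Fin m) ℂ))
    (hreg : ∀ y : L, finrank ℂ (LinearMap.ker (LieAlgebra.ad ℂ L e)) ≤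
      finrank ℂ (LinearMap.ker (LieAlgebra.ad ℂ L y))) : Concl2 t k := by
  obtain ⟨⟨φ⟩⟩ | ⟨m, hm, ⟨φ⟩⟩ := hL
  · refine concl_sl3 t φ hreg ?_ fun a h1 _ h2 => ?_
    · rintro rfl
      apply t.e_ne_zero
      apply φ.injective
      rw [map_zero]
      apply Subtype.ext
      have h1 : (φ e).1.trace = 0 := (φ e).2
      funext i j
      rw [Fin.fin_one_eq_zero i, Fin.fin_one_eq_zero j]
      simpa [Matrix.trace] using h1
    · rw [show a = k + 1 by omega]
      exact H44.PP_top_ne k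
  · refine concl_sp3 t φ hreg (by omega) fun a h1 _ h2 => ?_
    rw [show a = k + 1 by omega]
    exact H44.PP_top_ne k

theorem finish2 {t : IsSl2Triple h e f} {k : ℕ} (H : Concl2 t k)
    (F : MultilinearMap ℂ (fun _ : Option (Fin k) => L) ℂ)
    (hF : ∀ (σ : Equiv.Perm (Option (Fin k))) (x : Option (Fin k) → L), F (x ∘ σ) = F x)
    (hF' : ∀ (y : L) (x : Option (Fin k) → L),
      ∑ i : Option (Fin k), F (Function.update x i ⁅y, x i⁆) = 0)
    (hx : ∃ x : Option (Fin k × Bool) → L,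
      (∑ σ : Equiv.Perm (Option (Fin k × Bool)),
        (((Equiv.Perm.sign σ : ℤ) : ℂ) *
          F (fun j : Option (Fin k) => Option.elim j (x (σ none))
            (fun i => ⁅x (σ (some (i, false))), x (σ (some (i, true)))⁆)))) ≠ 0) :
    ∃ V : Submodule ℂ L,
      Module.finrank ℂ V = 2 * k + 1 ∧
      (∀ v ∈ V, ⁅e, v⁆ ∈ V ∧ ⁅h, v⁆ ∈ V ∧ ⁅f, v⁆ ∈ V) ∧
      (∀ W : Submodule ℂ L, W ≤ V →
        (∀ w ∈ W, ⁅e, w⁆ ∈ W ∧ ⁅h, w⁆ ∈ W ∧ ⁅f, w⁆ ∈ W) → W = ⊥ ∨ W = V) ∧
      ∃ x : Option (Fin k × Bool) → L, (∀ a, x a ∈ V) ∧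
        (∑ σ : Equiv.Perm (Option (Fin k × Bool)),
          (((Equiv.Perm.sign σ : ℤ) : ℂ) *
            F (fun j : Option (Fin k) => Option.elim j (x (σ none))
              (fun i => ⁅x (σ (some (i, false))), x (σ (some (i, true)))⁆)))) ≠ 0 := by
  obtain ⟨x, hx⟩ := hx
  rw [cartan_eq] at hx
  obtain ⟨u, P, hu⟩ := H F hF hF' ⟨_, hx⟩
  obtain ⟨V, h1, h2, h3, h4⟩ := irred_span P
  refine ⟨V, h1, h2, h3, xs f u k ∘ en k, fun a => h4 _, ?_⟩
  rw [cartan_eq]
  simpa [Function.comp_def] using hu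

end Pool.Agent.MP_a0341c_al

end
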