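import Pool.Agent.MP_a0341c_al.Cyc
import Pool.Agent.MP_a0341c_al.Mg.Pf
import Pool.Agent.MP_a0341c_al.Sl2

-- part MP_a0341c_al.ModP
section

/-! The scalar does not vanish when `2 k + 1` is prime. -/

namespace Pool.Agent.MP_a0341c_al

open Polynomial Finset Equiv

section Mat
variable {R : Type*} [CommRing R]

lemma map_Ea {A B : Type*} [Ring A] [Ring B] (φ : A →+* B) (e h f : A) (a : ℤ) :
    φ (Ea e h f a) = Ea (φ e) (φ h) (φ f) a := by
  simp only [Ea, map_sub, map_zsmul]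

lemma EaO_apply (l : R) (a : ℤ) (q : R[X]) :
    Ea (eO l) (hO l) (fO R) a q = C l * (X + C (a : R)) * q - (X + C (a : R)) ^ 2 * derivative q := by
  simp only [Ea, LinearMap.sub_apply, LinearMap.smul_apply, eO_apply, hO_apply, fO_apply]
  simp only [zsmul_eq_mul, eq_intCast, map_intCast]
  push_cast
  ring

variable [DecidableEq R]

lemma inter_Ea (n : ℕ) (a : ℤ) : (act R n (Ea (eM R n) (hM R n) (fM R n) a),
    Ea (eO ((n : R) - 1)) (hO ((n : R) - 1)) (fO R) a) ∈ inter (emb R n) := by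
  have h := (inter (emb R n)).sub_mem ((inter (emb R n)).sub_mem (inter_eM n)
    ((inter (emb R n)).zsmul_mem (inter_hM n) a)) ((inter (emb R n)).zsmul_mem (inter_fM n) (a ^ 2))
  rw [Prod.smul_mk, Prod.smul_mk, Prod.mk_sub_mk, Prod.mk_sub_mk] at h
  rw [map_Ea, Ea, Ea]
  exact h

lemma g_Ea (n : ℕ) (b : ℤ) :
    gM n (b : R) * eM R n = Ea (eM R n) (hM R n) (fM R n) b * gM n (b : R) := by
  have h1 := (inter (emb R n)).mul_mem (inter_gM n (b : R)) (inter_eM n)
  have h2 := (inter (emb R n)).mul_mem (inter_Ea n b) (inter_gM n (b : R))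
  rw [Prod.mk_mul_mk, ← map_mul] at h1 h2
  refine eq_of_inter h1 ?_
  have : (taylor (b : R)).restrictScalars ℤ * eO ((n : R) - 1) =
      Ea (eO ((n : R) - 1)) (hO ((n : R) - 1)) (fO R) b * (taylor (b : R)).restrictScalars ℤ := by
    refine LinearMap.ext fun q => ?_
    show taylor (b : R) (eO _ q) = Ea (eO ((n : R) - 1)) (hO ((n : R) - 1)) (fO R) b (taylor (b : R) q)
    rw [EaO_apply, eO_apply, map_sub, taylor_mul, taylor_mul, taylor_mul, taylor_C, taylor_X,
      taylor_X_pow]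
    congr 2
    rw [taylor_apply, taylor_apply, derivative_comp]
    simp
  rw [this]
  exact h2

lemma gM_add (n : ℕ) (a b : R) : gM n (a + b) = gM n a * gM n b := by
  have h1 := (inter (emb R n)).mul_mem (inter_gM n a) (inter_gM n b)
  rw [Prod.mk_mul_mk, ← map_mul] at h1
  refine eq_of_inter (inter_gM n (a + b)) ?_
  have : (taylor (a + b)).restrictScalars ℤ =
      (taylor a).restrictScalars ℤ * (taylor b).restrictScalars ℤ :=
    LinearMap.ext fun q => (taylor_taylor q a b).symm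
  rw [this]
  exact h1

lemma gM_zero (n : ℕ) : gM n (0 : R) = 1 := by
  refine eq_of_inter (inter_gM n (0 : R)) ?_
  have : (taylor (0 : R)).restrictScalars ℤ = 1 := LinearMap.ext fun q => taylor_zero q
  rw [this, map_one]
  exact (inter (emb R n)).one_mem

lemma Ea_pow_conj (n k : ℕ) (b : ℤ) :
    Ea (eM R n) (hM R n) (fM R n) b ^ k = gM n (b : R) * eM R n ^ k * gM n (-(b : R)) := by
  have h1 : gM n (-(b : R)) * gM n (b : R) = 1 := by rw [← gM_add, neg_add_cancel, gM_zero]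
  have h2 : gM n (b : R) * gM n (-(b : R)) = 1 := by rw [← gM_add, add_neg_cancel, gM_zero]
  induction k with
  | zero => simp [h2]
  | succ k ih =>
    rw [pow_succ', ih, ← mul_assoc, ← mul_assoc, ← g_Ea, pow_succ']
    simp only [mul_assoc]

end Mat

lemma sum_choose_mul (b : ℕ) : ∀ (N a : ℕ),
    ∑ z ∈ antidiagonal N, z.1.choose a * z.2.choose b = (N + 1).choose (a + b + 1)
  | 0, a => by
    cases a <;> cases b <;> simp [Nat.choose]
  | N + 1, 0 => by
    rw [Finset.Nat.sum_antidiagonal_succ]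
    have := sum_choose_mul b N 0
    simp only [Nat.choose_zero_right, one_mul, zero_add] at this ⊢
    rw [this, Nat.choose_succ_succ' (N + 1) b]
  | N + 1, a + 1 => by
    rw [Finset.Nat.sum_antidiagonal_succ]
    simp only [Nat.choose_succ_succ', add_mul, Finset.sum_add_distrib, Nat.choose_zero_succ,
      zero_mul, zero_add]
    rw [sum_choose_mul b N a, sum_choose_mul b N (a + 1)]
    have e1 : a + 1 + b + 1 = (a + b + 1) + 1 := by ring
    have e2 : a + 1 + b = a + b + 1 := by ring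
    rw [e1, e2, Nat.choose_succ_succ' N (a + b), Nat.choose_succ_succ' N (a + b + 1)]

lemma trace_eM_gM {R : Type*} [CommRing R] [DecidableEq R] (n k : ℕ) (d : R) :
    (eM R (n + 1) ^ k * gM (n + 1) d).trace =
      d ^ k * (k.factorial : R) * ((n + k + 1).choose (2 * k + 1) : R) := by
  rw [Matrix.trace_mul_comm, eM_pow]
  have h1 : ∀ j : Fin (n + 1), (gM (n + 1) d * (Matrix.of fun i j : Fin (n + 1) =>
      if (i : ℕ) = j + k then ∏ s ∈ range k, (((n + 1 : ℕ) : R) - 1 - (j + s : ℕ)) else 0)) j j =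
      d ^ k * (k.factorial : R) * (((n - j).choose k * (j + k).choose k : ℕ) : R) := by
    intro j
    rw [Matrix.mul_apply]
    by_cases hj : (j : ℕ) + k < n + 1
    · rw [Finset.sum_eq_single ⟨j + k, hj⟩]
      · simp only [gM, Matrix.of_apply, if_true, Nat.add_sub_cancel_left]
        have h2 : ∏ s ∈ range k, (((n + 1 : ℕ) : R) - 1 - (j + s : ℕ)) =
            (((n - j).descFactorial k : ℕ) : R) := by
          rw [Nat.descFactorial_eq_prod_range, Nat.cast_prod]
          refine Finset.prod_congr rfl fun s hs => ?_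
          have hs := Finset.mem_range.1 hs
          rw [Nat.cast_sub (by omega), Nat.cast_sub (by omega)]
          push_cast
          ring
        rw [h2, Nat.descFactorial_eq_factorial_mul_choose, Nat.choose_symm_add]
        push_cast
        ring
      · intro b _ hb
        have : (b : ℕ) ≠ j + k := fun h => hb (Fin.ext h)
        simp [this]
      · simp
    · rw [Nat.choose_eq_zero_of_lt (by have := j.2; omega : n - j < k)]
      simp only [zero_mul, Nat.cast_zero, mul_zero]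
      refine Finset.sum_eq_zero fun i _ => ?_
      have : (i : ℕ) ≠ j + k := by have := i.2; omega
      simp [this]
  unfold Matrix.trace
  refine (Finset.sum_congr rfl fun j _ => h1 j).trans ?_
  rw [← Finset.mul_sum, ← Nat.cast_sum]
  congr 2
  have h3 := sum_choose_mul k (n + k) k
  rw [Finset.Nat.sum_antidiagonal_eq_sum_range_succ_mk] at h3
  have e1 : k + k + 1 = 2 * k + 1 := by ring
  rw [e1] at h3
  rw [← h3, Fin.sum_univ_eq_sum_range (fun j => (n - j).choose k * (j + k).choose k)]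
  have e2 : (n + k).succ = k + (n + 1) := by omega
  rw [e2, Finset.sum_range_add _ k, Finset.sum_eq_zero (s := range k), zero_add]
  · refine Finset.sum_congr rfl fun j _ => ?_
    have e3 : n + k - (k + j) = n - j := by omega
    simp only [e3]
    rw [mul_comm, add_comm]
  · intro i hi
    simp [Nat.choose_eq_zero_of_lt (Finset.mem_range.1 hi)]

lemma map_eM {R R' : Type*} [CommRing R] [CommRing R'] (φ : R →+* R') (n : ℕ) :
    φ.mapMatrix (eM R n) = eM R' n := by
  funext i j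
  simp only [RingHom.mapMatrix_apply, Matrix.map_apply, eM]
  split_ifs <;> simp

lemma map_fM {R R' : Type*} [CommRing R] [CommRing R'] (φ : R →+* R') (n : ℕ) :
    φ.mapMatrix (fM R n) = fM R' n := by
  funext i j
  simp only [RingHom.mapMatrix_apply, Matrix.map_apply, fM]
  split_ifs <;> simp

lemma map_hM {R R' : Type*} [CommRing R] [CommRing R'] (φ : R →+* R') (n : ℕ) :
    φ.mapMatrix (hM R n) = hM R' n := by
  simp only [hM, map_sub, map_mul, map_eM, map_fM]

/-- the key congruence -/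
lemma key_dvd {k : ℕ} (hp : (2 * k + 1).Prime) (n : ℕ) (h1 : k ≤ n) (h2 : n ≤ 3 * k) :
    ¬ ((2 * k + 1 : ℕ) : ℤ) ^ 2 ∣ (n + 1 : ℕ) * (PP k).eval ((n + 1 : ℕ) : ℤ) := by
  have : Fact (2 * k + 1).Prime := ⟨hp⟩
  intro hd
  let x : ZMod (2 * k + 1) → Matrix (Fin (n + 1)) (Fin (n + 1)) ℤ :=
    fun a => Ea (eM ℤ (n + 1)) (hM ℤ (n + 1)) (fM ℤ (n + 1)) (a.val : ℤ) ^ k
  have h3 := trace_std (even_two_mul k) x
  have h4 : std (2 * k + 1) x = _ := std_Ea (eM ℤ (n + 1)) (hM ℤ (n + 1)) (fM ℤ (n + 1)) k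
  rw [h4, SS_mat, Matrix.trace_smul, Matrix.trace_smul, Matrix.trace_one, Fintype.card_fin,
    Int.cast_id, smul_eq_mul, smul_eq_mul, nsmul_eq_mul, mul_comm _ ((n + 1 : ℕ) : ℤ)] at h3
  have h5 : ((2 * k + 1 : ℕ) : ℤ) ∣ tau (2 * k) x := by
    have := hd.mul_left
      (Matrix.vandermonde fun a : Fin (2 * k + 1) => ((a : ℕ) : ℤ)).det
    rw [h3, pow_two] at this
    exact (mul_dvd_mul_iff_left (by exact_mod_cast hp.ne_zero)).1 this
  have h6 := (ZMod.intCast_zmod_eq_zero_iff_dvd _ _).2 h5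
  have h7 := map_tau (Int.castRingHom (ZMod (2 * k + 1))) (2 * k) x
  rw [eq_intCast, h6] at h7
  have h8 : (fun a => (Int.castRingHom (ZMod (2 * k + 1))).mapMatrix (x a)) =
      fun a => gM (n + 1) a * eM (ZMod (2 * k + 1)) (n + 1) ^ k * gM (n + 1) (-a) := by
    funext a
    simp only [x]
    rw [map_pow, map_Ea, map_eM, map_fM, map_hM, Ea_pow_conj]
    simp
  rw [h8, tau_conj _ (gM_add _) (gM_zero _)] at h7
  simp only [trace_eM_gM] at h7
  have h9 : ∀ d : (ZMod (2 * k + 1))ˣ, (d : ZMod (2 * k + 1)) ^ k * ((d : ZMod (2 * k + 1)) ^ k *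
      (k.factorial : ZMod (2 * k + 1)) * ((n + k + 1).choose (2 * k + 1) : ZMod (2 * k + 1))) =
      (k.factorial : ZMod (2 * k + 1)) * ((n + k + 1).choose (2 * k + 1) : ZMod (2 * k + 1)) := by
    intro d
    have h0 : (d : ZMod (2 * k + 1)) ^ (2 * k + 1 - 1) = 1 := ZMod.pow_card_sub_one_eq_one d.ne_zero
    have : (d : ZMod (2 * k + 1)) ^ k * (d : ZMod (2 * k + 1)) ^ k = 1 := by
      rw [← pow_add, ← h0]
      congr 1
      omega
    rw [← mul_assoc, ← mul_assoc, this, one_mul]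
  simp only [h9] at h7
  rw [Finset.sum_const, Finset.card_univ, ZMod.card_units, Nat.add_sub_cancel, nsmul_eq_mul] at h7
  have hk : 0 < k := by
    rcases Nat.eq_zero_or_pos k with h | h
    · subst h; exact absurd hp (by norm_num)
    · exact h
  have a1 : ((2 * k : ℕ) : ZMod (2 * k + 1)) ≠ 0 := by
    rw [Ne, ZMod.natCast_eq_zero_iff]
    exact Nat.not_dvd_of_pos_of_lt (by omega) (by omega)
  have a2 : (k.factorial : ZMod (2 * k + 1)) ≠ 0 := by
    rw [Ne, ZMod.natCast_eq_zero_iff, hp.dvd_factorial]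
    omega
  have a3 : ((n + k + 1).choose (2 * k + 1) : ZMod (2 * k + 1)) ≠ 0 := by
    have := Choose.choose_modEq_choose_mod_mul_choose_div_nat (n := n + k + 1) (k := 2 * k + 1)
      (p := 2 * k + 1)
    have e1 : (n + k + 1) / (2 * k + 1) = 1 := by
      apply Nat.div_eq_of_lt_le <;> omega
    rw [Nat.mod_self, Nat.div_self (by omega), e1, Nat.choose_zero_right, Nat.choose_self,
      ← ZMod.natCast_eq_natCast_iff] at this
    rw [this]
    simp
  exact mul_ne_zero a1 (mul_ne_zero a2 a3) h7.symm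

theorem PP_ne_zero {k : ℕ} (hp : (2 * k + 1).Prime) (n : ℕ) (hn : k < n) :
    (PP k).eval (n : ℤ) ≠ 0 := by
  have hdvd : ∏ j ∈ range (2 * k + 1), (X - C ((j : ℤ) - k)) ∣ X * PP k := by
    by_cases h0 : X * PP k = 0
    · rw [h0]; exact dvd_zero _
    have := (Multiset.prod_X_sub_C_dvd_iff_le_roots h0
      ((range (2 * k + 1)).val.map fun j : ℕ => (j : ℤ) - k)).2 (by
        rw [Multiset.le_iff_subset]
        · intro a ha
          obtain ⟨j, hj, rfl⟩ := Multiset.mem_map.1 ha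
          have hj : j < 2 * k + 1 := Finset.mem_range.1 hj
          rw [mem_roots h0, IsRoot, eval_mul, eval_X]
          rcases lt_trichotomy j k with h | h | h
          · have : (j : ℤ) - k = -((k - j : ℕ) : ℤ) := by push_cast [h.le]; ring
            rw [this, PP_even, PP_small k (k - j) (by omega) (by omega), mul_zero]
          · simp [h]
          · have : (j : ℤ) - k = ((j - k : ℕ) : ℤ) := by push_cast [h.le]; ring
            rw [this, PP_small k (j - k) (by omega) (by omega), mul_zero]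
        · exact Multiset.Nodup.map (fun a b h => by simpa using h) (range (2 * k + 1)).nodup)
    rw [Multiset.map_map] at this
    exact this
  obtain ⟨Λ, hΛ⟩ := hdvd
  have hev : ∀ m : ℤ, m * (PP k).eval m = (∏ j ∈ range (2 * k + 1), (m - ((j : ℤ) - k))) * Λ.eval m := by
    intro m
    have := congrArg (eval m) hΛ
    simpa [eval_prod] using this
  intro h0
  have hΛn : Λ.eval (n : ℤ) = 0 := by
    have := hev n
    rw [h0, mul_zero] at this
    refine (mul_eq_zero.1 this.symm).resolve_left (Finset.prod_ne_zero_iff.2 fun j hj => ?_)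
    have := Finset.mem_range.1 hj
    omega
  let m : ℕ := k + (n - (k + 1)) % (2 * k + 1)
  have hm : (n - (k + 1)) % (2 * k + 1) < 2 * k + 1 := Nat.mod_lt _ (by omega)
  refine key_dvd hp m (by omega) (by omega) ?_
  rw [hev, pow_two]
  refine mul_dvd_mul ?_ ?_
  · refine Dvd.dvd.trans ?_ (Finset.dvd_prod_of_mem _ (a := (n - (k + 1)) % (2 * k + 1))
      (Finset.mem_range.2 hm))
    refine ⟨1, ?_⟩
    simp only [m]
    push_cast
    ring
  · have h1 := sub_dvd_eval_sub ((m + 1 : ℕ) : ℤ) (n : ℤ) Λ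
    rw [hΛn, sub_zero] at h1
    refine Dvd.dvd.trans ⟨-(((n - (k + 1)) / (2 * k + 1) : ℕ) : ℤ), ?_⟩ h1
    have h2 := Nat.div_add_mod (n - (k + 1)) (2 * k + 1)
    have h3 : ((n - (k + 1) : ℕ) : ℤ) = n - (k + 1) := by push_cast [show k + 1 ≤ n from hn]; ring
    have h4 := congrArg (Nat.cast : ℕ → ℤ) h2
    rw [h3] at h4
    simp only [m]
    push_cast at h4 ⊢
    linear_combination h4

end Pool.Agent.MP_a0341c_al

end

-- part MP_a0341c_al.Core
section

/-! The main argument, for a representation in normal form. -/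

namespace Pool.Agent.MP_a0341c_al

open Finset Module Matrix

set_option linter.unusedSectionVars false

lemma trace_ef_ne_zero (n a : ℕ) (ha : a < n) : (eM ℂ n ^ a * fM ℂ n ^ a).trace ≠ 0 := by
  classical
  let w : Fin n → ℕ := fun j => (∏ s ∈ range a, (n - 1 - (j - a + s))) * (j : ℕ).descFactorial a
  have h1 := (inter (emb ℂ n)).mul_mem ((inter (emb ℂ n)).pow_mem (inter_eM n) a)
    ((inter (emb ℂ n)).pow_mem (inter_fM n) a)
  rw [Prod.pow_mk, Prod.pow_mk, Prod.mk_mul_mk, ← map_pow, ← map_pow, ← map_mul] at h1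
  have h2 : eM ℂ n ^ a * fM ℂ n ^ a = diagonal fun j => (w j : ℂ) := by
    refine eq_of_inter h1 (inter_of_col _ _ fun j r => ?_)
    have h3 : (fO ℂ ^ a) (Polynomial.monomial j r) =
        Polynomial.monomial (j - a) (((j : ℕ).descFactorial a : ℂ) * r) := by
      rw [Module.End.pow_apply]
      show Polynomial.derivative^[a] _ = _
      rw [← Polynomial.C_mul_X_pow_eq_monomial, Polynomial.iterate_derivative_C_mul,
        Polynomial.iterate_derivative_X_pow_eq_C_mul, ← Polynomial.C_mul_X_pow_eq_monomial, map_mul]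
      ring
    rw [Module.End.mul_apply, h3, eO_pow_monomial, Finset.sum_eq_single j]
    · rw [diagonal_apply_eq]
      by_cases hj : a ≤ j
      · rw [Nat.sub_add_cancel hj, ← mul_assoc]
        congr 2
        simp only [w]
        push_cast
        congr 1
        refine Finset.prod_congr rfl fun s hs => ?_
        have := Finset.mem_range.1 hs
        have := j.2
        rw [Nat.cast_sub (show (j : ℕ) - a + s ≤ n - 1 by omega), Nat.cast_sub (show 1 ≤ n by omega)]
        push_cast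
        rfl
      · simp [w, Nat.descFactorial_eq_zero_iff_lt.2 (not_le.1 hj)]
    · intro i _ hi
      simp [diagonal_apply_ne _ hi]
    · simp
  rw [h2, trace_diagonal, ← Nat.cast_sum, Nat.cast_ne_zero, Ne, Finset.sum_eq_zero_iff]
  intro h3
  have := h3 ⟨n - 1, by omega⟩ (Finset.mem_univ _)
  simp only [w, mul_eq_zero, Finset.prod_eq_zero_iff, Finset.mem_range,
    Nat.descFactorial_eq_zero_iff_lt] at this
  rcases this with ⟨s, hs, h⟩ | h <;> omega

lemma cent_hess {n : ℕ} (y : Matrix (Fin n) (Fin n) ℂ)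
    (h1 : ∀ i j : Fin n, (i : ℕ) = j + 1 → y i j ≠ 0) (h2 : ∀ i j : Fin n, (j : ℕ) + 1 < i → y i j = 0)
    (A : Matrix (Fin n) (Fin n) ℂ) (hA : A * y = y * A) : ∃ c : Fin n → ℂ, A = ∑ i, c i • y ^ (i : ℕ) := by
  rcases Nat.eq_zero_or_pos n with rfl | hn
  · exact ⟨0, Subsingleton.elim _ _⟩
  let v : Fin n → ℂ := Pi.single ⟨0, hn⟩ 1
  let S : ℕ → Submodule ℂ (Fin n → ℂ) := fun m =>
    Submodule.span ℂ ((fun i : ℕ => (y ^ i).mulVec v) '' Set.Iic m)
  have hS : ∀ m m', m ≤ m' → S m ≤ S m' := fun m m' h =>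
    Submodule.span_mono (Set.image_mono (Set.Iic_subset_Iic.2 h))
  have hy : ∀ m, ∀ w ∈ S m, y.mulVec w ∈ S (m + 1) := by
    intro m w hw
    induction hw using Submodule.span_induction with
    | mem x hx =>
      obtain ⟨i, hi, rfl⟩ := hx
      refine Submodule.subset_span ⟨i + 1, Nat.succ_le_succ hi, ?_⟩
      simp only [pow_succ', mulVec_mulVec]
    | zero => simp
    | add x x' _ _ hx hx' => rw [mulVec_add]; exact Submodule.add_mem _ hx hx'
    | smul c x _ hx => rw [mulVec_smul]; exact Submodule.smul_mem _ _ hx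
  have h3 : ∀ (m : ℕ) (hm : m < n), Pi.single (⟨m, hm⟩ : Fin n) (1 : ℂ) ∈ S m := by
    intro m
    induction m using Nat.strong_induction_on with
    | _ m ih =>
      intro hm
      cases m with
      | zero => exact Submodule.subset_span ⟨0, Set.mem_Iic.2 le_rfl, by simp only [pow_zero, one_mulVec, v]⟩
      | succ m =>
        have h4 := hy m _ (ih m (by omega) (by omega))
        have h5 : y.mulVec (Pi.single ⟨m, by omega⟩ 1) =
            ∑ i, y i ⟨m, by omega⟩ • (Pi.single i 1 : Fin n → ℂ) := by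
          funext r
          simp [Finset.sum_apply, Pi.single_apply]
        rw [h5, ← Finset.add_sum_erase _ _ (Finset.mem_univ ⟨m + 1, hm⟩)] at h4
        have h6 : ∑ i ∈ univ.erase (⟨m + 1, hm⟩ : Fin n),
            y i ⟨m, by omega⟩ • (Pi.single i 1 : Fin n → ℂ) ∈ S (m + 1) := by
          refine Submodule.sum_mem _ fun i hi => ?_
          have h7 : (i : ℕ) ≠ m + 1 := fun h => (Finset.mem_erase.1 hi).1 (Fin.ext h)
          by_cases h8 : (i : ℕ) ≤ m
          · exact Submodule.smul_mem _ _ (hS _ _ (by omega) (ih i (by omega) i.2))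
          · rw [h2 i _ (by simp only; omega), zero_smul]
            exact Submodule.zero_mem _
        exact (Submodule.smul_mem_iff _ (h1 _ _ rfl)).1 ((Submodule.add_mem_iff_left _ h6).1 h4)
  have h4 : ∀ w, w ∈ Submodule.span ℂ (Set.range fun i : Fin n => (y ^ (i : ℕ)).mulVec v) := by
    intro w
    rw [pi_eq_sum_univ' w]
    refine Submodule.sum_mem _ fun i _ => Submodule.smul_mem _ _ ?_
    refine Submodule.span_mono ?_ (h3 i i.2)
    rintro _ ⟨j, hj, rfl⟩
    exact ⟨⟨j, lt_of_le_of_lt hj i.2⟩, rfl⟩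
  obtain ⟨c, hc⟩ := (Submodule.mem_span_range_iff_exists_fun ℂ).1 (h4 (A.mulVec v))
  refine ⟨c, ?_⟩
  rw [← sub_eq_zero]
  set B := A - ∑ i, c i • y ^ (i : ℕ) with hB
  have h5 : Commute B y := by
    refine Commute.sub_left hA (Commute.sum_left _ _ _ fun i _ => ?_)
    exact Commute.smul_left ((Commute.refl y).pow_left _) _
  have h6 : B.mulVec v = 0 := by
    rw [hB, sub_mulVec, sum_mulVec, ← hc, sub_eq_zero]
    simp only [smul_mulVec]
  have h7 : ∀ w, B.mulVec w = 0 := by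
    intro w
    obtain ⟨d, rfl⟩ := (Submodule.mem_span_range_iff_exists_fun ℂ).1 (h4 w)
    rw [mulVec_sum]
    refine Finset.sum_eq_zero fun i _ => ?_
    rw [mulVec_smul, mulVec_mulVec, (h5.pow_right _).eq, ← mulVec_mulVec, h6, mulVec_zero, smul_zero]
  exact Matrix.toLin'.injective (LinearMap.ext fun w => by simpa using h7 w)

lemma cent_eM {n : ℕ} (A : Matrix (Fin n) (Fin n) ℂ) (hA : A * eM ℂ n = eM ℂ n * A) :
    ∃ c : Fin n → ℂ, A = ∑ i, c i • eM ℂ n ^ (i : ℕ) := by
  refine cent_hess _ (fun i j h => ?_) (fun i j h => ?_) A hA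
  · rw [eM, if_pos h]
    have := i.2
    have h1 : (n : ℂ) - 1 - (j : ℕ) = ((n - 1 - j : ℕ) : ℂ) := by
      rw [Nat.cast_sub (by omega), Nat.cast_sub (by omega)]
      simp
    rw [h1, Nat.cast_ne_zero]
    omega
  · rw [eM, if_neg (by omega)]

/-- block diagonal matrices -/
def blk (ν κ : Type*) [Fintype ν] [DecidableEq ν] [Fintype κ] [DecidableEq κ] :
    Matrix ν ν ℂ × Matrix κ κ ℂ →+* Matrix (ν ⊕ κ) (ν ⊕ κ) ℂ where
  toFun p := fromBlocks p.1 0 0 p.2
  map_one' := fromBlocks_one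
  map_mul' p q := by simp [fromBlocks_multiply]
  map_zero' := fromBlocks_zero
  map_add' p q := by simp [fromBlocks_add]

lemma trace_blk {ν κ : Type*} [Fintype ν] [DecidableEq ν] [Fintype κ] [DecidableEq κ]
    (p : Matrix ν ν ℂ × Matrix κ κ ℂ) : (blk ν κ p).trace = p.1.trace + p.2.trace := by
  simp [blk, trace, Fintype.sum_sum_type]

lemma blk_smul {ν κ : Type*} [Fintype ν] [DecidableEq ν] [Fintype κ] [DecidableEq κ] (c : ℂ)
    (p : Matrix ν ν ℂ × Matrix κ κ ℂ) : blk ν κ (c • p) = c • blk ν κ p := by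
  simp [blk, fromBlocks_smul]

lemma relM (n : ℕ) : Rel (eM ℂ n) (hM ℂ n) (fM ℂ n) := by
  classical
  have he := inter_eM (R := ℂ) n
  have hh := inter_hM (R := ℂ) n
  have hf := inter_fM (R := ℂ) n
  set S := inter (emb ℂ n)
  refine ⟨?_, ?_, rfl⟩
  · have h1 := S.sub_mem (S.mul_mem hh he) (S.mul_mem he hh)
    have h2 := S.add_mem he he
    simp only [Prod.mk_mul_mk, Prod.mk_sub_mk, ← map_mul, ← map_sub, (relO _).he] at h1
    rw [Prod.mk_add_mk, ← map_add, ← two_mul, ← two_mul] at h2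
    exact eq_of_inter h1 h2
  · have h1 := S.sub_mem (S.mul_mem hh hf) (S.mul_mem hf hh)
    have h2 := S.neg_mem (S.add_mem hf hf)
    simp only [Prod.mk_mul_mk, Prod.mk_sub_mk, ← map_mul, ← map_sub, (relO _).hf] at h1
    rw [Prod.mk_add_mk, Prod.neg_mk, ← map_add, ← map_neg, ← two_mul, ← two_mul] at h2
    exact eq_of_inter h1 h2

lemma h_eM_pow (n j : ℕ) :
    hM ℂ n * eM ℂ n ^ j - eM ℂ n ^ j * hM ℂ n = (2 * j : ℂ) • eM ℂ n ^ j := by
  induction j with
  | zero => simp
  | succ j ih =>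
    have h1 : hM ℂ n * eM ℂ n ^ (j + 1) - eM ℂ n ^ (j + 1) * hM ℂ n =
        (hM ℂ n * eM ℂ n ^ j - eM ℂ n ^ j * hM ℂ n) * eM ℂ n +
          eM ℂ n ^ j * (hM ℂ n * eM ℂ n - eM ℂ n * hM ℂ n) := by
      rw [pow_succ]; noncomm_ring
    rw [h1, ih, (relM n).he, two_mul (eM ℂ n), mul_add, smul_mul_assoc, ← pow_succ]
    push_cast
    module

variable {L : Type*} [LieRing L] [LieAlgebra ℂ L] [FiniteDimensional ℂ L] {I : Type*} [Fintype I]
  [DecidableEq I] (b : Basis I ℂ L) {h e f : L}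

/-- the standard basis of the submodule generated by a primitive vector -/
noncomputable def xs (f u : L) (k : ℕ) : Fin (2 * k + 1) → L := fun j => dv f u j

theorem core (t : IsSl2Triple h e f) {n : ℕ} {κ : Type*} [Fintype κ] [DecidableEq κ]
    (ρ : L →ₗ[ℂ] Matrix (Fin n ⊕ κ) (Fin n ⊕ κ) ℂ)
    (hρ : ∀ x y : L, ρ ⁅x, y⁆ = ρ x * ρ y - ρ y * ρ x) (hinj : Function.Injective ρ)
    (he : ρ e = blk _ _ (eM ℂ n, 0)) (hf : ρ f = blk _ _ (fM ℂ n, 0))
    {κ' : Type} [Fintype κ'] [DecidableEq κ'] [Subsingleton κ'] (us : κ' → L) (s : ℕ)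
    (hus : ∀ i, t.HasPrimitiveVectorWith (us i) ((2 * s : ℕ) : ℂ)) (Ts : κ' → MvPolynomial I ℂ)
    (hTs : ∀ i, IsInv b (s + 1) (Ts i)) (h1 : ∀ i, Phi b (xs f (us i) s) (Ts i) ≠ 0)
    (h2 : ∀ i, (std (2 * s + 1) fun j => ρ (xs f (us i) s j)).trace = 0)
    (hcent : ∀ y, ⁅e, y⁆ = 0 → ∃ (c : Fin n → ℂ) (a : κ' → ℂ),
      ρ (y - ∑ i, a i • us i) = ∑ j, c j • blk _ _ (eM ℂ n ^ (j : ℕ), 0))
    {k : ℕ} (hk : (2 * k + 1).Prime) (F : MultilinearMap ℂ (fun _ : Option (Fin k) => L) ℂ)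
    (hF : ∀ (σ : Equiv.Perm (Option (Fin k))) (x : Option (Fin k) → L), F (x ∘ σ) = F x)
    (hF' : ∀ (y : L) (x : Option (Fin k) → L), ∑ i, F (Function.update x i ⁅y, x i⁆) = 0)
    (hx : ∃ x, cartan F x ≠ 0) :
    ∃ u : L, t.HasPrimitiveVectorWith u ((2 * k : ℕ) : ℂ) ∧ cartan F (xs f u k) ≠ 0 := by
  classical
  have hh : ρ h = blk _ _ (hM ℂ n, 0) := by
    rw [← t.lie_e_f, hρ, he, hf, ← map_mul, ← map_mul, ← map_sub]
    simp [hM]
  let E : Fin n → Matrix (Fin n ⊕ κ) (Fin n ⊕ κ) ℂ := fun j => blk _ _ (eM ℂ n ^ (j : ℕ), 0)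
  have hE : ∀ j, ρ h * E j - E j * ρ h = (2 * (j : ℕ) : ℂ) • E j := by
    intro j
    simp only [E]
    rw [hh, ← map_mul, ← map_mul, ← map_sub, ← blk_smul, Prod.mk_mul_mk, Prod.mk_mul_mk,
      Prod.mk_sub_mk, h_eM_pow]
    simp
  let M0 := {j : Fin n // E j ∈ LinearMap.range ρ}
  let u0 : M0 → L := fun j => j.2.choose
  have hu0 : ∀ j, ρ (u0 j) = E j.1 := fun j => j.2.choose_spec
  let u : M0 ⊕ κ' → L := Sum.elim u0 us
  let wt : M0 ⊕ κ' → ℕ := Sum.elim (fun j => j.1) fun _ => s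
  let T : M0 ⊕ κ' → MvPolynomial I ℂ := Sum.elim (fun j => TP b ρ j.1) Ts
  have hhu : ∀ j : M0, ⁅h, u0 j⁆ = (2 * (j.1 : ℕ) : ℂ) • u0 j := fun j => hinj (by
    rw [hρ, map_smul, hu0, hE])
  have S : Slice h f u wt := by
    refine ⟨t.lie_lie_smul_f ℂ, ?_, fun y => ?_⟩
    · rintro (j | i)
      · exact hhu j
      · have := (hus i).lie_h
        push_cast at this
        exact this
    · obtain ⟨z, w, rfl, hw⟩ := exists_decomp t y
      obtain ⟨c, a, hc⟩ := hcent w hw
      have h3 := mem_of_sum_eigen (LinearMap.mulLeft ℂ (ρ h) - LinearMap.mulRight ℂ (ρ h))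
        (LinearMap.range ρ) (by
          rintro _ ⟨x, rfl⟩
          exact ⟨⁅h, x⁆, hρ _ _⟩) (fun j : Fin n => (2 * (j : ℕ) : ℂ))
        (fun a b hab => Fin.ext (by simpa using hab)) univ (fun j => c j • E j) (fun j => by
          rw [map_smul, smul_comm]
          congr 1
          exact hE j) ⟨_, hc⟩
      refine ⟨-z, Sum.elim (fun j => c j.1) a, ?_⟩
      rw [neg_lie, lie_skew, Fintype.sum_sum_type]
      congr 1
      rw [← sub_eq_iff_eq_add]
      apply hinj
      simp only [Sum.elim_inl, Sum.elim_inr, u]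
      rw [hc, map_sum]
      simp only [map_smul, hu0]
      symm
      refine Fintype.sum_of_injective Subtype.val Subtype.val_injective _ _ (fun j hj => ?_)
        fun _ => rfl
      by_contra h4
      have h5 : c j ≠ 0 := fun h5 => h4 (by rw [h5, zero_smul])
      exact hj ⟨⟨j, (Submodule.smul_mem_iff _ h5).1 (h3 j (Finset.mem_univ _))⟩, rfl⟩
  let K : Submodule ℂ (MvPolynomial I ℂ) := ⨅ (d : ℕ) (x : Fin d → L), LinearMap.ker (Phi b x)
  have hK : ∀ P, P ∈ K ↔ ∀ (d : ℕ) (x : Fin d → L), Phi b x P = 0 := fun P => by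
    simp [K, Submodule.mem_iInf]
  have hsum : ∀ (d : ℕ) (c : M0 ⊕ κ' → ℂ), (∀ m, wt m ≠ d → c m = 0) → (∀ i, c (Sum.inr i) = 0) →
      ∑ m, c m • T m = (∑ j, c (Sum.inl j)) • TP b ρ d := by
    intro d c hc hc'
    rw [Fintype.sum_sum_type, Finset.sum_smul]
    simp only [hc', zero_smul, Finset.sum_const_zero, add_zero]
    refine Finset.sum_congr rfl fun j _ => ?_
    by_cases hj : (j.1 : ℕ) = d
    · rw [← hj]; rfl
    · rw [hc (Sum.inl j) hj, zero_smul, zero_smul]
  have hstar : ∀ (c : M0 ⊕ κ' → ℂ), (∀ m, wt m ≠ s → c m = 0) → ∀ i,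
      Phi b (xs f (us i) s) (∑ m, c m • T m) = c (Sum.inr i) * Phi b (xs f (us i) s) (Ts i) := by
    intro c hc i
    rw [map_sum, Finset.sum_eq_single (Sum.inr i)]
    · rw [map_smul]; rfl
    · rintro (j | i') _ hne
      · by_cases hj : (j.1 : ℕ) = s
        · have : T (Sum.inl j) = TP b ρ s := by rw [← hj]; rfl
          rw [this, map_smul, Phi_TP b ρ hρ, h2, mul_zero, smul_zero]
        · rw [hc (Sum.inl j) hj, zero_smul, map_zero]
      · exact absurd (congrArg _ (Subsingleton.elim _ _)) hne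
    · simp
  obtain ⟨c, hc, hcK⟩ := structure_inv b S T (by
      rintro (j | i)
      · exact TP_inv b ρ hρ _
      · exact hTs i) K (fun d d' P Q hP hQ => (hK _).2 fun _ x => Phi_mul b x hP hQ) (by
      intro d c hc h3 h4
      have h5 : ∀ i, c (Sum.inr i) = 0 := by
        intro i
        by_cases hs : s = d
        · subst hs
          have := (hK _).1 h4 _ (xs f (us i) s)
          rw [hstar c hc] at this
          exact (mul_eq_zero.1 this).resolve_right (h1 i)
        · exact hc _ hs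
      funext m
      rcases m with j | i
      · by_cases hj : (j.1 : ℕ) = d
        · have h6 := h3 (Sum.inl j) hj
          rw [hsum d c hc h5, Derivation.map_smul, map_smul, ev_dd_TP, Finset.sum_eq_single j] at h6
          · have h7 : (ρ (u (Sum.inl j)) * ρ f ^ d).trace ≠ 0 := by
              show (ρ (u0 j) * ρ f ^ d).trace ≠ 0
              rw [hu0, hf, ← map_pow, ← map_mul, trace_blk, ← hj]
              simpa using trace_ef_ne_zero n j.1 j.1.2
            exact (smul_eq_zero.1 h6).resolve_right (mul_ne_zero (Nat.cast_add_one_ne_zero d) h7)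
          · intro j' _ hj'
            refine hc _ fun h7 => hj' (Subtype.ext (Fin.ext ?_))
            exact h7.trans hj.symm
          · simp
        · exact hc _ hj
      · exact h5 i) (k := k) (P := PF b F) (by simpa using PF_inv b F hF')
  have hPhi : ∀ x : Fin (2 * k + 1) → L, (k + 1 : ℂ) * cartan F x = Phi b x (∑ m, c m • T m) := by
    intro x
    have := (hK _).1 hcK _ x
    rw [map_sub, Phi_PF b F hF, sub_eq_zero] at this
    exact this
  by_cases h3 : ∃ i, c (Sum.inr i) ≠ 0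
  · obtain ⟨i, hi⟩ := h3
    have hs : s = k := by
      by_contra hs
      exact hi (hc _ hs)
    subst hs
    refine ⟨us i, hus i, fun h4 => ?_⟩
    have := hPhi (xs f (us i) s)
    rw [h4, mul_zero, hstar c hc] at this
    exact mul_ne_zero hi (h1 i) this.symm
  · push Not at h3
    rw [hsum k c hc h3] at hPhi
    have h4 : ∑ j, c (Sum.inl j) ≠ 0 := by
      intro h4
      obtain ⟨x, hx⟩ := hx
      have := hPhi x
      rw [h4, zero_smul, map_zero] at this
      exact mul_ne_zero (Nat.cast_add_one_ne_zero k) hx this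
    obtain ⟨j, -, hj⟩ := Finset.exists_ne_zero_of_sum_ne_zero h4
    have hjk : (j.1 : ℕ) = k := by
      by_contra h5
      exact hj (hc _ h5)
    have hk0 : k ≠ 0 := by
      rintro rfl
      exact absurd hk (by norm_num)
    have h5 : ρ (u0 j) = ρ e ^ k := by
      rw [hu0, he, ← map_pow, Prod.pow_mk, zero_pow hk0, ← hjk]
    have r : Rel (ρ e) (ρ h) (ρ f) := by
      refine ⟨?_, ?_, ?_⟩
      · rw [← hρ, t.lie_h_e_nsmul, map_nsmul, two_nsmul, two_mul]
      · rw [← hρ, t.lie_h_f_nsmul, map_neg, map_nsmul, two_nsmul, two_mul]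
      · rw [← hρ, t.lie_e_f]
    have h6 : ∀ i : ℕ, ρ (dv f (u0 j) i) = uu (ρ e) (ρ h) (ρ f) k i := by
      intro i
      induction i with
      | zero => rw [dv_zero, uu_zero, h5]
      | succ i ih =>
        have h7 := congrArg ρ (f_dv (f := f) (u0 j) i)
        rw [hρ, ih, f_uu r, map_smul, ← Nat.cast_smul_eq_nsmul ℂ] at h7
        push_cast at h7
        exact (smul_right_injective _ (Nat.cast_add_one_ne_zero i) h7).symm
    have h7 : (std (2 * k + 1) fun i => ρ (xs f (u0 j) k i)).trace ≠ 0 := by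
      have h8 : (std (2 * k + 1) fun i => ρ (xs f (u0 j) k i)) = SS (ρ e) (ρ h) (ρ f) k := by
        unfold SS xs
        simp only [h6]
      have h9 : SS (0 : Matrix κ κ ℂ) 0 0 k = 0 := by
        unfold SS
        refine AlternatingMap.map_coord_zero _ 0 ?_
        show uu _ _ _ k 0 = 0
        rw [uu_zero, zero_pow hk0]
      rw [h8, he, hh, hf, ← map_SS, trace_blk]
      have e1 := map_SS (RingHom.fst (Matrix (Fin n) (Fin n) ℂ) (Matrix κ κ ℂ))
        (eM ℂ n, 0) (hM ℂ n, 0) (fM ℂ n, 0) k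
      have e2 := map_SS (RingHom.snd (Matrix (Fin n) (Fin n) ℂ) (Matrix κ κ ℂ))
        (eM ℂ n, 0) (hM ℂ n, 0) (fM ℂ n, 0) k
      simp only [RingHom.coe_fst, RingHom.coe_snd] at e1 e2
      have hn : k < n := hjk ▸ j.1.2
      rw [e1, e2, h9, SS_mat, trace_smul, trace_one, trace_zero, add_zero, Fintype.card_fin,
        smul_eq_mul]
      refine mul_ne_zero (Int.cast_ne_zero.2 (PP_ne_zero hk n hn)) (Nat.cast_ne_zero.2 (by omega))
    refine ⟨u0 j, ⟨?_, ?_, ?_⟩, fun h8 => ?_⟩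
    · intro h8
      apply h7
      rw [AlternatingMap.map_coord_zero _ 0, trace_zero]
      show ρ (dv f (u0 j) 0) = 0
      rw [dv_zero, h8, map_zero]
    · rw [hhu, hjk]
      push_cast
      rfl
    · apply hinj
      rw [hρ, h5, map_zero, sub_eq_zero]
      exact ((Commute.refl _).pow_right k).eq
    · have := hPhi (xs f (u0 j) k)
      rw [h8, mul_zero, map_smul, Phi_TP b ρ hρ] at this
      exact smul_ne_zero h4 (mul_ne_zero (mul_ne_zero (Nat.cast_add_one_ne_zero k)
        (pow_ne_zero _ two_ne_zero)) h7) this.symm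

end Pool.Agent.MP_a0341c_al

end

-- part MP_a0341c_al.Norm
section

/-! Reduction to normal form: one Jordan block, or the even orthogonal case. -/

namespace Pool.Agent.MP_a0341c_al

open Finset Module Matrix

set_option linter.unusedSectionVars false

variable {L : Type*} [LieRing L] [LieAlgebra ℂ L] {ν : Type*} [Fintype ν] [DecidableEq ν]
  {h e f : L}

/-- a string of vectors generated by a primitive vector of the highest weight -/
structure Chain (E F : Matrix ν ν ℂ) (N : ℕ) (w : ℕ → ν → ℂ) : Prop where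
  nil : E ^ (N + 1) = 0
  ne : E ^ N ≠ 0
  indep : LinearIndependent ℂ fun j : Fin (N + 1) => w j
  hf : ∀ j : ℕ, F *ᵥ w j = (j + 1 : ℂ) • w (j + 1)
  he : ∀ j : ℕ, E *ᵥ w (j + 1) = (N - j : ℂ) • w j
  he0 : E *ᵥ w 0 = 0
  top : w (N + 1) = 0
  hh : (E * F - F * E) *ᵥ w 0 = (N : ℂ) • w 0
  ker : ∀ z, E *ᵥ (F *ᵥ z) = 0 → F *ᵥ z = 0

/-- column vectors as a Lie module -/
@[reducible] def modOf (ρ : L →ₗ[ℂ] Matrix ν ν ℂ)
    (hρ : ∀ x y : L, ρ ⁅x, y⁆ = ρ x * ρ y - ρ y * ρ x) : LieRingModule L (ν → ℂ) where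
  bracket x v := ρ x *ᵥ v
  add_lie x y v := by simp [add_mulVec]
  lie_add x v w := by simp [mulVec_add]
  leibniz_lie x y v := by simp [hρ, sub_mulVec]

lemma exists_chain [Nonempty ν] (t : IsSl2Triple h e f) (ρ : L →ₗ[ℂ] Matrix ν ν ℂ)
    (hρ : ∀ x y : L, ρ ⁅x, y⁆ = ρ x * ρ y - ρ y * ρ x) : ∃ N w, Chain (ρ e) (ρ f) N w := by
  letI := modOf ρ hρ
  have hb : ∀ (x : L) (v : ν → ℂ), ⁅x, v⁆ = ρ x *ᵥ v := fun _ _ => rfl
  haveI : LieModule ℂ L (ν → ℂ) :=
    ⟨fun c x v => by simp [hb, smul_mulVec], fun c x v => by simp [hb, mulVec_smul]⟩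
  have hp : ∀ (j : ℕ) (v : ν → ℂ), (LieModule.toEnd ℂ L (ν → ℂ) e ^ j) v = ρ e ^ j *ᵥ v := by
    intro j v
    induction j with
    | zero => simp
    | succ j ih =>
      rw [pow_succ', Module.End.mul_apply, ih, LieModule.toEnd_apply_apply, hb, mulVec_mulVec,
        pow_succ']
  obtain ⟨N, v, h1, P⟩ := exists_top (M := ν → ℂ) t
  refine ⟨N, dv f _, ?_, ?_, dv_indep P, fun j => f_dv (f := f) _ j, fun j => e_dv P j, ?_, dv_top P, ?_,
    fun z hz => f_eq_zero t z hz⟩
  · refine Matrix.toLin'.injective (LinearMap.ext fun w => ?_)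
    rw [toLin'_apply, ← hp, h1]
    simp
  · intro h2
    apply P.ne_zero
    rw [hp, h2, zero_mulVec]
  · rw [dv_zero]
    exact P.lie_e
  · rw [dv_zero, ← hρ, t.lie_e_f]
    exact P.lie_h

/-- the rescaled string -/
noncomputable def cv (N : ℕ) (w : ℕ → ν → ℂ) (j : Fin (N + 1)) : ν → ℂ :=
  (((j : ℕ).factorial * (N - j).factorial : ℕ) : ℂ) • w (N - j)

variable {E F : Matrix ν ν ℂ} {N : ℕ} {w : ℕ → ν → ℂ}

lemma cv_ne (N : ℕ) (j : ℕ) : ((j.factorial * (N - j).factorial : ℕ) : ℂ) ≠ 0 :=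
  Nat.cast_ne_zero.2 (mul_ne_zero (Nat.factorial_ne_zero _) (Nat.factorial_ne_zero _))

lemma Chain.cv_indep (C : Chain E F N w) : LinearIndependent ℂ (cv N w) := by
  have h1 := (C.indep.comp Fin.rev Fin.rev_injective).units_smul
    fun j : Fin (N + 1) => Units.mk0 _ (cv_ne N j)
  convert h1 using 1
  funext j
  rw [Pi.smul_apply', Units.smul_def]
  simp [cv, Fin.val_rev]

lemma Chain.e_cv (C : Chain E F N w) (j : Fin (N + 1)) :
    E *ᵥ cv N w j = ∑ i, eM ℂ (N + 1) i j • cv N w i := by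
  by_cases hj : (j : ℕ) < N
  · rw [Finset.sum_eq_single ⟨j + 1, by omega⟩]
    · obtain ⟨m, hm⟩ : ∃ m, N - j = m + 1 := ⟨N - j - 1, by omega⟩
      have h1 : N - (j + 1) = m := by omega
      have h2 : (N : ℂ) = j + 1 + m := by exact_mod_cast (show N = j + 1 + m by omega)
      simp only [cv, eM, mulVec_smul, hm, h1, C.he, smul_smul, if_true, Nat.factorial_succ]
      congr 1
      push_cast
      rw [h2]
      ring
    · intro i _ hi
      have : (i : ℕ) ≠ j + 1 := fun h => hi (Fin.ext h)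
      simp [eM, this]
    · simp
  · have h1 : N - j = 0 := by omega
    rw [cv, h1, mulVec_smul, C.he0, smul_zero]
    refine (Finset.sum_eq_zero fun i _ => ?_).symm
    have : (i : ℕ) ≠ j + 1 := by have := i.2; omega
    simp [eM, this]

lemma Chain.f_cv (C : Chain E F N w) (j : Fin (N + 1)) :
    F *ᵥ cv N w j = ∑ i, fM ℂ (N + 1) i j • cv N w i := by
  obtain ⟨j, hj⟩ := j
  cases j with
  | zero => simp [cv, fM, mulVec_smul, C.hf, C.top]
  | succ j =>
    rw [Finset.sum_eq_single ⟨j, by omega⟩]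
    · obtain ⟨m, hm⟩ : ∃ m, N - j = m + 1 := ⟨N - j - 1, by omega⟩
      have h1 : N - (j + 1) = m := by omega
      simp only [cv, fM, mulVec_smul, hm, h1, C.hf, smul_smul, if_true, Nat.factorial_succ]
      congr 1
      push_cast
      ring
    · intro i _ hi
      have : (i : ℕ) ≠ j := fun h => hi (Fin.ext h)
      simp [fM, this]
    · simp

lemma Chain.eq_smul (C : Chain E F N w) {v : ν → ℂ}
    (hv : v ∈ Submodule.span ℂ (Set.range fun j : Fin (N + 1) => w j)) (he : E *ᵥ v = 0) :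
    ∃ a : ℂ, v = a • w 0 := by
  obtain ⟨c, rfl⟩ := (Submodule.mem_span_range_iff_exists_fun ℂ).1 hv
  refine ⟨c 0, ?_⟩
  have h1 : F *ᵥ ∑ j : Fin N, (c j.succ / (j + 1 : ℂ)) • w j = ∑ j : Fin N, c j.succ • w j.succ := by
    rw [mulVec_sum]
    refine Finset.sum_congr rfl fun j _ => ?_
    rw [mulVec_smul, C.hf, smul_smul, div_mul_cancel₀ _ (Nat.cast_add_one_ne_zero _)]
    rfl
  rw [Fin.sum_univ_succ] at he ⊢
  rw [mulVec_add, mulVec_smul, ← h1] at he
  have h2 : E *ᵥ w ((0 : Fin (N + 1)) : ℕ) = 0 := C.he0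
  rw [h2, smul_zero, zero_add] at he
  rw [← h1, C.ker _ he, add_zero]
  rfl

/-- change of basis -/
noncomputable def Psi {ν' : Type*} [Fintype ν'] [DecidableEq ν'] (c : Basis ν' ℂ (ν → ℂ)) :
    Matrix ν ν ℂ ≃ₐ[ℂ] Matrix ν' ν' ℂ :=
  Matrix.toLinAlgEquiv'.trans (LinearMap.toMatrixAlgEquiv c)

lemma Psi_apply {ν' : Type*} [Fintype ν'] [DecidableEq ν'] (c : Basis ν' ℂ (ν → ℂ))
    (A : Matrix ν ν ℂ) (i j : ν') : Psi c A i j = c.repr (A *ᵥ c j) i :=
  LinearMap.toMatrixAlgEquiv_apply c _ i j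

variable {κ : Type*} [Fintype κ] [DecidableEq κ]

lemma Psi_blk {n : ℕ} (c : Basis (Fin n ⊕ κ) ℂ (ν → ℂ)) (A : Matrix ν ν ℂ)
    (M : Matrix (Fin n) (Fin n) ℂ) (h1 : ∀ j, A *ᵥ c (Sum.inl j) = ∑ i, M i j • c (Sum.inl i))
    (h2 : ∀ k, A *ᵥ c (Sum.inr k) = 0) : Psi c A = blk _ _ (M, 0) := by
  funext i j
  rw [Psi_apply]
  rcases j with j | j
  · rw [h1]
    rcases i with i | i <;> simp [blk, Finsupp.single_apply]
  · rw [h2]
    rcases i with i | i <;> simp [blk]

lemma cent_blk {n : ℕ} (Z : Matrix (Fin n ⊕ κ) (Fin n ⊕ κ) ℂ) (h1 : ∀ i k, Z i (Sum.inr k) = 0)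
    (h2 : ∀ k j, Z (Sum.inr k) (Sum.inl j) = 0)
    (h3 : Z * blk _ _ (eM ℂ n, 0) = blk _ _ (eM ℂ n, 0) * Z) :
    ∃ c : Fin n → ℂ, Z = ∑ j, c j • blk _ _ (eM ℂ n ^ (j : ℕ), 0) := by
  have h4 : Z = blk _ _ (Z.toBlocks₁₁, 0) := by
    funext i j
    rcases i with i | i <;> rcases j with j | j <;> simp [blk, h1, h2, toBlocks₁₁]
  rw [h4, ← map_mul, ← map_mul] at h3
  have h5 := congrArg toBlocks₁₁ h3
  simp only [blk, RingHom.coe_mk, MonoidHom.coe_mk, OneHom.coe_mk, Prod.fst_mul,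
    toBlocks_fromBlocks₁₁] at h5
  obtain ⟨c, hc⟩ := cent_eM _ h5
  refine ⟨c, ?_⟩
  rw [h4, hc]
  simp only [← blk_smul, ← map_sum]
  congr 1
  ext1
  · simp [Prod.fst_sum]
  · simp [Prod.snd_sum]

variable [FiniteDimensional ℂ L]

/-- the conclusion of the main argument -/
def Concl (t : IsSl2Triple h e f) : Prop :=
  ∀ k : ℕ, (2 * k + 1).Prime → ∀ F : MultilinearMap ℂ (fun _ : Option (Fin k) => L) ℂ,
    (∀ (σ : Equiv.Perm (Option (Fin k))) (x : Option (Fin k) → L), F (x ∘ σ) = F x) →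
    (∀ (y : L) (x : Option (Fin k) → L), ∑ i, F (Function.update x i ⁅y, x i⁆) = 0) →
    (∃ x, cartan F x ≠ 0) →
    ∃ u : L, t.HasPrimitiveVectorWith u ((2 * k : ℕ) : ℂ) ∧ cartan F (xs f u k) ≠ 0

theorem single (t : IsSl2Triple h e f) (ρ : L →ₗ[ℂ] Matrix ν ν ℂ)
    (hρ : ∀ x y : L, ρ ⁅x, y⁆ = ρ x * ρ y - ρ y * ρ x) (hinj : Function.Injective ρ)
    (C : Chain (ρ e) (ρ f) N w) (hN : Fintype.card ν = N + 1) : Concl t := by
  intro k hk F hF hF' hx
  let c : Basis (Fin (N + 1) ⊕ Empty) ℂ (ν → ℂ) := basisOfLinearIndependentOfCardEqFinrank'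
    (cv N w ∘ Equiv.sumEmpty _ _) (C.cv_indep.comp _ (Equiv.injective _)) (by simp [hN])
  have hc : ∀ j, c (Sum.inl j) = cv N w j := fun j => by simp [c]
  let ρ' : L →ₗ[ℂ] Matrix (Fin (N + 1) ⊕ Empty) (Fin (N + 1) ⊕ Empty) ℂ :=
    (Psi c).toLinearMap ∘ₗ ρ
  have hρ' : ∀ x, ρ' x = Psi c (ρ x) := fun _ => rfl
  have he : ρ' e = blk _ _ (eM ℂ (N + 1), 0) :=
    Psi_blk c _ _ (fun j => by simp only [hc, C.e_cv]) fun k => k.elim
  have hb : ∀ x y : L, ρ' ⁅x, y⁆ = ρ' x * ρ' y - ρ' y * ρ' x := fun x y => by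
    simp only [hρ', hρ, map_sub, map_mul]
  refine core (Module.finBasis ℂ L) t ρ' hb ((Psi c).injective.comp hinj) he
    (Psi_blk c _ _ (fun j => by simp only [hc, C.f_cv]) fun k => k.elim) (κ' := Empty)
    Empty.elim 0 (fun i => i.elim) Empty.elim (fun i => i.elim) (fun i => i.elim) (fun i => i.elim)
    (fun y hy => ?_) hk F hF hF' hx
  obtain ⟨c, hc⟩ := cent_blk (ρ' y) (fun _ k => k.elim) (fun k => k.elim) (by
    rw [← he, eq_comm, ← sub_eq_zero, ← hb, hy, map_zero])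
  exact ⟨c, 0, by simpa using hc⟩

lemma RR_lie (A : Matrix ν ν ℂ) (hA : Aᵀ = -A) (a c : ν → ℂ) :
    A * RR a c - RR a c * A = RR (A *ᵥ a) c + RR a (A *ᵥ c) := by
  have : ∀ v, v ᵥ* A = -(A *ᵥ v) := fun v => by rw [← mulVec_transpose, hA, neg_mulVec]
  simp only [RR, mul_sub, sub_mul, mul_vecMulVec, vecMulVec_mul, this, vecMulVec_neg]
  abel

lemma skew_dot (A : Matrix ν ν ℂ) (hA : Aᵀ = -A) (a c : ν → ℂ) :
    (A *ᵥ a) ⬝ᵥ c = -(a ⬝ᵥ (A *ᵥ c)) := by
  rw [dotProduct_mulVec, ← mulVec_transpose, hA, neg_mulVec, neg_dotProduct, neg_neg]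

lemma RR_mulVec (a c v : ν → ℂ) : RR a c *ᵥ v = (c ⬝ᵥ v) • a - (a ⬝ᵥ v) • c := by
  simp [RR, sub_mulVec, vecMulVec_mulVec]

lemma trace_std_odd {s : ℕ} (S : Matrix ν ν ℂ) (hS : S * S = 1) (x : Fin (2 * s + 1) → Matrix ν ν ℂ)
    (hx : ∀ j, S * x j * S = -x j) : (std (2 * s + 1) x).trace = 0 := by
  let φ : Matrix ν ν ℂ →+* Matrix ν ν ℂ :=
    { toFun := fun A => S * A * S
      map_one' := by rw [mul_one, hS]
      map_mul' := fun A B => by
        rw [mul_assoc (S * A), ← mul_assoc S (S * B), ← mul_assoc S S, hS, one_mul]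
        simp only [mul_assoc]
      map_zero' := by simp
      map_add' := fun A B => by rw [mul_add, add_mul] }
  have h1 := map_std φ x
  have h2 : (fun i => φ (x i)) = fun i => (-1 : ℤ) • x i := funext fun i => by
    rw [neg_one_smul]; exact hx i
  have h3 := (std (2 * s + 1)).map_smul_univ (fun _ => (-1 : ℤ)) x
  rw [Finset.prod_const, Finset.card_univ, Fintype.card_fin, pow_succ, pow_mul] at h3
  rw [h2, h3] at h1
  have h4 := congrArg trace h1
  have h5 : (φ (std (2 * s + 1) x)).trace = (std (2 * s + 1) x).trace := by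
    show (S * _ * S).trace = _
    rw [trace_mul_comm, ← mul_assoc, hS, one_mul]
  rw [h5] at h4
  simpa [self_eq_neg] using h4

theorem evenOrth {s : ℕ} (t : IsSl2Triple h e f)
    (ρ : L →ₗ[ℂ] Matrix (Fin (2 * s + 1 + 1)) (Fin (2 * s + 1 + 1)) ℂ)
    (hρ : ∀ x y : L, ρ ⁅x, y⁆ = ρ x * ρ y - ρ y * ρ x) (hinj : Function.Injective ρ)
    (hs : ∀ x, (ρ x)ᵀ = -ρ x) (hsurj : ∀ A, Aᵀ = -A → ∃ x, ρ x = A)
    {w : ℕ → Fin (2 * s + 1 + 1) → ℂ} (C : Chain (ρ e) (ρ f) (2 * s) w) : Concl t := by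
  intro k hk F hF hF' hx
  have hs0 : s ≠ 0 := by
    rintro rfl
    have : ρ e ^ 1 = 0 := C.nil
    rw [pow_one, ← map_zero ρ] at this
    exact t.e_ne_zero (hinj this)
  let W : Matrix (Fin (2 * s + 1)) (Fin (2 * s + 1 + 1)) ℂ := Matrix.of fun j => w j
  have h1 : finrank ℂ (LinearMap.ker W.mulVecLin) = 1 := by
    have h2 : W.rank = Fintype.card (Fin (2 * s + 1)) := LinearIndependent.rank_matrix C.indep
    have h3 := LinearMap.finrank_range_add_finrank_ker W.mulVecLin
    rw [Matrix.rank, Fintype.card_fin] at h2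
    rw [h2, finrank_fin_fun] at h3
    omega
  obtain ⟨⟨u, hu⟩, hu0, hu1⟩ := finrank_eq_one_iff'.1 h1
  have hmem : ∀ v, v ∈ LinearMap.ker W.mulVecLin ↔ ∀ j : Fin (2 * s + 1), w j ⬝ᵥ v = 0 :=
    fun v => funext_iff
  have hw : ∀ j : ℕ, w j ⬝ᵥ u = 0 := by
    intro j
    induction j with
    | zero => exact (hmem u).1 hu 0
    | succ j ih =>
      by_cases hj : j + 1 < 2 * s + 1
      · exact (hmem u).1 hu ⟨j + 1, hj⟩
      · have h2 : ∀ i, w (2 * s + 1 + i) = 0 := by
          intro i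
          induction i with
          | zero => exact C.top
          | succ i ih =>
            have := C.hf (2 * s + 1 + i)
            rw [ih, mulVec_zero, eq_comm, smul_eq_zero] at this
            exact this.resolve_left (Nat.cast_add_one_ne_zero _)
        have := h2 (j - 2 * s)
        rw [show 2 * s + 1 + (j - 2 * s) = j + 1 by omega] at this
        rw [this, zero_dotProduct]
  have hu2 : ∀ v, (∀ j : Fin (2 * s + 1), w j ⬝ᵥ v = 0) → ∃ a : ℂ, a • u = v := fun v hv => by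
    obtain ⟨a, ha⟩ := hu1 ⟨v, (hmem v).2 hv⟩
    exact ⟨a, congrArg Subtype.val ha⟩
  have hu3 : u ≠ 0 := fun h => hu0 (Subtype.ext h)
  have heu : ρ e *ᵥ u = 0 := by
    obtain ⟨a, ha⟩ := hu2 (ρ e *ᵥ u) fun j => by
      rw [← neg_eq_zero, ← skew_dot _ (hs e)]
      obtain ⟨j, hj⟩ := j
      cases j with
      | zero => rw [C.he0, zero_dotProduct]
      | succ j => rw [C.he, smul_dotProduct, hw, smul_zero]
    have h2 : ∀ i : ℕ, ρ e ^ i *ᵥ u = a ^ i • u := by
      intro i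
      induction i with
      | zero => simp
      | succ i ih => rw [pow_succ', ← mulVec_mulVec, ih, mulVec_smul, ← ha, smul_smul, pow_succ]
    have h3 := h2 (2 * s + 1)
    rw [C.nil, zero_mulVec, eq_comm, smul_eq_zero] at h3
    rw [← ha, pow_eq_zero_iff (by omega) |>.1 (h3.resolve_right hu3), zero_smul]
  have hfu : ρ f *ᵥ u = 0 := by
    obtain ⟨a, ha⟩ := hu2 (ρ f *ᵥ u) fun j => by
      rw [← neg_eq_zero, ← skew_dot _ (hs f), C.hf, smul_dotProduct, hw, smul_zero]
    apply C.ker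
    rw [← ha, mulVec_smul, heu, smul_zero]
  have hi : LinearIndependent ℂ
      (Fin.cons u (fun j : Fin (2 * s + 1) => w j) : Fin (2 * s + 1 + 1) → _) := by
    refine linearIndependent_finCons.2 ⟨C.indep, fun h2 => ?_⟩
    obtain ⟨a, ha⟩ := C.eq_smul h2 heu
    have h3 := hfu
    rw [ha, mulVec_smul, C.hf, smul_smul, smul_eq_zero] at h3
    have h4 : w (0 + 1) ≠ 0 := C.indep.ne_zero ⟨1, by omega⟩
    have h5 : a = 0 := by simpa using h3.resolve_right h4
    exact hu3 (by rw [ha, h5, zero_smul])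
  have hdec : ∀ v, ∃ a : ℂ,
      v - a • u ∈ Submodule.span ℂ (Set.range fun j : Fin (2 * s + 1) => w j) := by
    intro v
    have h2 := hi.span_eq_top_of_card_eq_finrank' (by simp)
    obtain ⟨c, rfl⟩ := (Submodule.mem_span_range_iff_exists_fun ℂ).1
      (h2 ▸ Submodule.mem_top (x := v))
    refine ⟨c 0, ?_⟩
    rw [Fin.sum_univ_succ, Fin.cons_zero, add_sub_cancel_left]
    exact Submodule.sum_mem _ fun j _ => Submodule.smul_mem _ _ (Submodule.subset_span ⟨j, rfl⟩)
  have hperp : ∀ v ∈ Submodule.span ℂ (Set.range fun j : Fin (2 * s + 1) => w j), v ⬝ᵥ u = 0 := by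
    intro v hv
    obtain ⟨c, rfl⟩ := (Submodule.mem_span_range_iff_exists_fun ℂ).1 hv
    simp [sum_dotProduct, hw]
  have huu : u ⬝ᵥ u ≠ 0 := by
    intro h2
    apply hu3
    funext i
    obtain ⟨a, ha⟩ := hdec (Pi.single i 1)
    have := hperp _ ha
    rw [sub_dotProduct, smul_dotProduct, h2, smul_zero, sub_zero] at this
    simpa using this
  have hin : ∀ v, v ⬝ᵥ u = 0 →
      v ∈ Submodule.span ℂ (Set.range fun j : Fin (2 * s + 1) => w j) := by
    intro v hv
    obtain ⟨a, ha⟩ := hdec v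
    have := hperp _ ha
    rw [sub_dotProduct, smul_dotProduct, hv, zero_sub, neg_eq_zero, smul_eq_zero] at this
    simpa [this.resolve_right huu] using ha
  have hcu : ∀ j, cv (2 * s) w j ⬝ᵥ u = 0 := fun j => by rw [cv, smul_dotProduct, hw, smul_zero]
  have hi2 : LinearIndependent ℂ (Sum.elim (cv (2 * s) w) fun _ : Unit => u) := by
    rw [Fintype.linearIndependent_iff]
    intro g hg
    rw [Fintype.sum_sum_type] at hg
    simp only [Sum.elim_inl, Sum.elim_inr, Finset.univ_unique, Finset.sum_singleton] at hg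
    have h2 := congrArg (· ⬝ᵥ u) hg
    simp only [add_dotProduct, sum_dotProduct, smul_dotProduct, hcu, smul_zero,
      Finset.sum_const_zero, zero_add, zero_dotProduct, smul_eq_zero] at h2
    have h3 := h2.resolve_right huu
    rw [h3, zero_smul, add_zero] at hg
    rintro (j | j)
    · exact Fintype.linearIndependent_iff.1 C.cv_indep _ hg j
    · exact h3
  let c : Basis (Fin (2 * s + 1) ⊕ Unit) ℂ (Fin (2 * s + 1 + 1) → ℂ) :=
    basisOfLinearIndependentOfCardEqFinrank' _ hi2 (by simp)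
  have hc : ∀ j, c (Sum.inl j) = cv (2 * s) w j := fun j => by simp [c]
  have hc' : ∀ j, c (Sum.inr j) = u := fun j => by simp [c]
  have hrepr : ∀ v j, v ⬝ᵥ u = 0 → c.repr v (Sum.inr j) = 0 := by
    intro v j hv
    rw [← c.sum_repr v, Fintype.sum_sum_type] at hv
    simp only [hc, hc', Finset.univ_unique, Finset.sum_singleton, add_dotProduct, sum_dotProduct,
      smul_dotProduct, hcu, smul_zero, Finset.sum_const_zero, zero_add, smul_eq_zero] at hv
    exact hv.resolve_right huu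
  let ρ' : L →ₗ[ℂ] Matrix (Fin (2 * s + 1) ⊕ Unit) (Fin (2 * s + 1) ⊕ Unit) ℂ :=
    (Psi c).toLinearMap ∘ₗ ρ
  have hρ' : ∀ x, ρ' x = Psi c (ρ x) := fun _ => rfl
  have he : ρ' e = blk _ _ (eM ℂ (2 * s + 1), 0) :=
    Psi_blk c _ _ (fun j => by simp only [hc, C.e_cv]) fun k => by rw [hc', heu]
  have hb : ∀ x y : L, ρ' ⁅x, y⁆ = ρ' x * ρ' y - ρ' y * ρ' x := fun x y => by
    simp only [hρ', hρ, map_sub, map_mul]
  obtain ⟨us, hus⟩ := hsurj (RR (w 0) u) (by simp [RR])
  have hRR0 : ∀ a : Fin (2 * s + 1 + 1) → ℂ, RR a 0 = 0 := fun a => by simp [RR]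
  have hRR1 : ∀ (r : ℂ) (a : Fin (2 * s + 1 + 1) → ℂ), RR (r • a) u = r • RR a u := fun r a => by
    simp [RR, smul_sub]
  have hP : t.HasPrimitiveVectorWith us ((2 * s : ℕ) : ℂ) := by
    refine ⟨?_, hinj ?_, hinj ?_⟩
    · intro h2
      have h3 := congrArg (· *ᵥ u) hus
      simp only [h2, map_zero, zero_mulVec, RR_mulVec, hw, zero_smul, sub_zero] at h3
      exact smul_ne_zero huu (C.indep.ne_zero 0) h3.symm
    · have h2 : ρ h = ρ e * ρ f - ρ f * ρ e := by rw [← hρ, t.lie_e_f]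
      rw [hρ, hus, RR_lie _ (hs h), map_smul, hus, h2, C.hh, sub_mulVec, ← mulVec_mulVec,
        ← mulVec_mulVec, heu, hfu, hRR1]
      simp [hRR0]
    · rw [hρ, hus, RR_lie _ (hs e), heu, C.he0, map_zero]
      simp [RR]
  have hxs : ∀ j : ℕ, ρ (dv f us j) = RR (w j) u := by
    intro j
    induction j with
    | zero => rw [dv_zero, hus]
    | succ j ih =>
      have h7 := congrArg ρ (f_dv (f := f) us j)
      rw [hρ, ih, RR_lie _ (hs f), hfu, hRR0, add_zero, C.hf, hRR1, map_smul] at h7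
      exact (smul_right_injective _ (Nat.cast_add_one_ne_zero j) h7).symm
  refine core (Module.finBasis ℂ L) t ρ' hb ((Psi c).injective.comp hinj) he
    (Psi_blk c _ _ (fun j => by simp only [hc, C.f_cv]) fun k => by rw [hc', hfu]) (κ' := Unit)
    (fun _ => us) s (fun _ => hP) (fun _ => PF (Module.finBasis ℂ L) (pfF ρ (Option (Fin s))))
    (fun _ => ?_)
    (fun _ => ?_) (fun _ => ?_) (fun y hy => ?_) hk F hF hF' hx
  · simpa using PF_inv (Module.finBasis ℂ L) _ (pfF_inv (J := Option (Fin s)) ρ hρ hs)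
  · rw [Phi_PF _ _ (pfF_symm ρ)]
    exact mul_ne_zero (Nat.cast_add_one_ne_zero s)
      (cartan_pf ρ hρ _ (fun j => w j) u (fun j => hxs j) (fun j => hw j) huu hi)
  · let S : Matrix (Fin (2 * s + 1 + 1)) (Fin (2 * s + 1 + 1)) ℂ :=
      1 - (2 / (u ⬝ᵥ u)) • vecMulVec u u
    have hS : S * S = 1 := by
      simp only [S, mul_sub, sub_mul, mul_one, one_mul, smul_mul_assoc, mul_smul_comm,
        vecMulVec_mul_vecMulVec, vecMulVec_smul, smul_sub, smul_smul]
      match_scalars <;> field_simp <;> ring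
    refine trace_std_odd (Psi c S) (by rw [← map_mul, hS, map_one]) _ fun j => ?_
    rw [hρ', ← map_mul, ← map_mul, ← map_neg]
    congr 1
    have h2 : ρ (xs f us s j) = RR (w j) u := hxs j
    have h3 := hw j
    rw [h2]
    simp only [S, RR, mul_sub, sub_mul, mul_one, one_mul, smul_mul_assoc, mul_smul_comm,
      vecMulVec_mul_vecMulVec, vecMulVec_smul, smul_sub, smul_smul, h3, dotProduct_comm u (w j),
      zero_smul, vecMulVec_zero, smul_zero, zero_mul]
    match_scalars <;> field_simp <;> ring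
  · have h2 : ρ e * ρ y = ρ y * ρ e := by rw [← sub_eq_zero, ← hρ, hy, map_zero]
    have h3 : (ρ y *ᵥ u) ⬝ᵥ u = 0 := by
      have := skew_dot _ (hs y) u u
      rw [dotProduct_comm u] at this
      exact self_eq_neg.1 this
    obtain ⟨a, ha⟩ := C.eq_smul (hin _ h3) (by
      rw [mulVec_mulVec, h2, ← mulVec_mulVec, heu, mulVec_zero])
    have h4 : ρ (y - (a / (u ⬝ᵥ u)) • us) *ᵥ u = 0 := by
      rw [map_sub, map_smul, hus, sub_mulVec, smul_mulVec, RR_mulVec, hw, zero_smul, sub_zero,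
        smul_smul, div_mul_cancel₀ _ huu, ha, sub_self]
    obtain ⟨c', hc2⟩ := cent_blk (ρ' (y - (a / (u ⬝ᵥ u)) • us)) (fun i k => by
      rw [hρ', Psi_apply, hc', h4]; simp) (fun k j => by
      rw [hρ', Psi_apply]
      apply hrepr
      rw [skew_dot _ (hs _), h4, dotProduct_zero, neg_zero]) (by
      rw [← he, eq_comm, ← sub_eq_zero, ← hb, lie_sub, lie_smul, hy, hP.lie_e]
      simp)
    exact ⟨c', fun _ => a / (u ⬝ᵥ u), by simpa using hc2⟩

end Pool.Agent.MP_a0341c_al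

end

-- part MP_a0341c_al.Cent
section

/-! Dimensions of centralisers in the classical Lie algebras. -/

namespace Pool.Agent.MP_a0341c_al

open Finset Module Matrix

set_option linter.unusedSectionVars false

variable {ν : Type*} [Fintype ν] [DecidableEq ν]

/-- the centraliser of a matrix -/
noncomputable def Cen (A : Matrix ν ν ℂ) : Submodule ℂ (Matrix ν ν ℂ) :=
  LinearMap.ker (LinearMap.mulLeft ℂ A - LinearMap.mulRight ℂ A)

lemma mem_Cen {A B : Matrix ν ν ℂ} : B ∈ Cen A ↔ A * B = B * A := by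
  simp [Cen, sub_eq_zero]

lemma finrank_ker_ad {L : Type*} [LieRing L] [LieAlgebra ℂ L] (ρ : L →ₗ[ℂ] Matrix ν ν ℂ)
    (hρ : ∀ x y : L, ρ ⁅x, y⁆ = ρ x * ρ y - ρ y * ρ x) (hinj : Function.Injective ρ) (x : L) :
    finrank ℂ (LinearMap.ker (LieAlgebra.ad ℂ L x)) =
      finrank ℂ (Cen (ρ x) ⊓ LinearMap.range ρ : Submodule ℂ _) := by
  have : (LinearMap.ker (LieAlgebra.ad ℂ L x)).map ρ = Cen (ρ x) ⊓ LinearMap.range ρ := by
    ext A
    simp only [Submodule.mem_map, LinearMap.mem_ker, LieAlgebra.ad_apply, Submodule.mem_inf,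
      mem_Cen, LinearMap.mem_range]
    constructor
    · rintro ⟨y, hy, rfl⟩
      exact ⟨by rw [← sub_eq_zero, ← hρ, hy, map_zero], y, rfl⟩
    · rintro ⟨h, y, rfl⟩
      exact ⟨y, hinj (by rw [hρ, h, sub_self, map_zero]), rfl⟩
  rw [← this]
  exact (Submodule.equivMapOfInjective ρ hinj _).finrank_eq

lemma exists_vec {A : Matrix ν ν ℂ} (hA : A ≠ 0) : ∃ v, A *ᵥ v ≠ 0 := by
  by_contra! h
  exact hA (Matrix.toLin'.injective (LinearMap.ext fun w => by simpa using h w))

variable {E : Matrix ν ν ℂ} {N : ℕ}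

lemma pow_indep (h1 : E ^ (N + 1) = 0) {v : ν → ℂ} (hv : E ^ N *ᵥ v ≠ 0) :
    LinearIndependent ℂ fun j : Fin (N + 1) => E ^ (j : ℕ) *ᵥ v := by
  rw [Fintype.linearIndependent_iff]
  intro g hg
  have : ∀ (m : ℕ) (i : Fin (N + 1)), (i : ℕ) = m → g i = 0 := by
    intro m
    induction m using Nat.strong_induction_on with
    | _ m ih =>
      intro i hi
      have h2 := congrArg (E ^ (N - m) *ᵥ ·) hg
      simp only [mulVec_sum, mulVec_smul, mulVec_mulVec, ← pow_add, mulVec_zero] at h2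
      rw [Finset.sum_eq_single i, show N - m + i = N by have := i.2; omega] at h2
      · exact (smul_eq_zero.1 h2).resolve_right hv
      · intro j _ hj
        have h3 : (j : ℕ) ≠ i := fun h => hj (Fin.ext h)
        rcases lt_or_gt_of_ne h3 with h4 | h4
        · rw [ih j (by omega) j rfl, zero_smul]
        · rw [pow_eq_zero_of_le (by have := j.2; omega) h1, zero_mulVec, smul_zero]
      · simp
  exact fun i => this i i rfl

lemma exists_dual {n : ℕ} {v : Fin n → ν → ℂ} (hv : LinearIndependent ℂ v) (g : Fin n → ℂ) :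
    ∃ x, ∀ j, v j ⬝ᵥ x = g j := by
  have h2 : (Matrix.of v).rank = Fintype.card (Fin n) := LinearIndependent.rank_matrix hv
  have h3 : LinearMap.range (Matrix.of v).mulVecLin = ⊤ :=
    Submodule.eq_top_of_finrank_eq (by rw [finrank_fintype_fun_eq_card, ← h2]; rfl)
  obtain ⟨x, hx⟩ := LinearMap.range_eq_top.1 h3 g
  exact ⟨x, fun j => congrFun hx j⟩

lemma cen_lower (h1 : E ^ (N + 1) = 0) (h2 : E ^ N ≠ 0) (hN : N + 1 < Fintype.card ν) :
    Fintype.card ν + 1 ≤ finrank ℂ (Cen E) := by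
  obtain ⟨v, hv⟩ := exists_vec h2
  obtain ⟨φ, hφ⟩ := exists_dual (pow_indep h1 hv) (Pi.single (Fin.last N) 1)
  let T : ((ν → ℂ) × ℂ) →ₗ[ℂ] Matrix ν ν ℂ :=
    { toFun := fun p => ∑ j ∈ range (N + 1), vecMulVec (E ^ j *ᵥ p.1) (φ ᵥ* E ^ (N - j)) + p.2 • 1
      map_add' := fun p q => by
        simp only [Prod.fst_add, Prod.snd_add, mulVec_add, add_vecMulVec, Finset.sum_add_distrib,
          add_smul]
        abel
      map_smul' := fun c p => by
        simp [mulVec_smul, Finset.smul_sum, smul_smul] }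
  have hT : ∀ p, T p = ∑ j ∈ range (N + 1), vecMulVec (E ^ j *ᵥ p.1) (φ ᵥ* E ^ (N - j)) + p.2 • 1 :=
    fun _ => rfl
  have hmem : ∀ p, T p ∈ Cen E := by
    intro p
    rw [mem_Cen, hT, mul_add, add_mul, mul_smul_comm, smul_mul_assoc, mul_one, one_mul,
      Finset.mul_sum, Finset.sum_mul, Finset.sum_range_succ, Finset.sum_range_succ']
    simp only [mul_vecMulVec, vecMulVec_mul, mulVec_mulVec, vecMul_vecMul, ← pow_succ', ← pow_succ,
      h1, zero_mulVec, zero_vecMulVec, Nat.sub_zero, vecMul_zero, add_zero]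
    have : vecMulVec (E ^ 0 *ᵥ p.1) (0 : ν → ℂ) = 0 := vecMulVec_zero _
    rw [this, add_zero]
    congr 1
    refine Finset.sum_congr rfl fun j hj => ?_
    rw [show N - (j + 1) + 1 = N - j by have := Finset.mem_range.1 hj; omega]
  have hinj : Function.Injective (T.codRestrict _ hmem) := by
    rw [injective_iff_map_eq_zero]
    rintro ⟨w, t⟩ h3
    have h4 : T (w, t) = 0 := congrArg Subtype.val h3
    have h5 : ∀ x, ∑ j ∈ range (N + 1), ((φ ᵥ* E ^ (N - j)) ⬝ᵥ x) • E ^ j *ᵥ w + t • x = 0 := by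
      intro x
      have := congrArg (· *ᵥ x) h4
      simpa [hT, add_mulVec, sum_mulVec, vecMulVec_mulVec, smul_mulVec] using this
    have ht : t = 0 := by
      by_contra ht
      have h6 : Submodule.span ℂ (Set.range fun j : Fin (N + 1) => E ^ (j : ℕ) *ᵥ w) = ⊤ := by
        rw [eq_top_iff]
        intro x _
        rw [← Submodule.smul_mem_iff _ ht, eq_neg_of_add_eq_zero_right (h5 x), Submodule.neg_mem_iff]
        exact Submodule.sum_mem _ fun j hj => Submodule.smul_mem _ _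
          (Submodule.subset_span ⟨⟨j, Finset.mem_range.1 hj⟩, rfl⟩)
      have h7 := finrank_range_le_card (R := ℂ) fun j : Fin (N + 1) => E ^ (j : ℕ) *ᵥ w
      rw [Set.finrank, h6, finrank_top, finrank_fintype_fun_eq_card, Fintype.card_fin] at h7
      omega
    have h6 := h5 v
    rw [ht, zero_smul, add_zero, Finset.sum_eq_single 0] at h6
    · have h7 := hφ (Fin.last N)
      rw [← dotProduct_mulVec, dotProduct_comm] at h6
      simp only [Fin.val_last, Pi.single_eq_same] at h7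
      rw [Nat.sub_zero, h7] at h6
      exact Prod.ext (by simpa using h6) ht
    · intro j hj hj0
      have h7 := hφ ⟨N - j, by omega⟩
      rw [Pi.single_eq_of_ne (fun h => by
        have := congrArg Fin.val h
        have := Finset.mem_range.1 hj
        simp only [Fin.val_last] at *
        omega)] at h7
      rw [← dotProduct_mulVec, dotProduct_comm, h7, zero_smul]
    · simp
  have := LinearMap.finrank_le_finrank_of_injective hinj
  simpa using this

/-- matrices that are skew for the form `J` -/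
def skew (J : Matrix ν ν ℂ) : Submodule ℂ (Matrix ν ν ℂ) where
  carrier := {A | Aᵀ * J = J * -A}
  add_mem' := fun {A B} hA hB => by
    simp only [Set.mem_setOf_eq] at *
    rw [transpose_add, add_mul, hA, hB, neg_add, mul_add]
  zero_mem' := by simp
  smul_mem' := fun c A hA => by
    simp only [Set.mem_setOf_eq] at *
    rw [transpose_smul, smul_mul_assoc, hA, ← smul_neg, mul_smul_comm]

lemma mem_skew {J A : Matrix ν ν ℂ} : A ∈ skew J ↔ Aᵀ * J = J * -A := Iff.rfl

lemma form_lower (h1 : E ^ (N + 1) = 0) (h2 : E ^ N ≠ 0) (J : Matrix ν ν ℂ) (hJ : IsUnit J)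
    (p : ℕ) (hp : p ≤ 1) (hJ' : Jᵀ = (-1 : ℂ) ^ p • J) (hE : E ∈ skew J) :
    Fintype.card ν ≤ finrank ℂ (Cen E ⊓ skew J : Submodule ℂ _) + (N + 2 - p) / 2 := by
  obtain ⟨v, hv⟩ := exists_vec h2
  set ε : ℂ := (-1) ^ p with hε
  have hεε : ε * ε = 1 := by rw [hε, ← mul_pow]; simp
  obtain ⟨x, hx⟩ := exists_dual (v := fun j : Fin (N + 1) => (E ^ (j : ℕ) *ᵥ v) ᵥ* J)
    ((pow_indep h1 hv).map' J.vecMulLinear (LinearMap.ker_eq_bot.2
      (vecMul_injective_iff_isUnit.2 hJ))) (Pi.single (Fin.last N) 1)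
  have hx' : ∀ j : ℕ, ((E ^ j *ᵥ v) ᵥ* J) ⬝ᵥ x = if j = N then 1 else 0 := by
    intro j
    by_cases hj : j < N + 1
    · rw [hx ⟨j, hj⟩, Pi.single_apply]
      simp [Fin.ext_iff]
    · rw [pow_eq_zero_of_le (by omega) h1, if_neg (by omega)]
      simp
  let R : (ν → ℂ) → (ν → ℂ) → Matrix ν ν ℂ := fun a c =>
    vecMulVec a (c ᵥ* J) - ε • vecMulVec c (a ᵥ* J)
  have hJa : ∀ a, J *ᵥ a = ε • (a ᵥ* J) := fun a => by
    rw [← vecMul_transpose, hJ', vecMul_smul]
  have hR : ∀ a c, R a c ∈ skew J := fun a c => by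
    simp only [mem_skew, R, transpose_sub, transpose_smul, transpose_vecMulVec, sub_mul, mul_neg,
      mul_sub, smul_mul_assoc, mul_smul_comm, vecMulVec_mul, mul_vecMulVec, hJa, smul_vecMulVec,
      smul_smul, hεε, one_smul, neg_sub]
  have hEa : ∀ a, (a ᵥ* J) ᵥ* E = -((E *ᵥ a) ᵥ* J) := fun a => by
    rw [vecMul_vecMul, ← vecMul_transpose, vecMul_vecMul, mem_skew.1 hE, mul_neg, vecMul_neg,
      neg_neg]
  have hER : ∀ a c, E * R a c - R a c * E = R (E *ᵥ a) c + R a (E *ᵥ c) := fun a c => by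
    simp only [R, mul_sub, sub_mul, mul_smul_comm, smul_mul_assoc, mul_vecMulVec, vecMulVec_mul,
      hEa, vecMulVec_neg, smul_neg]
    abel
  let T : (ν → ℂ) →ₗ[ℂ] Matrix ν ν ℂ :=
    { toFun := fun w => ∑ j ∈ range (N + 1), (-1 : ℂ) ^ j • R (E ^ j *ᵥ w) (E ^ (N - j) *ᵥ v)
      map_add' := fun a c => by
        rw [← Finset.sum_add_distrib]
        refine Finset.sum_congr rfl fun j _ => ?_
        simp only [R, mulVec_add, add_vecMulVec, add_vecMul, vecMulVec_add]
        module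
      map_smul' := fun c a => by
        rw [Finset.smul_sum]
        refine Finset.sum_congr rfl fun j _ => ?_
        simp only [R, mulVec_smul, smul_vecMulVec, smul_vecMul, vecMulVec_smul, RingHom.id_apply]
        module }
  have hT : ∀ w, T w = ∑ j ∈ range (N + 1), (-1 : ℂ) ^ j • R (E ^ j *ᵥ w) (E ^ (N - j) *ᵥ v) :=
    fun _ => rfl
  have hR0 : ∀ a, R a 0 = 0 ∧ R 0 a = 0 := fun a => by
    constructor <;> (funext i j; simp [R, vecMulVec_apply])
  have hmem : ∀ w, T w ∈ Cen E ⊓ skew J := by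
    intro w
    refine ⟨?_, Submodule.sum_mem _ fun j _ => Submodule.smul_mem _ _ (hR _ _)⟩
    show T w ∈ Cen E
    rw [mem_Cen, ← sub_eq_zero, hT, Finset.mul_sum, Finset.sum_mul, ← Finset.sum_sub_distrib]
    simp only [mul_smul_comm, smul_mul_assoc, ← smul_sub, hER, mulVec_mulVec, ← pow_succ', smul_add,
      Finset.sum_add_distrib]
    rw [Finset.sum_range_succ, Finset.sum_range_succ', h1, Nat.sub_zero, h1, zero_mulVec,
      zero_mulVec, (hR0 _).1, (hR0 _).2, smul_zero, smul_zero, add_zero, add_zero,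
      ← Finset.sum_add_distrib]
    refine Finset.sum_eq_zero fun j hj => ?_
    rw [show N - (j + 1) + 1 = N - j by have := Finset.mem_range.1 hj; omega, pow_succ (-1 : ℂ)]
    module
  have hker : LinearMap.ker (T.codRestrict _ hmem) ≤ Submodule.span ℂ
      (Set.range fun i : Fin ((N + 2 - p) / 2) => E ^ (N - (2 * i + p)) *ᵥ v) := by
    intro w hw
    have h4 : T w = 0 := congrArg Subtype.val hw
    let c : ℕ → ℂ := fun j => ((E ^ j *ᵥ w) ᵥ* J) ⬝ᵥ x
    have h5 : w = ∑ j ∈ range (N + 1), ((-1) ^ j * ε * c j) • E ^ (N - j) *ᵥ v := by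
      have h6 := congrArg (· *ᵥ x) h4
      simp only [hT, R, sum_mulVec, smul_mulVec, sub_mulVec, vecMulVec_mulVec, op_smul_eq_smul,
        hx', smul_sub, Finset.sum_sub_distrib, zero_mulVec, smul_smul] at h6
      rw [Finset.sum_eq_single 0, sub_eq_zero] at h6
      · simpa [c, mul_assoc] using h6
      · intro j hj hj0
        rw [if_neg (by have := Finset.mem_range.1 hj; omega), mul_zero, zero_smul]
      · simp
    have h6 : ∀ j ∈ range (N + 1), c j = (-1) ^ j * ε * c j := by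
      intro j hj
      have hj := Finset.mem_range.1 hj
      have h7 : c j = ((E ^ j *ᵥ ∑ j ∈ range (N + 1), ((-1) ^ j * ε * c j) • E ^ (N - j) *ᵥ v)
          ᵥ* J) ⬝ᵥ x := by rw [← h5]
      refine h7.trans ?_
      rw [mulVec_sum, sum_vecMul, sum_dotProduct, Finset.sum_eq_single j]
      · rw [mulVec_smul, smul_vecMul, smul_dotProduct, mulVec_mulVec, ← pow_add E, hx',
          if_pos (by omega), smul_eq_mul, mul_one]
      · intro i hi hij
        have hi := Finset.mem_range.1 hi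
        rw [mulVec_smul, smul_vecMul, smul_dotProduct, mulVec_mulVec, ← pow_add E, hx',
          if_neg (by omega), smul_zero]
      · intro h; exact absurd (Finset.mem_range.2 hj) h
    rw [h5]
    refine Submodule.sum_mem _ fun j hj => ?_
    by_cases h7 : Even (j + p)
    · obtain ⟨r, hr⟩ := h7
      have hj' := Finset.mem_range.1 hj
      refine Submodule.smul_mem _ _ (Submodule.subset_span ⟨⟨r - p, by omega⟩, ?_⟩)
      simp only
      rw [show 2 * (r - p) + p = j by omega]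
    · have h8 := h6 j hj
      rw [hε, ← pow_add, (Nat.not_even_iff_odd.1 h7).neg_one_pow, neg_one_mul, self_eq_neg] at h8
      rw [h8, mul_zero, zero_smul]
      exact Submodule.zero_mem _
  have h3 := LinearMap.finrank_range_add_finrank_ker (T.codRestrict _ hmem)
  have h4 := Submodule.finrank_mono hker
  have h5 := finrank_range_le_card (R := ℂ)
    fun i : Fin ((N + 2 - p) / 2) => E ^ (N - (2 * i + p)) *ᵥ v
  have h6 := Submodule.finrank_le (LinearMap.range (T.codRestrict _ hmem))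
  rw [Set.finrank, Fintype.card_fin] at h5
  rw [finrank_fintype_fun_eq_card] at h3
  omega

/-- a regular skew-symmetric matrix -/
def tri (n : ℕ) : Matrix (Fin n) (Fin n) ℂ :=
  fun i j => if (i : ℕ) = j + 1 then 1 else if (j : ℕ) = i + 1 then -1 else 0

lemma tri_skew (n : ℕ) : (tri n)ᵀ = -tri n := by
  funext i j
  simp only [transpose_apply, tri, Matrix.neg_apply]
  split_ifs <;> first | omega | simp

lemma cent_tri {n : ℕ} {A : Matrix (Fin n) (Fin n) ℂ} (hA : A ∈ Cen (tri n)) :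
    ∃ c : Fin n → ℂ, A = ∑ i, c i • tri n ^ (i : ℕ) :=
  cent_hess _ (fun i j h => by simp [tri, h])
    (fun i j h => by rw [tri, if_neg (by omega), if_neg (by omega)]) A (mem_Cen.1 hA).symm

lemma tri_upper (n : ℕ) : finrank ℂ (Cen (tri n)) ≤ n := by
  have h1 : Cen (tri n) ≤ Submodule.span ℂ (Set.range fun i : Fin n => tri n ^ (i : ℕ)) := by
    intro A hA
    obtain ⟨c, rfl⟩ := cent_tri hA
    exact (Submodule.mem_span_range_iff_exists_fun ℂ).2 ⟨c, rfl⟩
  have h2 := finrank_range_le_card (R := ℂ) fun i : Fin n => tri n ^ (i : ℕ)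
  rw [Set.finrank, Fintype.card_fin] at h2
  exact (Submodule.finrank_mono h1).trans h2

lemma tri_upper' (n : ℕ) : finrank ℂ (Cen (tri n) ⊓ skew 1 : Submodule ℂ _) ≤ n / 2 := by
  have h1 : Cen (tri n) ⊓ skew 1 ≤
      Submodule.span ℂ (Set.range fun i : Fin (n / 2) => tri n ^ (2 * (i : ℕ) + 1)) := by
    rintro A ⟨hA, hA'⟩
    obtain ⟨c, hc⟩ := cent_tri hA
    have h2 : Aᵀ = -A := by simpa using mem_skew.1 hA'
    have h3 : (2 : ℂ) • A = ∑ i, (c i * (1 - (-1) ^ (i : ℕ))) • tri n ^ (i : ℕ) := by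
      rw [two_smul, ← sub_neg_eq_add, ← h2, hc, transpose_sum, ← Finset.sum_sub_distrib]
      refine Finset.sum_congr rfl fun i _ => ?_
      rw [transpose_smul, transpose_pow, tri_skew, ← neg_one_smul ℂ (tri n), smul_pow]
      module
    rw [← Submodule.smul_mem_iff _ (two_ne_zero (α := ℂ)), h3]
    refine Submodule.sum_mem _ fun i _ => ?_
    rcases Nat.even_or_odd (i : ℕ) with h | ⟨r, hr⟩
    · rw [h.neg_one_pow, sub_self, mul_zero, zero_smul]
      exact Submodule.zero_mem _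
    · refine Submodule.smul_mem _ _ (Submodule.subset_span ⟨⟨r, by have := i.2; omega⟩, ?_⟩)
      simp only [hr]
  have h2 := finrank_range_le_card (R := ℂ) fun i : Fin (n / 2) => tri n ^ (2 * (i : ℕ) + 1)
  rw [Set.finrank, Fintype.card_fin] at h2
  exact (Submodule.finrank_mono h1).trans h2

/-- a regular element of the symplectic algebra -/
def dsp (m : ℕ) : Matrix (Fin m ⊕ Fin m) (Fin m ⊕ Fin m) ℂ :=
  diagonal (Sum.elim (fun i => ((i : ℕ) + 1 : ℂ)) fun i => -((i : ℕ) + 1 : ℂ))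

lemma dsp_skew (m : ℕ) : dsp m ∈ skew (J (Fin m) ℂ) := by
  rw [mem_skew]
  funext i j
  rcases i with i | i <;> rcases j with j | j <;> by_cases h : i = j <;>
    simp [dsp, J, diagonal_neg, h, one_apply]

lemma dsp_upper (m : ℕ) : finrank ℂ (Cen (dsp m) ⊓ skew (J (Fin m) ℂ) : Submodule ℂ _) ≤ m := by
  let D : (Fin m → ℂ) →ₗ[ℂ] Matrix (Fin m ⊕ Fin m) (Fin m ⊕ Fin m) ℂ :=
    { toFun := fun a => diagonal (Sum.elim a (-a))
      map_add' := fun a c => by
        rw [diagonal_add]; congr 1; funext i; rcases i with i | i <;> simp [add_comm]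
      map_smul' := fun c a => by
        rw [← diagonal_smul]; congr 1; funext i; rcases i with i | i <;> simp }
  have h1 : Cen (dsp m) ⊓ skew (J (Fin m) ℂ) ≤ LinearMap.range D := by
    rintro A ⟨hA, hA'⟩
    have h2 : ∀ i j, i ≠ j → A i j = 0 := by
      intro i j hij
      have h3 := congrFun (congrFun (mem_Cen.1 hA) i) j
      simp only [dsp, diagonal_mul, mul_diagonal] at h3
      rw [mul_comm] at h3
      refine (mul_eq_mul_left_iff.1 h3).resolve_left fun h4 => hij ?_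
      rcases i with i | i <;> rcases j with j | j <;> simp only [Sum.elim_inl, Sum.elim_inr] at h4
      · exact congrArg _ (Fin.ext (by exact_mod_cast add_right_cancel h4))
      · have : ((i + 1 + (j + 1) : ℕ) : ℂ) = 0 := by push_cast; rw [h4]; ring
        exact absurd (Nat.cast_eq_zero.1 this) (by omega)
      · have : ((i + 1 + (j + 1) : ℕ) : ℂ) = 0 := by push_cast; rw [← h4]; ring
        exact absurd (Nat.cast_eq_zero.1 this) (by omega)
      · exact congrArg _ (Fin.ext (by exact_mod_cast add_right_cancel (neg_injective h4)))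
    have h3 : A = diagonal fun i => A i i := by
      funext i j
      by_cases h : i = j
      · subst h; simp
      · rw [h2 i j h, diagonal_apply_ne _ h]
    refine ⟨fun i => A (Sum.inl i) (Sum.inl i), ?_⟩
    have h4 := mem_skew.1 hA'
    rw [h3, diagonal_transpose, diagonal_neg] at h4
    conv_rhs => rw [h3]
    show diagonal _ = _
    congr 1
    funext i
    rcases i with i | i
    · rfl
    · have := congrFun (congrFun h4 (Sum.inr i)) (Sum.inl i)
      simpa [J, eq_comm] using this.symm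
  refine (Submodule.finrank_mono h1).trans ((LinearMap.finrank_range_le D).trans ?_)
  simp

end Pool.Agent.MP_a0341c_al

end

-- part MP_a0341c_al.Main
section

/-! The three classical families. -/

namespace Pool.Agent.MP_a0341c_al

open Finset Module Matrix

set_option linter.unusedSectionVars false

variable {L : Type*} [LieRing L] [LieAlgebra ℂ L] [FiniteDimensional ℂ L] {h e f : L}

lemma nonempty_index {ν : Type*} [Fintype ν] [DecidableEq ν] (t : IsSl2Triple h e f)
    (ρ : L →ₗ[ℂ] Matrix ν ν ℂ) (hinj : Function.Injective ρ) : Nonempty ν := by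
  by_contra h0
  rw [not_nonempty_iff] at h0
  exact t.e_ne_zero (hinj (Subsingleton.elim _ _))

lemma Chain.le_card {ν : Type*} [Fintype ν] [DecidableEq ν] {E F : Matrix ν ν ℂ} {N : ℕ}
    {w : ℕ → ν → ℂ} (C : Chain E F N w) : N + 1 ≤ Fintype.card ν := by
  simpa using C.indep.fintype_card_le_finrank

theorem concl_sl {n : ℕ} (t : IsSl2Triple h e f) (ρ : L →ₗ[ℂ] Matrix (Fin n) (Fin n) ℂ)
    (hρ : ∀ x y : L, ρ ⁅x, y⁆ = ρ x * ρ y - ρ y * ρ x) (hinj : Function.Injective ρ)
    (hr : LinearMap.range ρ = LinearMap.ker (traceLinearMap (Fin n) ℂ ℂ))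
    (hreg : ∀ y : L, finrank ℂ (LinearMap.ker (LieAlgebra.ad ℂ L e)) ≤
      finrank ℂ (LinearMap.ker (LieAlgebra.ad ℂ L y))) : Concl t := by
  have := nonempty_index t ρ hinj
  obtain ⟨N, w, C⟩ := exists_chain t ρ hρ
  refine single t ρ hρ hinj C ?_
  by_contra hne
  have h1 := cen_lower C.nil C.ne (lt_of_le_of_ne C.le_card (Ne.symm hne))
  obtain ⟨y, hy⟩ : tri n ∈ LinearMap.range ρ := by
    rw [hr, LinearMap.mem_ker, traceLinearMap_apply]
    have h2 := congrArg trace (tri_skew n)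
    rw [trace_transpose, trace_neg] at h2
    exact self_eq_neg.1 h2
  have h2 := hreg y
  rw [finrank_ker_ad ρ hρ hinj, finrank_ker_ad ρ hρ hinj, hy] at h2
  have h3 : ∀ A : Matrix (Fin n) (Fin n) ℂ, Cen A ⊔ LinearMap.range ρ = ⊤ := by
    intro A
    rw [eq_top_iff]
    intro B _
    have hn : (n : ℂ) ≠ 0 := by
      have := Fintype.card_ne_zero (α := Fin n)
      simpa using this
    refine Submodule.mem_sup.2 ⟨(B.trace / n) • 1, Submodule.smul_mem _ _ (mem_Cen.2 (by simp)),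
      B - (B.trace / n) • 1, ?_, by simp⟩
    rw [hr, LinearMap.mem_ker, traceLinearMap_apply, trace_sub, trace_smul, trace_one,
      Fintype.card_fin, smul_eq_mul, div_mul_cancel₀ _ hn, sub_self]
  have h4 := Submodule.finrank_sup_add_finrank_inf_eq (Cen (ρ e)) (LinearMap.range ρ)
  have h5 := Submodule.finrank_sup_add_finrank_inf_eq (Cen (tri n)) (LinearMap.range ρ)
  rw [h3] at h4 h5
  have h6 := tri_upper n
  rw [Fintype.card_fin] at h1
  omega

theorem concl_so {n : ℕ} (t : IsSl2Triple h e f) (ρ : L →ₗ[ℂ] Matrix (Fin n) (Fin n) ℂ)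
    (hρ : ∀ x y : L, ρ ⁅x, y⁆ = ρ x * ρ y - ρ y * ρ x) (hinj : Function.Injective ρ)
    (hr : LinearMap.range ρ = skew 1)
    (hreg : ∀ y : L, finrank ℂ (LinearMap.ker (LieAlgebra.ad ℂ L e)) ≤
      finrank ℂ (LinearMap.ker (LieAlgebra.ad ℂ L y))) : Concl t := by
  have := nonempty_index t ρ hinj
  obtain ⟨N, w, C⟩ := exists_chain t ρ hρ
  have hs : ∀ A, A ∈ LinearMap.range ρ ↔ Aᵀ = -A := fun A => by simp [hr, mem_skew]
  have h1 := form_lower C.nil C.ne 1 isUnit_one 0 (by norm_num) (by simp) (hr ▸ ⟨e, rfl⟩)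
  obtain ⟨y, hy⟩ := (hs _).2 (tri_skew n)
  have h2 := hreg y
  rw [finrank_ker_ad ρ hρ hinj, finrank_ker_ad ρ hρ hinj, hy, hr] at h2
  have h3 := tri_upper' n
  have h4 := C.le_card
  by_cases hN : Fintype.card (Fin n) = N + 1
  · exact single t ρ hρ hinj C hN
  · rw [Fintype.card_fin] at h1 h4 hN
    obtain ⟨s, rfl, rfl⟩ : ∃ s, N = 2 * s ∧ n = 2 * s + 1 + 1 := ⟨N / 2, by omega, by omega⟩
    exact evenOrth t ρ hρ hinj (fun x => (hs _).1 ⟨x, rfl⟩) (fun A hA => (hs A).2 hA) C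

theorem concl_sp {m : ℕ} (t : IsSl2Triple h e f)
    (ρ : L →ₗ[ℂ] Matrix (Fin m ⊕ Fin m) (Fin m ⊕ Fin m) ℂ)
    (hρ : ∀ x y : L, ρ ⁅x, y⁆ = ρ x * ρ y - ρ y * ρ x) (hinj : Function.Injective ρ)
    (hr : LinearMap.range ρ = skew (J (Fin m) ℂ))
    (hreg : ∀ y : L, finrank ℂ (LinearMap.ker (LieAlgebra.ad ℂ L e)) ≤
      finrank ℂ (LinearMap.ker (LieAlgebra.ad ℂ L y))) : Concl t := by
  have := nonempty_index t ρ hinj
  obtain ⟨N, w, C⟩ := exists_chain t ρ hρ
  refine single t ρ hρ hinj C ?_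
  have h1 := form_lower C.nil C.ne (J (Fin m) ℂ) ((isUnit_iff_isUnit_det _).2 (isUnit_det_J _ _)) 1
    le_rfl (by simp) (hr ▸ ⟨e, rfl⟩)
  obtain ⟨y, hy⟩ : dsp m ∈ LinearMap.range ρ := hr ▸ dsp_skew m
  have h2 := hreg y
  rw [finrank_ker_ad ρ hρ hinj, finrank_ker_ad ρ hρ hinj, hy, hr] at h2
  have h3 := dsp_upper m
  have h4 := C.le_card
  simp only [Fintype.card_sum, Fintype.card_fin] at h1 h4 ⊢
  omega

attribute [local instance 100] LieRing.ofAssociativeRing

lemma exists_rep {ν : Type} [Fintype ν] [DecidableEq ν] (G : LieSubalgebra ℂ (Matrix ν ν ℂ))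
    (φ : L ≃ₗ⁅ℂ⁆ G) : ∃ ρ : L →ₗ[ℂ] Matrix ν ν ℂ,
      (∀ x y : L, ρ ⁅x, y⁆ = ρ x * ρ y - ρ y * ρ x) ∧ Function.Injective ρ ∧
        ∀ A, A ∈ LinearMap.range ρ ↔ A ∈ G := by
  refine ⟨G.toSubmodule.subtype ∘ₗ φ.toLinearEquiv.toLinearMap, fun x y => ?_,
    Subtype.val_injective.comp φ.injective, fun A => ⟨?_, fun hA => ⟨φ.symm ⟨A, hA⟩, ?_⟩⟩⟩
  · show ((φ ⁅x, y⁆ : G) : Matrix ν ν ℂ) = _
    rw [LieEquiv.map_lie]
    rfl
  · rintro ⟨x, rfl⟩
    exact (φ x).2
  · show ((φ (φ.symm ⟨A, hA⟩) : G) : Matrix ν ν ℂ) = A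
    rw [LieEquiv.apply_symm_apply]

theorem concl_classical (t : IsSl2Triple h e f)
    (hL : ∃ n : ℕ, Nonempty (L ≃ₗ⁅ℂ⁆ LieAlgebra.SpecialLinear.sl (Fin n) ℂ) ∨
      Nonempty (L ≃ₗ⁅ℂ⁆ LieAlgebra.Orthogonal.so (Fin n) ℂ) ∨
      Nonempty (L ≃ₗ⁅ℂ⁆ LieAlgebra.Symplectic.sp (Fin n) ℂ))
    (hreg : ∀ y : L, finrank ℂ (LinearMap.ker (LieAlgebra.ad ℂ L e)) ≤
      finrank ℂ (LinearMap.ker (LieAlgebra.ad ℂ L y))) : Concl t := by
  obtain ⟨n, ⟨⟨φ⟩⟩ | ⟨⟨φ⟩⟩ | ⟨⟨φ⟩⟩⟩ := hL
  · obtain ⟨ρ, h1, h2, h3⟩ := exists_rep _ φ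
    exact concl_sl t ρ h1 h2 (Submodule.ext fun A => h3 A) hreg
  · obtain ⟨ρ, h1, h2, h3⟩ := exists_rep _ φ
    refine concl_so t ρ h1 h2 (Submodule.ext fun A => (h3 A).trans ?_) hreg
    simp [mem_skew]
  · obtain ⟨ρ, h1, h2, h3⟩ := exists_rep _ φ
    refine concl_sp t ρ h1 h2 (Submodule.ext fun A => (h3 A).trans ?_) hreg
    rw [LieAlgebra.Symplectic.sp, mem_skewAdjointMatricesLieSubalgebra,
      mem_skewAdjointMatricesSubmodule]
    rfl

lemma cartan_eq {k : ℕ} (F : MultilinearMap ℂ (fun _ : Option (Fin k) => L) ℂ)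
    (x : Option (Fin k × Bool) → L) :
    (∑ σ : Equiv.Perm (Option (Fin k × Bool)), (((Equiv.Perm.sign σ : ℤ) : ℂ) *
      F (fun j : Option (Fin k) => Option.elim j (x (σ none))
        (fun i => ⁅x (σ (some (i, false))), x (σ (some (i, true)))⁆)))) =
      cartan F (x ∘ (en k).symm) := by
  unfold cartan
  refine Fintype.sum_equiv (en k).permCongr _ _ fun σ => ?_
  simp

end Pool.Agent.MP_a0341c_al

end
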